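import Pool.Agent.Work.MP_f22417_co.Defs

/-!
# Module FIB: fibres over the last `n` coordinates
-/

namespace Pool.Agent.Work.MP_f22417_co

open scoped BigOperators

/-- The fibre of `A` over `b`. -/
def fibre {n : ℕ} (A : Finset (Fin (n + 1) → ℤ)) (b : Fin n → ℤ) : Finset ℤ :=
  (A.filter (fun x => Fin.tail x = b)).image (fun x => x 0)

theorem mem_fibre {n : ℕ} {A : Finset (Fin (n + 1) → ℤ)} {b : Fin n → ℤ} {a : ℤ} :
    a ∈ fibre A b ↔ (Fin.cons a b : Fin (n + 1) → ℤ) ∈ A := by
  unfold fibre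
  constructor
  · intro h
    obtain ⟨x, hx, rfl⟩ := Finset.mem_image.1 h
    obtain ⟨hxA, hxb⟩ := Finset.mem_filter.1 hx
    rw [← hxb, Fin.cons_self_tail]
    exact hxA
  · intro h
    exact Finset.mem_image.2 ⟨Fin.cons a b, Finset.mem_filter.2 ⟨h, by simp⟩, by simp⟩

theorem card_fibre {n : ℕ} (A : Finset (Fin (n + 1) → ℤ)) (b : Fin n → ℤ) :
    (fibre A b).card = (A.filter (fun x => Fin.tail x = b)).card := by
  unfold fibre
  apply Finset.card_image_of_injOn
  intro x hx y hy hxy
  have hx' := (Finset.mem_filter.1 (Finset.mem_coe.1 hx)).2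
  have hy' := (Finset.mem_filter.1 (Finset.mem_coe.1 hy)).2
  have hxy' : x 0 = y 0 := hxy
  rw [← Fin.cons_self_tail x, ← Fin.cons_self_tail y, hx', hy', hxy']

theorem fibre_neg {n : ℕ} {A : Finset (Fin (n + 1) → ℤ)} (hc : LatConv A) (b : Fin n → ℤ) :
    fibre A (-b) = (fibre A b).image (fun a => -a) := by
  have key : ∀ (b : Fin n → ℤ) (a : ℤ), a ∈ fibre A b → -a ∈ fibre A (-b) := by
    intro b a h
    rw [mem_fibre] at h ⊢
    have h2 := hc.neg _ h
    have h3 : -(Fin.cons a b : Fin (n + 1) → ℤ) = Fin.cons (-a) (-b) := by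
      funext i
      refine Fin.cases ?_ (fun j => ?_) i <;> simp
    rw [h3] at h2
    exact h2
  ext a
  constructor
  · intro h
    refine Finset.mem_image.2 ⟨-a, ?_, neg_neg a⟩
    have := key (-b) a h
    rwa [neg_neg] at this
  · intro h
    obtain ⟨a', ha', rfl⟩ := Finset.mem_image.1 h
    exact key b a' ha'

/-- The fibre over a point of the projection is an integer interval. -/
theorem fibre_interval {n : ℕ} {A : Finset (Fin (n + 1) → ℤ)} (hc : LatConv A) (b : Fin n → ℤ)
    (hb : (fibre A b).Nonempty) :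
    ∃ lo hi : ℤ, lo ∈ fibre A b ∧ hi ∈ fibre A b ∧ hi - lo = (((fibre A b).card - 1 : ℕ) : ℤ) ∧
      lo ≤ hi := by
  refine ⟨(fibre A b).min' hb, (fibre A b).max' hb, Finset.min'_mem _ _, Finset.max'_mem _ _, ?_,
    Finset.min'_le_max' _ _⟩
  have hlo := Finset.min'_mem _ hb
  have hhi := Finset.max'_mem _ hb
  have hle := Finset.min'_le_max' _ hb
  set lo := (fibre A b).min' hb with hlodef
  set hi := (fibre A b).max' hb with hhidef
  have hF : fibre A b = Finset.Icc lo hi := by
    ext a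
    rw [Finset.mem_Icc]
    constructor
    · intro h
      exact ⟨Finset.min'_le _ _ h, Finset.le_max' _ _ h⟩
    · rintro ⟨h1, h2⟩
      rcases eq_or_lt_of_le hle with heq | hlt
      · have : a = lo := by omega
        rw [this]; exact hlo
      · rw [mem_fibre] at hlo hhi ⊢
        refine hc.seg _ hlo _ hhi (Fin.cons a b) (hi - a).toNat (a - lo).toNat ?_ ?_
        · omega
        · have e1 : (((hi - a).toNat : ℕ) : ℤ) = hi - a := Int.toNat_of_nonneg (by omega)
          have e2 : (((a - lo).toNat : ℕ) : ℤ) = a - lo := Int.toNat_of_nonneg (by omega)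
          rw [e1, e2]
          funext i
          refine Fin.cases ?_ (fun j => ?_) i
          · simp only [Pi.smul_apply, Pi.add_apply, Fin.cons_zero, smul_eq_mul]
            ring
          · simp only [Pi.smul_apply, Pi.add_apply, Fin.cons_succ, smul_eq_mul]
            ring
  have hcard : (fibre A b).card = (hi + 1 - lo).toNat := by rw [hF, Int.card_Icc]
  omega

/-- The matrix with rows `(x 0, c), (x 1, T 0), …`. -/
def bigM {n : ℕ} (T : Fin n → (Fin n → ℤ)) (c : Fin n → ℤ) (x : Fin (n + 1) → ℤ) :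
    Fin (n + 1) → (Fin (n + 1) → ℤ) :=
  fun k => Fin.cons (x k) ((Fin.cons c T : Fin (n + 1) → (Fin n → ℤ)) k)

/-- The minor of `(c, T)` omitting row `k`. -/
def minr {n : ℕ} (T : Fin n → (Fin n → ℤ)) (c : Fin n → ℤ) (k : Fin (n + 1)) : ℤ :=
  (Matrix.of (fun i : Fin n => (Fin.cons c T : Fin (n + 1) → (Fin n → ℤ)) (k.succAbove i))).det

theorem det_bigM {n : ℕ} (T : Fin n → (Fin n → ℤ)) (c : Fin n → ℤ) (x : Fin (n + 1) → ℤ) :
    (Matrix.of (bigM T c x)).det = ∑ k : Fin (n + 1), x k * ((-1) ^ (k : ℕ) * minr T c k) := by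
  rw [Matrix.det_succ_column_zero]
  refine Finset.sum_congr rfl (fun k _ => ?_)
  have h1 : (Matrix.of (bigM T c x)) k 0 = x k := by simp [bigM]
  have h2 : (Matrix.of (bigM T c x)).submatrix k.succAbove Fin.succ
      = Matrix.of (fun i : Fin n => (Fin.cons c T : Fin (n + 1) → (Fin n → ℤ)) (k.succAbove i)) := by
    ext i j
    simp [bigM]
  rw [h1, h2]
  unfold minr
  ring

theorem minr_zero {n : ℕ} (T : Fin n → (Fin n → ℤ)) (c : Fin n → ℤ) :
    minr T c 0 = (Matrix.of T).det := by
  unfold minr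
  congr 1

theorem abs_minr_succ {n : ℕ} (T : Fin n → (Fin n → ℤ)) (c : Fin n → ℤ) (i : Fin n) :
    |minr T c i.succ| = |(Matrix.of (Function.update T i c)).det| := by
  unfold minr
  rw [← Matrix.abs_det_submatrix_equiv_equiv (i.cycleRange) (Equiv.refl (Fin n))]
  congr 2
  ext j k
  simp only [Matrix.submatrix_apply, Matrix.of_apply, Equiv.refl_apply]
  rw [Fin.succAbove_cycleRange]
  by_cases hji : j = i
  · subst hji
    rw [Equiv.swap_apply_right, Function.update_self]
    simp
  · rw [Equiv.swap_apply_of_ne_of_ne (Fin.succ_ne_zero j) (fun h => hji (Fin.succ_injective _ h)),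
      Function.update_of_ne hji]
    simp

theorem fib {n : ℕ} (A : Finset (Fin (n + 1) → ℤ)) (D : ℕ) (hA : Bd A D) (hc : LatConv A)
    (hs : Spans A) :
    ∃ (B : Finset (Fin n → ℤ)) (l : (Fin n → ℤ) → ℕ),
      Cond B l D ∧ 0 ∈ B ∧ (∀ b ∈ B, -b ∈ B) ∧ (∀ b, l (-b) = l b) ∧ Spans B ∧
      A.card = B.card + ∑ b ∈ B, l b ∧
      ∀ t : ℕ, Fin.cons (t : ℤ) 0 ∈ A → ∀ T : Fin n → (Fin n → ℤ), (∀ i, T i ∈ B) →
        (t : ℤ) * |(Matrix.of T).det| ≤ D := by
  classical
  set B : Finset (Fin n → ℤ) := A.image Fin.tail with hB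
  have hlift : ∀ b ∈ B, (fibre A b).Nonempty := by
    intro b hb
    obtain ⟨x, hx, rfl⟩ := Finset.mem_image.1 hb
    exact ⟨x 0, mem_fibre.2 (by rw [Fin.cons_self_tail]; exact hx)⟩
  refine ⟨B, fun b => (fibre A b).card - 1, ?_, ?_, ?_, ?_, ?_, ?_, ?_⟩
  · -- Cond
    intro T hT c hcB
    set v : Fin (n + 1) → (Fin n → ℤ) := Fin.cons c T with hv
    have hvB : ∀ k, v k ∈ B := by
      intro k
      refine Fin.cases ?_ (fun j => ?_) k
      · simpa [hv] using hcB
      · simpa [hv] using hT j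
    choose lo hi hlo hhi hdiff hle using fun k => fibre_interval hc (v k) (hlift (v k) (hvB k))
    set e : Fin (n + 1) → ℤ := fun k => (-1) ^ (k : ℕ) * minr T c k with he
    set xp : Fin (n + 1) → ℤ := fun k => if 0 ≤ e k then hi k else lo k with hxp
    set xm : Fin (n + 1) → ℤ := fun k => if 0 ≤ e k then lo k else hi k with hxm
    have hmemp : ∀ k, bigM T c xp k ∈ A := by
      intro k
      have : xp k ∈ fibre A (v k) := by
        simp only [hxp]
        split_ifs
        · exact hhi k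
        · exact hlo k
      exact mem_fibre.1 this
    have hmemm : ∀ k, bigM T c xm k ∈ A := by
      intro k
      have : xm k ∈ fibre A (v k) := by
        simp only [hxm]
        split_ifs
        · exact hlo k
        · exact hhi k
      exact mem_fibre.1 this
    have hp := hA _ hmemp
    have hm := hA _ hmemm
    rw [det_bigM] at hp hm
    have hp' := (abs_le.1 hp).2
    have hm' := (abs_le.1 hm).1
    have hsum : (∑ k : Fin (n + 1), xp k * e k) - ∑ k : Fin (n + 1), xm k * e k
        = ∑ k : Fin (n + 1), |minr T c k| * (((fibre A (v k)).card - 1 : ℕ) : ℤ) := by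
      rw [← Finset.sum_sub_distrib]
      refine Finset.sum_congr rfl (fun k _ => ?_)
      have habs : |minr T c k| = |e k| := by
        simp only [he]
        rw [abs_mul, abs_pow, abs_neg, abs_one, one_pow, one_mul]
      rw [habs, ← hdiff k]
      simp only [hxp, hxm]
      split_ifs with h
      · rw [abs_of_nonneg h]; ring
      · rw [abs_of_neg (not_le.1 h)]; ring
    have hfin : ∑ k : Fin (n + 1), |minr T c k| * (((fibre A (v k)).card - 1 : ℕ) : ℤ)
        = |(Matrix.of T).det| * (((fibre A c).card - 1 : ℕ) : ℤ)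
          + ∑ i, |(Matrix.of (Function.update T i c)).det| * (((fibre A (T i)).card - 1 : ℕ) : ℤ) := by
      rw [Fin.sum_univ_succ, minr_zero]
      congr 1
      refine Finset.sum_congr rfl (fun i _ => ?_)
      rw [abs_minr_succ]
      simp [hv]
    have hgoal : |(Matrix.of T).det| * (((fibre A c).card - 1 : ℕ) : ℤ)
          + ∑ i, |(Matrix.of (Function.update T i c)).det| * (((fibre A (T i)).card - 1 : ℕ) : ℤ)
          ≤ 2 * (D : ℤ) := by
      rw [← hfin, ← hsum]
      linarith
    exact hgoal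
  · exact Finset.mem_image.2 ⟨0, hc.zero, by funext i; simp [Fin.tail]⟩
  · intro b hb
    obtain ⟨x, hx, rfl⟩ := Finset.mem_image.1 hb
    exact Finset.mem_image.2 ⟨-x, hc.neg x hx, by funext i; simp [Fin.tail]⟩
  · intro b
    simp only
    rw [fibre_neg hc, Finset.card_image_of_injective _ neg_injective]
  · obtain ⟨v, hvA, hv⟩ := hs
    rw [Matrix.det_succ_column_zero] at hv
    obtain ⟨k, _, hk⟩ := Finset.exists_ne_zero_of_sum_ne_zero hv
    have hk2 := right_ne_zero_of_mul hk
    refine ⟨fun i => Fin.tail (v (k.succAbove i)), fun i => Finset.mem_image.2 ⟨_, hvA _, rfl⟩, ?_⟩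
    exact hk2
  · rw [Finset.card_eq_sum_card_image Fin.tail A, Finset.card_eq_sum_ones, ← Finset.sum_add_distrib]
    refine Finset.sum_congr rfl (fun b hb => ?_)
    have h1 := card_fibre A b
    have h2 := Finset.card_pos.2 (hlift b hb)
    omega
  · intro t ht T hT
    choose x hx using fun i => hlift (T i) (hT i)
    have hrows : ∀ k, (Fin.cons (Fin.cons (t : ℤ) 0 : Fin (n + 1) → ℤ)
        (fun i => (Fin.cons (x i) (T i) : Fin (n + 1) → ℤ)) :
          Fin (n + 1) → (Fin (n + 1) → ℤ)) k ∈ A := by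
      intro k
      refine Fin.cases ?_ (fun j => ?_) k
      · simpa using ht
      · simpa using mem_fibre.1 (hx j)
    have hdet := hA _ hrows
    rw [Matrix.det_succ_row_zero, Fin.sum_univ_succ] at hdet
    have hz : ∑ i : Fin n, (-1 : ℤ) ^ ((i.succ : Fin (n + 1)) : ℕ) *
        (Matrix.of (Fin.cons (Fin.cons (t : ℤ) 0 : Fin (n + 1) → ℤ)
        (fun i => (Fin.cons (x i) (T i) : Fin (n + 1) → ℤ)) :
          Fin (n + 1) → (Fin (n + 1) → ℤ))) 0 i.succ *
        ((Matrix.of (Fin.cons (Fin.cons (t : ℤ) 0 : Fin (n + 1) → ℤ)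
        (fun i => (Fin.cons (x i) (T i) : Fin (n + 1) → ℤ)) :
          Fin (n + 1) → (Fin (n + 1) → ℤ))).submatrix Fin.succ (i.succ).succAbove).det = 0 := by
      apply Finset.sum_eq_zero
      intro i _
      simp
    rw [hz] at hdet
    have hsub : ((Matrix.of (Fin.cons (Fin.cons (t : ℤ) 0 : Fin (n + 1) → ℤ)
        (fun i => (Fin.cons (x i) (T i) : Fin (n + 1) → ℤ)) :
          Fin (n + 1) → (Fin (n + 1) → ℤ))).submatrix Fin.succ (0 : Fin (n + 1)).succAbove)
          = Matrix.of T := by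
      ext i j
      simp
    rw [hsub] at hdet
    simp only [Matrix.of_apply, Fin.cons_zero, Fin.val_zero, pow_zero, one_mul, add_zero] at hdet
    rw [abs_mul, Nat.abs_cast] at hdet
    exact hdet

end Pool.Agent.Work.MP_f22417_co
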