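import Pool.Agent.Work.MP_f22417_co.Defs

namespace Pool.Agent.Work.MP_f22417_co

open scoped BigOperators

/-- The real vector of an integer vector. -/
def toR {m : ℕ} (x : Fin m → ℤ) : Fin m → ℝ := fun i => (x i : ℝ)

theorem toR_inj {m : ℕ} : Function.Injective (toR (m := m)) := by
  intro x y h
  funext i
  have := congrFun h i
  simpa [toR] using this

/-- A bound on determinants extends to the convex hull. -/
theorem det_hull {m : ℕ} (K : Set (Fin m → ℝ)) (D : ℝ)
    (h : ∀ v : Fin m → (Fin m → ℝ), (∀ i, v i ∈ K) → |(Matrix.of v).det| ≤ D)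
    (v : Fin m → (Fin m → ℝ)) (hv : ∀ i, v i ∈ convexHull ℝ K) :
    |(Matrix.of v).det| ≤ D := by
  classical
  have key : ∀ s : Finset (Fin m), ∀ v : Fin m → (Fin m → ℝ),
      (∀ i ∈ s, v i ∈ convexHull ℝ K) → (∀ i, i ∉ s → v i ∈ K) → |(Matrix.of v).det| ≤ D := by
    intro s
    induction s using Finset.induction_on with
    | empty =>
      intro v _ h2
      exact h v (fun i => h2 i (Finset.notMem_empty i))
    | insert a s ha ih =>
      intro v h1 h2
      have hconv : Convex ℝ {w : Fin m → ℝ | |(Matrix.of (Function.update v a w)).det| ≤ D} := by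
        intro x hx y hy p q hp hq hpq
        simp only [Set.mem_ofPred_eq] at hx hy ⊢
        have e : (Matrix.of (Function.update v a (p • x + q • y))).det
            = p * (Matrix.of (Function.update v a x)).det
              + q * (Matrix.of (Function.update v a y)).det := by
          have e1 := Matrix.det_updateRow_add (Matrix.of v) a (p • x) (q • y)
          have e2 := Matrix.det_updateRow_smul (Matrix.of v) a p x
          have e3 := Matrix.det_updateRow_smul (Matrix.of v) a q y
          have e4 : ∀ w, (Matrix.of v).updateRow a w = Matrix.of (Function.update v a w) :=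
            fun w => rfl
          rw [e4, e4, e4] at e1
          rw [e4, e4] at e2 e3
          rw [e1, e2, e3]
        rw [e]
        calc |p * (Matrix.of (Function.update v a x)).det
              + q * (Matrix.of (Function.update v a y)).det|
            ≤ |p * (Matrix.of (Function.update v a x)).det|
              + |q * (Matrix.of (Function.update v a y)).det| := abs_add_le _ _
          _ = p * |(Matrix.of (Function.update v a x)).det|
              + q * |(Matrix.of (Function.update v a y)).det| := by
            rw [abs_mul, abs_mul, abs_of_nonneg hp, abs_of_nonneg hq]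
          _ ≤ p * D + q * D :=
            add_le_add (mul_le_mul_of_nonneg_left hx hp) (mul_le_mul_of_nonneg_left hy hq)
          _ = D := by rw [← add_mul, hpq, one_mul]
      have hK : K ⊆ {w : Fin m → ℝ | |(Matrix.of (Function.update v a w)).det| ≤ D} := by
        intro w hw
        simp only [Set.mem_ofPred_eq]
        apply ih
        · intro i hi
          have hia : i ≠ a := fun h => ha (h ▸ hi)
          rw [Function.update_of_ne hia]
          exact h1 i (Finset.mem_insert_of_mem hi)
        · intro i hi
          by_cases hia : i = a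
          · subst hia
            rw [Function.update_self]
            exact hw
          · rw [Function.update_of_ne hia]
            exact h2 i (by simp [hia, hi])
      have h3 := convexHull_min hK hconv (h1 a (Finset.mem_insert_self a s))
      simp only [Set.mem_ofPred_eq, Function.update_eq_self] at h3
      exact h3
  exact key Finset.univ v (fun i _ => hv i) (fun i hi => absurd (Finset.mem_univ i) hi)

theorem det_toR {m : ℕ} (v : Fin m → (Fin m → ℤ)) :
    (Matrix.of (fun i => toR (v i))).det = ((Matrix.of v).det : ℝ) := by
  have : (Matrix.of (fun i => toR (v i))) = (Matrix.of v).map (Int.castRingHom ℝ) := by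
    ext i j
    simp [toR]
  rw [this, ← RingHom.mapMatrix_apply, ← RingHom.map_det]
  simp

/-- Integer version: bounds on integer determinants extend to integer points of the hull. -/
theorem det_hull_int {m : ℕ} (K : Set (Fin m → ℤ)) (D : ℤ)
    (h : ∀ v : Fin m → (Fin m → ℤ), (∀ i, v i ∈ K) → |(Matrix.of v).det| ≤ D)
    (v : Fin m → (Fin m → ℤ)) (hv : ∀ i, toR (v i) ∈ convexHull ℝ (toR '' K)) :
    |(Matrix.of v).det| ≤ D := by
  have := det_hull (toR '' K) (D : ℝ) ?_ (fun i => toR (v i)) hv
  · rw [det_toR] at this
    exact_mod_cast this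
  · intro u hu
    choose w hw using hu
    have e : u = fun i => toR (w i) := by
      funext i
      exact (hw i).2.symm
    rw [e, det_toR]
    exact_mod_cast h w (fun i => (hw i).1)

/-- Symmetrisation. -/
theorem det_sym {m : ℕ} (S : Finset (Fin m → ℤ)) (D : ℕ) (hS : Bd S D)
    (v : Fin m → (Fin m → ℤ))
    (hv : ∀ i, v i ∈ S ∨ -(v i) ∈ S ∨ v i = 0) : |(Matrix.of v).det| ≤ (D : ℤ) := by
  by_cases h0 : ∃ i, v i = 0
  · obtain ⟨i, hi⟩ := h0
    rw [Matrix.det_eq_zero_of_row_eq_zero i (fun j => by simp [hi])]
    simp
  · push Not at h0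
    have hv' : ∀ i, ∃ (e : ℤ) (s : Fin m → ℤ), |e| = 1 ∧ s ∈ S ∧ ∀ j, v i j = e * s j := by
      intro i
      rcases hv i with h | h | h
      · exact ⟨1, v i, by simp, h, by simp⟩
      · exact ⟨-1, -(v i), by simp, h, by simp⟩
      · exact absurd h (h0 i)
    choose e s he hs hes using hv'
    have : (Matrix.of v) = Matrix.of (fun i j => e i * (Matrix.of s) i j) := by
      ext i j
      simp [hes]
    rw [this, Matrix.det_mul_column, abs_mul, Finset.abs_prod]
    simp only [he, Finset.prod_const_one, one_mul]
    exact hS s hs

theorem hull {m : ℕ} (S : Finset (Fin m → ℤ)) (D : ℕ) (hS : Bd S D) :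
    ∃ A : Finset (Fin m → ℤ), S ⊆ A ∧ Bd A D ∧ LatConv A := by
  classical
  obtain ⟨M, hM⟩ : ∃ M : ℕ, ∀ s ∈ S, ∀ i, |s i| ≤ (M : ℤ) := by
    refine ⟨∑ s ∈ S, ∑ i, (s i).natAbs, ?_⟩
    intro s hs i
    have h1 : (s i).natAbs ≤ ∑ i, (s i).natAbs :=
      Finset.single_le_sum (f := fun i => (s i).natAbs) (fun _ _ => Nat.zero_le _)
        (Finset.mem_univ i)
    have h2 : ∑ i, (s i).natAbs ≤ ∑ s ∈ S, ∑ i, (s i).natAbs :=
      Finset.single_le_sum (f := fun s : Fin m → ℤ => ∑ i, (s i).natAbs)
        (fun _ _ => Nat.zero_le _) hs
    rw [Int.abs_eq_natAbs]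
    exact_mod_cast h1.trans h2
  set K : Set (Fin m → ℤ) := {x | x ∈ S ∨ -x ∈ S ∨ x = 0} with hK
  have hKbox : convexHull ℝ (toR '' K) ⊆ {x : Fin m → ℝ | ∀ i, x i ∈ Set.Icc (-(M : ℝ)) M} := by
    apply convexHull_min
    · rintro _ ⟨x, hx, rfl⟩ i
      have hx' : |x i| ≤ (M : ℤ) := by
        rcases hx with h | h | h
        · exact hM x h i
        · have := hM (-x) h i
          simpa using this
        · rw [h]
          simp
      have h3 := abs_le.1 hx'
      constructor
      · simp only [toR]
        exact_mod_cast h3.1
      · simp only [toR]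
        exact_mod_cast h3.2
    · have : {x : Fin m → ℝ | ∀ i, x i ∈ Set.Icc (-(M : ℝ)) M}
          = Set.pi Set.univ (fun _ => Set.Icc (-(M : ℝ)) M) := by
        ext x
        simp only [Set.mem_ofPred_eq, Set.mem_pi, Set.mem_univ, forall_true_left]
      rw [this]
      exact convex_pi (fun i _ => convex_Icc _ _)
  refine ⟨(Fintype.piFinset (fun _ : Fin m => Finset.Icc (-(M : ℤ)) M)).filter
    (fun z => toR z ∈ convexHull ℝ (toR '' K)), ?_, ?_, ?_⟩
  · intro s hs
    rw [Finset.mem_filter, Fintype.mem_piFinset]
    refine ⟨fun i => ?_, ?_⟩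
    · rw [Finset.mem_Icc]
      exact abs_le.1 (hM s hs i)
    · exact subset_convexHull ℝ _ ⟨s, Or.inl hs, rfl⟩
  · intro v hv
    apply det_hull_int K D
    · intro u hu
      exact det_sym S D hS u hu
    · intro i
      exact (Finset.mem_filter.1 (hv i)).2
  · have memA : ∀ z : Fin m → ℤ, toR z ∈ convexHull ℝ (toR '' K) →
        z ∈ (Fintype.piFinset (fun _ : Fin m => Finset.Icc (-(M : ℤ)) M)).filter
          (fun z => toR z ∈ convexHull ℝ (toR '' K)) := by
      intro z hz
      rw [Finset.mem_filter, Fintype.mem_piFinset]
      refine ⟨fun i => ?_, hz⟩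
      have h := hKbox hz i
      rw [Finset.mem_Icc]
      simp only [toR, Set.mem_Icc] at h
      exact_mod_cast h
    refine ⟨?_, ?_, ?_⟩
    · apply memA
      exact subset_convexHull ℝ _ ⟨0, Or.inr (Or.inr rfl), rfl⟩
    · intro x hx
      apply memA
      have hx' := (Finset.mem_filter.1 hx).2
      have hsym : -(toR '' K) = toR '' K := by
        ext y
        constructor
        · rintro ⟨z, hz, hzy⟩
          refine ⟨-z, ?_, ?_⟩
          · rcases hz with h | h | h
            · exact Or.inr (Or.inl (by simpa using h))
            · exact Or.inl h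
            · exact Or.inr (Or.inr (by rw [h]; simp))
          · have : y = - toR z := by rw [hzy]; simp
            rw [this]
            funext i
            simp [toR]
        · rintro ⟨z, hz, rfl⟩
          refine ⟨-z, ?_, ?_⟩
          · rcases hz with h | h | h
            · exact Or.inr (Or.inl (by simpa using h))
            · exact Or.inl h
            · exact Or.inr (Or.inr (by rw [h]; simp))
          · funext i
            simp [toR]
      have h2 : -(toR x) ∈ -(convexHull ℝ (toR '' K)) := by simpa using hx'
      rw [← convexHull_neg, hsym] at h2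
      have h3 : toR (-x) = -(toR x) := by
        funext i
        simp [toR]
      rw [h3]
      exact h2
    · intro x hx y hy z p q hpq hz
      apply memA
      have hx' := (Finset.mem_filter.1 hx).2
      have hy' := (Finset.mem_filter.1 hy).2
      have hpq' : (0 : ℝ) < (p : ℝ) + q := by exact_mod_cast hpq
      have h := (convex_convexHull ℝ (toR '' K)) hx' hy'
        (a := (p : ℝ) / (p + q)) (b := (q : ℝ) / (p + q)) (by positivity) (by positivity)
        (by rw [← add_div, div_self hpq'.ne'])
      convert h using 1
      funext i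
      have hi := congrFun hz i
      simp only [Pi.smul_apply, Pi.add_apply, smul_eq_mul] at hi
      have hi' : ((p : ℝ) + q) * (z i : ℝ) = p * (x i : ℝ) + q * (y i : ℝ) := by
        exact_mod_cast hi
      simp only [toR, Pi.smul_apply, Pi.add_apply, smul_eq_mul]
      field_simp
      linarith

end Pool.Agent.Work.MP_f22417_co
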