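import Pool.Agent.Work.MP_f22417_co.HULL

namespace Pool.Agent.Work.MP_f22417_co

open scoped BigOperators

/-- Every subset sum is in `[-1, 1]`: at most one entry `1`, at most one entry `-1`, the other
entries are `0`. -/
def R0 {n : ℕ} (r : Fin n → ℤ) : Prop := ∀ s : Finset (Fin n), |∑ j ∈ s, r j| ≤ 1

theorem R0.neg {n : ℕ} {r : Fin n → ℤ} (h : R0 r) : R0 (-r) := by
  intro s
  have := h s
  simpa [Finset.sum_neg_distrib] using this

theorem R0.zero {n : ℕ} : R0 (0 : Fin n → ℤ) := by
  intro s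
  simp

theorem R0.single {n : ℕ} (i : Fin n) : R0 (Pi.single i 1 : Fin n → ℤ) := by
  intro s
  rw [Finset.sum_pi_single']
  split_ifs <;> simp

theorem R0.sub {n : ℕ} (i j : Fin n) : R0 (Pi.single i 1 - Pi.single j 1 : Fin n → ℤ) := by
  intro s
  simp only [Pi.sub_apply, Finset.sum_sub_distrib]
  rw [Finset.sum_pi_single', Finset.sum_pi_single']
  split_ifs <;> simp

theorem R0.comp {n k : ℕ} {r : Fin n → ℤ} (h : R0 r) (σ : Fin k ↪ Fin n) :
    R0 (fun i => r (σ i)) := by
  intro s
  have := h (s.map σ)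
  rwa [Finset.sum_map] at this

theorem R0.eq_single_pos {n : ℕ} {r : Fin n → ℤ} (h : R0 r) (ht : ∑ j, r j = 1) :
    ∃ j, r j = 1 ∧ ∀ k, k ≠ j → r k = 0 := by
  classical
  obtain ⟨j, hj⟩ : ∃ j, 0 < r j := by
    by_contra hcon
    push Not at hcon
    have : ∑ j, r j ≤ 0 := Finset.sum_nonpos (fun j _ => hcon j)
    omega
  have h1 : |r j| ≤ 1 := by simpa using h {j}
  have hj1 : r j = 1 := by
    have := abs_le.1 h1
    omega
  refine ⟨j, hj1, ?_⟩
  intro k hk
  have h2 : |r j + r k| ≤ 1 := by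
    have := h {j, k}
    rwa [Finset.sum_pair (Ne.symm hk)] at this
  have h3 : |∑ i ∈ Finset.univ.erase k, r i| ≤ 1 := h _
  have h4 : r k + ∑ i ∈ Finset.univ.erase k, r i = 1 := by
    rw [Finset.add_sum_erase _ _ (Finset.mem_univ k), ht]
  have a2 := abs_le.1 h2
  have a3 := abs_le.1 h3
  omega

theorem R0.eq_single {n : ℕ} {r : Fin n → ℤ} (h : R0 r) (ht : ∑ j, r j ≠ 0) :
    ∃ j, |r j| = 1 ∧ ∀ k, k ≠ j → r k = 0 := by
  have h1 : |∑ j, r j| ≤ 1 := h Finset.univ
  have h2 := abs_le.1 h1
  rcases (by omega : ∑ j, r j = 1 ∨ ∑ j, r j = -1) with h3 | h3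
  · obtain ⟨j, hj, hk⟩ := h.eq_single_pos h3
    exact ⟨j, by rw [hj]; simp, hk⟩
  · obtain ⟨j, hj, hk⟩ := h.neg.eq_single_pos (by simp [Finset.sum_neg_distrib, h3])
    refine ⟨j, ?_, fun k hkj => ?_⟩
    · simp only [Pi.neg_apply] at hj
      rw [← abs_neg, hj]
      simp
    · have := hk k hkj
      simpa using this

/-- Matrices with rows as above have determinant `0` or `±1`. -/
theorem det_R0 : ∀ (n : ℕ) (M : Matrix (Fin n) (Fin n) ℤ), (∀ i, R0 (M i)) → |M.det| ≤ 1 := by
  intro n
  induction n with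
  | zero =>
    intro M _
    simp
  | succ n ih =>
    intro M hM
    by_cases hs : ∀ i, ∑ j, M i j = 0
    · have h0 : M.det = 0 := by
        rw [← Matrix.exists_mulVec_eq_zero_iff]
        refine ⟨fun _ => 1, ?_, ?_⟩
        · intro h
          have := congrFun h 0
          simp at this
        · funext i
          simp only [Matrix.mulVec, dotProduct, mul_one, Pi.zero_apply]
          exact hs i
      rw [h0]
      simp
    · push Not at hs
      obtain ⟨i, hi⟩ := hs
      obtain ⟨j, hj, hk⟩ := (hM i).eq_single hi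
      rw [Matrix.det_succ_row M i]
      rw [Finset.sum_eq_single j]
      · rw [abs_mul, abs_mul, abs_pow, hj, abs_neg, abs_one, one_pow, one_mul, one_mul]
        apply ih
        intro k
        exact (hM (i.succAbove k)).comp (Fin.succAboveEmb j)
      · intro k _ hkj
        rw [hk k hkj]
        simp
      · intro h
        exact absurd (Finset.mem_univ j) h

/-- Scaling of the first coordinate. -/
def scl (n D : ℕ) : Fin (n + 1) → ℤ := Fin.cons (D : ℤ) (fun _ => 1)

/-- The extreme columns. -/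
def V0 (n D : ℕ) : Set (Fin (n + 1) → ℤ) :=
  {x | ∃ r : Fin (n + 1) → ℤ, R0 r ∧ x = fun j => scl n D j * r j}

theorem det_V0 (n D : ℕ) (v : Fin (n + 1) → (Fin (n + 1) → ℤ)) (hv : ∀ i, v i ∈ V0 n D) :
    |(Matrix.of v).det| ≤ (D : ℤ) := by
  choose r hr hvr using hv
  have h1 : Matrix.of v = Matrix.of (fun i j => scl n D j * (Matrix.of r) i j) := by
    ext i j
    simp [hvr]
  rw [h1, Matrix.det_mul_row, abs_mul]
  have h2 : ∏ j, scl n D j = (D : ℤ) := by
    rw [Fin.prod_univ_succ]
    simp [scl]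
  rw [h2, Nat.abs_cast]
  have h3 : |(Matrix.of r).det| ≤ 1 := det_R0 (n + 1) (Matrix.of r) hr
  have h4 : (0 : ℤ) ≤ D := Int.natCast_nonneg D
  nlinarith

/-- The index type of the columns. -/
abbrev Idx (n D : ℕ) : Type :=
  Fin (2 * D + 1) ⊕ (Fin n × Fin (D + 1)) ⊕ (Fin n × Fin (D + 1)) ⊕
    {p : Fin n × Fin n // p ∈ (Finset.univ : Finset (Fin n)).offDiag}

/-- The columns. -/
def colm (n D : ℕ) : Idx n D → (Fin (n + 1) → ℤ)
  | Sum.inl k => Fin.cons ((k : ℤ) - D) 0
  | Sum.inr (Sum.inl (i, k)) => Fin.cons (-(k : ℤ)) (Pi.single i 1)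
  | Sum.inr (Sum.inr (Sum.inl (i, k))) => Fin.cons (k : ℤ) (-Pi.single i 1)
  | Sum.inr (Sum.inr (Sum.inr p)) => Fin.cons 0 (Pi.single p.1.1 1 - Pi.single p.1.2 1)

theorem card_Idx (n D : ℕ) (hD : 0 < D) :
    Fintype.card (Idx n D) = (n + 1) ^ 2 + (n + 1) + 1 + 2 * (n + 1) * (D - 1) := by
  obtain ⟨d, rfl⟩ : ∃ d, D = d + 1 := ⟨D - 1, by omega⟩
  simp only [Idx, Fintype.card_sum, Fintype.card_prod, Fintype.card_fin, Fintype.card_coe,
    Finset.offDiag_card, Finset.card_univ, Nat.add_sub_cancel]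
  have h : n * n - n + n = n * n := Nat.sub_add_cancel (Nat.le_mul_self n)
  nlinarith

theorem colm_inj (n D : ℕ) : Function.Injective (colm n D) := by
  classical
  have htail : ∀ (a b : ℤ) (x y : Fin n → ℤ),
      (Fin.cons a x : Fin (n + 1) → ℤ) = Fin.cons b y → a = b ∧ x = y := by
    intro a b x y h
    exact Fin.cons_inj.1 h
  have hs : ∀ i : Fin n, ∑ j, (Pi.single i 1 : Fin n → ℤ) j = 1 := by
    intro i
    simp
  have hsub : ∀ i j : Fin n, ∑ k, (Pi.single i 1 - Pi.single j 1 : Fin n → ℤ) k = 0 := by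
    intro i j
    simp only [Pi.sub_apply, Finset.sum_sub_distrib, hs, sub_self]
  have hneg : ∀ i : Fin n, ∑ j, (-Pi.single i 1 : Fin n → ℤ) j = -1 := by
    intro i
    simp only [Pi.neg_apply, Finset.sum_neg_distrib, hs]
  have hsum : ∀ x y : Fin n → ℤ, x = y → ∑ j, x j = ∑ j, y j := fun x y h => by rw [h]
  have hsing : ∀ i j : Fin n, (Pi.single i 1 : Fin n → ℤ) = Pi.single j 1 → i = j := by
    intro i j h
    have := congrFun h i
    by_contra hne
    simp [Pi.single_apply, hne] at this
  rintro (k | ⟨i, k⟩ | ⟨i, k⟩ | ⟨⟨i, j⟩, hij⟩) (k' | ⟨i', k'⟩ | ⟨i', k'⟩ | ⟨⟨i', j'⟩, hij'⟩) h <;>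
    simp only [colm] at h <;> obtain ⟨h1, h2⟩ := htail _ _ _ _ h
  · congr 1
    apply Fin.ext
    omega
  · have := hsum _ _ h2
    rw [hs] at this
    simp at this
  · have := hsum _ _ h2
    rw [hneg] at this
    simp at this
  · have hne : i' ≠ j' := by simpa using hij'
    have := congrFun h2 i'
    simp [Pi.single_apply, hne] at this
  · have := hsum _ _ h2
    rw [hs] at this
    simp at this
  · have hii := hsing _ _ h2
    subst hii
    have : k = k' := by
      apply Fin.ext
      omega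
    rw [this]
  · have := hsum _ _ h2
    rw [hs, hneg] at this
    norm_num at this
  · have := hsum _ _ h2
    rw [hs, hsub] at this
    norm_num at this
  · have := hsum _ _ h2
    rw [hneg] at this
    simp at this
  · have := hsum _ _ h2
    rw [hs, hneg] at this
    norm_num at this
  · have hii := hsing _ _ (neg_injective h2)
    subst hii
    have : k = k' := by
      apply Fin.ext
      omega
    rw [this]
  · have := hsum _ _ h2
    rw [hneg, hsub] at this
    norm_num at this
  · have hne : i ≠ j := by simpa using hij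
    have := congrFun h2 i
    simp [Pi.single_apply, hne] at this
  · have := hsum _ _ h2
    rw [hs, hsub] at this
    norm_num at this
  · have := hsum _ _ h2
    rw [hneg, hsub] at this
    norm_num at this
  · have hne : i ≠ j := by simpa using hij
    have hne' : i' ≠ j' := by simpa using hij'
    have hi := congrFun h2 i
    have hj := congrFun h2 j
    have e1 : i = i' := by
      by_contra hc
      simp only [Pi.sub_apply, Pi.single_apply, if_neg hne, if_neg hc, if_true] at hi
      split_ifs at hi <;> omega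
    have e2 : j = j' := by
      by_contra hc
      simp only [Pi.sub_apply, Pi.single_apply, if_neg hne.symm, if_neg hc, if_true] at hj
      split_ifs at hj <;> omega
    subst e1
    subst e2
    rfl

theorem toR_V0 (n D : ℕ) (r : Fin (n + 1) → ℤ) (hr : R0 r) :
    toR (fun j => scl n D j * r j) ∈ toR '' (V0 n D) := ⟨_, ⟨r, hr, rfl⟩, rfl⟩

theorem colm_mem (n D : ℕ) (hD : 0 < D) (x : Idx n D) :
    toR (colm n D x) ∈ convexHull ℝ (toR '' (V0 n D)) := by
  classical
  have hD' : (0 : ℝ) < D := by exact_mod_cast hD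
  have sub := subset_convexHull ℝ (toR '' (V0 n D))
  have conv := convex_convexHull ℝ (toR '' (V0 n D))
  rcases x with k | ⟨i, k⟩ | ⟨i, k⟩ | ⟨⟨i, j⟩, hij⟩
  · have m1 := sub (toR_V0 n D _ (R0.single (0 : Fin (n + 1))))
    have m2 := sub (toR_V0 n D _ (R0.single (0 : Fin (n + 1))).neg)
    have hk : ((k : ℕ) : ℝ) ≤ 2 * D := by
      have : (k : ℕ) ≤ 2 * D := by omega
      exact_mod_cast this
    have h := conv m1 m2 (a := ((k : ℕ) : ℝ) / (2 * D)) (b := 1 - ((k : ℕ) : ℝ) / (2 * D))
      (by positivity) (by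
        rw [sub_nonneg, div_le_one (by positivity)]
        exact hk) (by ring)
    convert h using 1
    funext l
    refine Fin.cases ?_ (fun l => ?_) l
    · simp [toR, colm, scl]
      field_simp
      ring
    · simp [toR, colm, scl]
  · have m1 := sub (toR_V0 n D _ (R0.sub i.succ (0 : Fin (n + 1))))
    have m2 := sub (toR_V0 n D _ (R0.single i.succ))
    have hk : ((k : ℕ) : ℝ) ≤ D := by
      have : (k : ℕ) ≤ D := by omega
      exact_mod_cast this
    have h := conv m1 m2 (a := ((k : ℕ) : ℝ) / D) (b := 1 - ((k : ℕ) : ℝ) / D)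
      (by positivity) (by
        rw [sub_nonneg, div_le_one (by positivity)]
        exact hk) (by ring)
    convert h using 1
    funext l
    refine Fin.cases ?_ (fun l => ?_) l
    · have h1 : (Pi.single i.succ (1 : ℤ) : Fin (n + 1) → ℤ) 0 = 0 := by
        simp [Pi.single_apply, (Fin.succ_ne_zero i).symm]
      simp [toR, colm, scl, h1]
      field_simp
    · have h1 : (Pi.single i.succ (1 : ℤ) : Fin (n + 1) → ℤ) l.succ
          = (Pi.single i (1 : ℤ) : Fin n → ℤ) l := by
        simp [Pi.single_apply, Fin.succ_inj]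
      simp [toR, colm, scl, h1]
      try ring
  · have m1 := sub (toR_V0 n D _ (R0.sub (0 : Fin (n + 1)) i.succ))
    have m2 := sub (toR_V0 n D _ (R0.single i.succ).neg)
    have hk : ((k : ℕ) : ℝ) ≤ D := by
      have : (k : ℕ) ≤ D := by omega
      exact_mod_cast this
    have h := conv m1 m2 (a := ((k : ℕ) : ℝ) / D) (b := 1 - ((k : ℕ) : ℝ) / D)
      (by positivity) (by
        rw [sub_nonneg, div_le_one (by positivity)]
        exact hk) (by ring)
    convert h using 1
    funext l
    refine Fin.cases ?_ (fun l => ?_) l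
    · have h1 : (Pi.single i.succ (1 : ℤ) : Fin (n + 1) → ℤ) 0 = 0 := by
        simp [Pi.single_apply, (Fin.succ_ne_zero i).symm]
      simp [toR, colm, scl, h1]
      field_simp
    · have h1 : (Pi.single i.succ (1 : ℤ) : Fin (n + 1) → ℤ) l.succ
          = (Pi.single i (1 : ℤ) : Fin n → ℤ) l := by
        simp [Pi.single_apply, Fin.succ_inj]
      simp [toR, colm, scl, h1]
      try ring
  · have m1 := sub (toR_V0 n D _ (R0.sub i.succ j.succ))
    convert m1 using 1
    funext l
    refine Fin.cases ?_ (fun l => ?_) l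
    · have h1 : ∀ i : Fin n, (Pi.single i.succ (1 : ℤ) : Fin (n + 1) → ℤ) 0 = 0 := by
        intro i
        simp [Pi.single_apply, (Fin.succ_ne_zero i).symm]
      simp [toR, colm, scl, h1]
    · have h1 : ∀ i : Fin n, (Pi.single i.succ (1 : ℤ) : Fin (n + 1) → ℤ) l.succ
          = (Pi.single i (1 : ℤ) : Fin n → ℤ) l := by
        intro i
        simp [Pi.single_apply, Fin.succ_inj]
      simp [toR, colm, scl, h1]

theorem lower (m D : ℕ) (hm : 0 < m) (hD : 0 < D) :
    ∃ A : Matrix (Fin m) (Fin (m ^ 2 + m + 1 + 2 * m * (D - 1))) ℤ,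
      (∀ i j, (∀ k, A k i = A k j) → i = j) ∧
      (∀ s : Fin m → Fin (m ^ 2 + m + 1 + 2 * m * (D - 1)), |(A.submatrix id s).det| ≤ (D : ℤ)) ∧
      ∃ s : Fin m → Fin (m ^ 2 + m + 1 + 2 * m * (D - 1)), |(A.submatrix id s).det| = (D : ℤ) := by
  classical
  obtain ⟨n, rfl⟩ : ∃ n, m = n + 1 := ⟨m - 1, by omega⟩
  have e : Fin ((n + 1) ^ 2 + (n + 1) + 1 + 2 * (n + 1) * (D - 1)) ≃ Idx n D :=
    (Fintype.equivFinOfCardEq (card_Idx n D hD)).symm
  refine ⟨Matrix.of (fun k j => colm n D (e j) k), ?_, ?_, ?_⟩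
  · intro i j h
    apply e.injective
    apply colm_inj n D
    funext k
    exact h k
  · intro s
    rw [← Matrix.det_transpose]
    have : ((Matrix.of (fun k j => colm n D (e j) k)).submatrix id s).transpose
        = Matrix.of (fun i => colm n D (e (s i))) := by
      ext i j
      simp
    rw [this]
    exact det_hull_int (V0 n D) D (det_V0 n D) _ (fun i => colm_mem n D hD _)
  · let t : Fin (n + 1) → Idx n D :=
      Fin.cons (Sum.inl ⟨2 * D, by omega⟩) (fun i => Sum.inr (Sum.inl (i, 0)))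
    refine ⟨fun i => e.symm (t i), ?_⟩
    have : ((Matrix.of (fun k j => colm n D (e j) k)).submatrix id (fun i => e.symm (t i)))
        = Matrix.diagonal (scl n D) := by
      ext i j
      simp only [Matrix.submatrix_apply, Matrix.of_apply, Equiv.apply_symm_apply, id]
      refine Fin.cases ?_ (fun j => ?_) j
      · refine Fin.cases ?_ (fun i => ?_) i
        · simp [t, colm, scl]
          ring
        · rw [Matrix.diagonal_apply_ne _ (Fin.succ_ne_zero i)]
          simp [t, colm]
      · refine Fin.cases ?_ (fun i => ?_) i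
        · rw [Matrix.diagonal_apply_ne _ (Fin.succ_ne_zero j).symm]
          simp [t, colm]
        · simp [t, colm, Matrix.diagonal_apply, Pi.single_apply, Fin.succ_inj, scl]
    rw [this, Matrix.det_diagonal, Fin.prod_univ_succ]
    simp [scl]

end Pool.Agent.Work.MP_f22417_co
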