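import Pool.Agent.Work.MP_f22417_co.Defs

namespace Pool.Agent.Work.MP_f22417_co

/-- Counting modulo `2 (t + 1)`. -/
theorem modt {m : ℕ} (A : Finset (Fin m → ℤ)) (hc : LatConv A) (t : ℕ)
    (ht : ∀ w : Fin m → ℤ, w ≠ 0 → ((t : ℤ) + 1) • w ∉ A) :
    A.card ≤ (2 * (t + 1)) ^ m := by
  classical
  have : NeZero (2 * (t + 1)) := ⟨by omega⟩
  have hinj : Set.InjOn (fun x : Fin m → ℤ => (fun i => ((x i : ℤ) : ZMod (2 * (t + 1)))))
      (A : Set (Fin m → ℤ)) := by
    intro x hx y hy hxy
    have hd : ∀ i, ∃ w : ℤ, x i - y i = ((2 * (t + 1) : ℕ) : ℤ) * w := by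
      intro i
      have h := congrFun hxy i
      have h2 := (ZMod.intCast_eq_intCast_iff_dvd_sub (x i) (y i) (2 * (t + 1))).1 h
      obtain ⟨w, hw⟩ := h2
      exact ⟨-w, by rw [mul_neg, ← hw]; ring⟩
    choose w hw using hd
    have hz : ((t : ℤ) + 1) • w ∈ A := by
      refine hc.seg x hx (-y) (hc.neg y hy) _ 1 1 (by norm_num) ?_
      funext i
      have := hw i
      push_cast at this
      simp only [Pi.smul_apply, Pi.add_apply, Pi.neg_apply, smul_eq_mul]
      push_cast
      linarith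
    by_cases h0 : w = 0
    · funext i
      have := hw i
      rw [h0] at this
      simp at this
      linarith
    · exact absurd hz (ht w h0)
  have h := Finset.card_le_card_of_injOn
    (fun x : Fin m → ℤ => (fun i => ((x i : ℤ) : ZMod (2 * (t + 1)))))
    (t := (Finset.univ : Finset (Fin m → ZMod (2 * (t + 1))))) (fun _ _ => Finset.mem_univ _) hinj
  simpa [Finset.card_univ, Fintype.card_fun, ZMod.card] using h

end Pool.Agent.Work.MP_f22417_co
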