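import Pool.Agent.Work.MP_f22417_co.Defs

/-!
# MP_f22417_co, module BAS: a basis of the span and its dual system
-/

namespace Pool.Agent.Work.MP_f22417_co

open scoped BigOperators

theorem bas_dot {n : ℕ} (b : Fin n → ℤ) (x : Fin n → ℝ) :
    dot b x = (fun i => (b i : ℝ)) ⬝ᵥ x := rfl

theorem bas {n : ℕ} (N : Finset (Fin n → ℤ)) :
    ∃ (T : Fin (rk N) → (Fin n → ℤ)) (U : Fin (rk N) → (Fin n → ℝ)), (∀ i, T i ∈ N) ∧
      (∀ i j, dot (T i) (U j) = if i = j then 1 else 0) ∧
      (∀ b ∈ N, ∀ x : Fin n → ℝ, (∀ i, dot (T i) x = 0) → dot b x = 0) := by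
  classical
  obtain ⟨s, hsub, hspan, hli⟩ := exists_linearIndependent ℝ
    ((fun b : Fin n → ℤ => (fun i => (b i : ℝ))) '' (N : Set (Fin n → ℤ)))
  have hfin : s.Finite := (N.finite_toSet.image _).subset hsub
  have := hfin.fintype
  have hcard : Fintype.card s = rk N := by
    unfold rk rspan
    rw [← hspan]
    have h0 := finrank_span_eq_card hli
    rw [Subtype.range_coe] at h0
    exact h0.symm
  let φ : Fin (rk N) ≃ s := (Fintype.equivFinOfCardEq hcard).symm
  have hT : ∀ i, ∃ b ∈ N, (fun j => ((b : Fin n → ℤ) j : ℝ)) = (φ i : Fin n → ℝ) := by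
    intro i
    obtain ⟨b, hb, hb'⟩ := hsub (φ i).2
    exact ⟨b, hb, hb'⟩
  choose T hTN hTφ using hT
  have hli' : LinearIndependent ℝ (fun i : Fin (rk N) => (fun j => (T i j : ℝ))) := by
    have h1 := hli.comp φ φ.injective
    have h2 : (fun i : Fin (rk N) => (fun j => (T i j : ℝ))) = (Subtype.val ∘ φ : Fin (rk N) → (Fin n → ℝ)) := by
      funext i
      exact hTφ i
    rw [h2]
    exact h1
  let M : Matrix (Fin (rk N)) (Fin n) ℝ := Matrix.of (fun i j => (T i j : ℝ))
  have hrank : M.rank = rk N := by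
    have := LinearIndependent.rank_matrix (M := M) hli'
    simpa using this
  have htop : LinearMap.range M.mulVecLin = ⊤ := by
    apply Submodule.eq_top_of_finrank_eq
    rw [← Matrix.rank, hrank]
    simp
  have hsurj : Function.Surjective M.mulVecLin := LinearMap.range_eq_top.1 htop
  choose U hU using fun j : Fin (rk N) => hsurj (Pi.single j (1 : ℝ))
  refine ⟨T, U, hTN, ?_, ?_⟩
  · intro i j
    have := congrFun (hU j) i
    rw [Matrix.mulVecLin_apply] at this
    have h3 : dot (T i) (U j) = (M.mulVec (U j)) i := rfl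
    rw [h3, this, Pi.single_apply]
  · intro b hb x hx
    have hb' : (fun i => (b i : ℝ)) ∈ Submodule.span ℝ s := by
      rw [hspan]
      exact Submodule.subset_span ⟨b, hb, rfl⟩
    have h4 : ∀ v ∈ Submodule.span ℝ s, v ⬝ᵥ x = 0 := by
      intro v hv
      induction hv using Submodule.span_induction with
      | mem v hv =>
        have h5 := hTφ (φ.symm ⟨v, hv⟩)
        rw [Equiv.apply_symm_apply] at h5
        have h6 := hx (φ.symm ⟨v, hv⟩)
        rw [bas_dot, h5] at h6
        exact h6
      | zero => exact zero_dotProduct _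
      | add u v _ _ hu hv => rw [add_dotProduct, hu, hv, add_zero]
      | smul a v _ hv => rw [smul_dotProduct, hv, smul_zero]
    rw [bas_dot]
    exact h4 _ hb'

theorem rk_le {n : ℕ} (N : Finset (Fin n → ℤ)) : rk N ≤ n := by
  have := Submodule.finrank_le (rspan N)
  simpa [rk] using this

end Pool.Agent.Work.MP_f22417_co
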