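import Pool.Agent.Work.MP_f22417_co.Defs

namespace Pool.Agent.Work.MP_f22417_co

open scoped BigOperators
open MeasureTheory

theorem circ {n : ℕ} (N : Finset (Fin n → ℤ)) (c : (Fin n → ℤ) → ℝ)
    (h : ∀ S : Finset (Fin n → ℤ), S ⊆ N → ∀ b₀ ∈ S, ∀ lam : (Fin n → ℤ) → ℝ,
      (∀ b ∈ S, 0 < lam b) → (∀ x : Fin n → ℝ, ∑ b ∈ S, lam b * dot b x = 0) →
      (∀ mu : (Fin n → ℤ) → ℝ, (∀ x : Fin n → ℝ, ∑ b ∈ S.erase b₀, mu b * dot b x = 0) →
        ∀ b ∈ S.erase b₀, mu b = 0) →
      0 ≤ ∑ b ∈ S, lam b * c b) :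
    ∀ lam : (Fin n → ℤ) → ℝ, (∀ b ∈ N, 0 ≤ lam b) →
      (∀ x : Fin n → ℝ, ∑ b ∈ N, lam b * dot b x = 0) → 0 ≤ ∑ b ∈ N, lam b * c b := by
  classical
  -- statement for supports
  have main : ∀ k : ℕ, ∀ S : Finset (Fin n → ℤ), S.card = k → S ⊆ N →
      ∀ lam : (Fin n → ℤ) → ℝ, (∀ b ∈ S, 0 < lam b) →
      (∀ x : Fin n → ℝ, ∑ b ∈ S, lam b * dot b x = 0) → 0 ≤ ∑ b ∈ S, lam b * c b := by
    intro k
    induction k using Nat.strong_induction_on with
    | _ k ih =>
    intro S hSk hSN lam hpos hrel
    rcases S.eq_empty_or_nonempty with rfl | ⟨b₀, hb₀⟩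
    · simp
    by_cases hind : ∀ mu : (Fin n → ℤ) → ℝ,
        (∀ x : Fin n → ℝ, ∑ b ∈ S.erase b₀, mu b * dot b x = 0) → ∀ b ∈ S.erase b₀, mu b = 0
    · exact h S hSN b₀ hb₀ lam hpos hrel hind
    push Not at hind
    obtain ⟨mu0, hmu0, b1, hb1, hmub1⟩ := hind
    -- extend by zero
    -- general reduction: subtract a multiple of a relation having a positive coordinate
    have red : ∀ mu : (Fin n → ℤ) → ℝ, (∀ x : Fin n → ℝ, ∑ b ∈ S, mu b * dot b x = 0) →
        (∃ b ∈ S, 0 < mu b) → ∃ tau : ℝ, 0 < tau ∧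
          (∀ b ∈ S, 0 ≤ lam b - tau * mu b) ∧
          0 ≤ ∑ b ∈ S, (lam b - tau * mu b) * c b := by
      intro mu hmu hex
      set Pp := S.filter fun b => 0 < mu b with hPp
      have hPne : Pp.Nonempty := by
        obtain ⟨b, hb, hb'⟩ := hex
        exact ⟨b, by simp [hPp, hb, hb']⟩
      obtain ⟨b2, hb2, hmin⟩ := Finset.exists_min_image Pp (fun b => lam b / mu b) hPne
      have hb2' : b2 ∈ S ∧ 0 < mu b2 := by simpa [hPp] using hb2
      have htau : 0 < lam b2 / mu b2 := div_pos (hpos _ hb2'.1) hb2'.2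
      have hnn : ∀ b ∈ S, 0 ≤ lam b - lam b2 / mu b2 * mu b := by
        intro b hb
        rcases le_or_gt (mu b) 0 with h1 | h1
        · have := hpos b hb
          nlinarith
        · have h2 := hmin b (by simp [hPp, hb, h1])
          rw [le_div_iff₀ h1] at h2
          linarith
      refine ⟨lam b2 / mu b2, htau, hnn, ?_⟩
      set lam' : (Fin n → ℤ) → ℝ := fun b => lam b - lam b2 / mu b2 * mu b with hlam'
      set S' := S.filter fun b => lam' b ≠ 0 with hS'
      have hb2n : b2 ∉ S' := by
        simp only [hS', Finset.mem_filter, not_and, not_not, hlam']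
        intro _
        field_simp [hb2'.2.ne']
        ring
      have hlt : S'.card < k := by
        rw [← hSk]
        apply Finset.card_lt_card
        refine ⟨Finset.filter_subset _ _, fun hsub => hb2n (hsub hb2'.1)⟩
      have hsum : ∀ f : (Fin n → ℤ) → ℝ, ∑ b ∈ S', lam' b * f b = ∑ b ∈ S, lam' b * f b := by
        intro f
        apply Finset.sum_subset (Finset.filter_subset _ _)
        intro b hb hb'
        have : lam' b = 0 := by
          by_contra hne
          exact hb' (by simp [hS', hb, hne])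
        rw [this, zero_mul]
      have h3 := ih S'.card hlt S' rfl ((Finset.filter_subset _ _).trans hSN) lam' (by
        intro b hb
        have hb' : b ∈ S ∧ lam' b ≠ 0 := by simpa [hS'] using hb
        exact lt_of_le_of_ne (hnn b hb'.1) (Ne.symm hb'.2)) (by
        intro x
        rw [hsum]
        have h4 : ∑ b ∈ S, lam' b * dot b x =
            ∑ b ∈ S, lam b * dot b x - lam b2 / mu b2 * ∑ b ∈ S, mu b * dot b x := by
          rw [Finset.mul_sum, ← Finset.sum_sub_distrib]
          exact Finset.sum_congr rfl fun b _ => by simp only [hlam']; ring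
        rw [h4, hrel, hmu]; ring)
      rw [hsum] at h3
      exact h3
    set mu : (Fin n → ℤ) → ℝ := fun b => if b = b₀ then 0 else mu0 b with hmudef
    have hmu : ∀ x : Fin n → ℝ, ∑ b ∈ S, mu b * dot b x = 0 := by
      intro x
      rw [← Finset.add_sum_erase S _ hb₀]
      have h1 : mu b₀ = 0 := by simp [hmudef]
      rw [h1, zero_mul, zero_add, ← hmu0 x]
      refine Finset.sum_congr rfl fun b hb => ?_
      have : b ≠ b₀ := Finset.ne_of_mem_erase hb
      simp [hmudef, this]
    have hb1S : b1 ∈ S := Finset.mem_of_mem_erase hb1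
    have hmu1 : mu b1 ≠ 0 := by
      have : b1 ≠ b₀ := Finset.ne_of_mem_erase hb1
      simp [hmudef, this, hmub1]
    -- wlog a positive coordinate
    have hcase : ∀ nu : (Fin n → ℤ) → ℝ, (∀ x : Fin n → ℝ, ∑ b ∈ S, nu b * dot b x = 0) →
        nu b₀ = 0 → 0 < nu b1 → 0 ≤ ∑ b ∈ S, lam b * c b := by
      intro nu hnu hnu0 hnu1
      obtain ⟨tau, ht, hnn, hle⟩ := red nu hnu ⟨b1, hb1S, hnu1⟩
      have e1 : ∑ b ∈ S, (lam b - tau * nu b) * c b =
          ∑ b ∈ S, lam b * c b - tau * ∑ b ∈ S, nu b * c b := by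
        rw [Finset.mul_sum, ← Finset.sum_sub_distrib]
        exact Finset.sum_congr rfl fun b _ => by ring
      by_cases hneg : ∃ b ∈ S, nu b < 0
      · obtain ⟨b3, hb3, hb3'⟩ := hneg
        obtain ⟨tau', ht', hnn', hle'⟩ := red (fun b => - nu b) (by
          intro x
          have := hnu x
          simp only [neg_mul, Finset.sum_neg_distrib, this, neg_zero]) ⟨b3, hb3, by simpa using hb3'⟩
        have e2 : ∑ b ∈ S, (lam b - tau' * (- nu b)) * c b =
            ∑ b ∈ S, lam b * c b + tau' * ∑ b ∈ S, nu b * c b := by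
          rw [Finset.mul_sum, ← Finset.sum_add_distrib]
          exact Finset.sum_congr rfl fun b _ => by ring
        rw [e1] at hle
        rw [e2] at hle'
        set A := ∑ b ∈ S, lam b * c b
        set M := ∑ b ∈ S, nu b * c b
        have : 0 ≤ (tau + tau') * A := by nlinarith
        by_contra hA
        push Not at hA
        nlinarith
      · push Not at hneg
        -- nu itself is a nonnegative relation with smaller support
        set S' := S.filter fun b => nu b ≠ 0 with hS'
        have hb0n : b₀ ∉ S' := by simp [hS', hnu0]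
        have hlt : S'.card < k := by
          rw [← hSk]
          apply Finset.card_lt_card
          refine ⟨Finset.filter_subset _ _, fun hsub => hb0n (hsub hb₀)⟩
        have hsum : ∀ f : (Fin n → ℤ) → ℝ, ∑ b ∈ S', nu b * f b = ∑ b ∈ S, nu b * f b := by
          intro f
          apply Finset.sum_subset (Finset.filter_subset _ _)
          intro b hb hb'
          have : nu b = 0 := by
            by_contra hne
            exact hb' (by simp [hS', hb, hne])
          rw [this, zero_mul]
        have h3 := ih S'.card hlt S' rfl ((Finset.filter_subset _ _).trans hSN) nu (by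
          intro b hb
          have hb' : b ∈ S ∧ nu b ≠ 0 := by simpa [hS'] using hb
          exact lt_of_le_of_ne (hneg b hb'.1) (Ne.symm hb'.2)) (by
          intro x
          rw [hsum, hnu])
        rw [hsum] at h3
        rw [e1] at hle
        nlinarith
    rcases lt_or_gt_of_ne hmu1 with h1 | h1
    · refine hcase (fun b => - mu b) ?_ ?_ ?_
      · intro x
        have := hmu x
        simp only [neg_mul, Finset.sum_neg_distrib, this, neg_zero]
      · simp [hmudef]
      · linarith
    · exact hcase mu hmu (by simp [hmudef]) h1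
  intro lam hnn hrel
  set S := N.filter fun b => lam b ≠ 0 with hS
  have hsum : ∀ f : (Fin n → ℤ) → ℝ, ∑ b ∈ S, lam b * f b = ∑ b ∈ N, lam b * f b := by
    intro f
    apply Finset.sum_subset (Finset.filter_subset _ _)
    intro b hb hb'
    have : lam b = 0 := by
      by_contra hne
      exact hb' (by simp [hS, hb, hne])
    rw [this, zero_mul]
  have h3 := main S.card S rfl (Finset.filter_subset _ _) lam (by
    intro b hb
    have hb' : b ∈ N ∧ lam b ≠ 0 := by simpa [hS] using hb
    exact lt_of_le_of_ne (hnn b hb'.1) (Ne.symm hb'.2)) (by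
    intro x
    rw [hsum, hrel])
  rw [hsum] at h3
  exact h3

end Pool.Agent.Work.MP_f22417_co
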