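import Pool.Agent.Work.MP_f22417_co.Defs

/-!
# MP_f22417_co, module CRAM: circuits of `Nd B d`
-/

namespace Pool.Agent.Work.MP_f22417_co

open scoped BigOperators

/-- The cast of an integer vector. -/
def cramCast {n : ℕ} (b : Fin n → ℤ) : Fin n → ℝ := fun i => (b i : ℝ)

theorem cram_dot {n : ℕ} (b : Fin n → ℤ) (x : Fin n → ℝ) :
    dot b x = cramCast b ⬝ᵥ x := rfl

/-- The real determinant of an integer matrix given by rows. -/
theorem cram_det_cast {n : ℕ} (v : Fin n → (Fin n → ℤ)) :
    (((Matrix.of v).det : ℤ) : ℝ) = (Matrix.of (fun i => cramCast (v i))).det := by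
  rw [Int.cast_det]
  rfl

/-- Sum with zero pairing is the zero vector. -/
theorem cram_sum_eq_zero {n : ℕ} (S : Finset (Fin n → ℤ)) (f : (Fin n → ℤ) → ℝ) :
    (∀ x : Fin n → ℝ, ∑ b ∈ S, f b * dot b x = 0) ↔ ∑ b ∈ S, f b • cramCast b = 0 := by
  have key : ∀ x : Fin n → ℝ, ∑ b ∈ S, f b * dot b x = (∑ b ∈ S, f b • cramCast b) ⬝ᵥ x := by
    intro x
    rw [sum_dotProduct]
    apply Finset.sum_congr rfl
    intro b _
    rw [smul_dotProduct, cram_dot, smul_eq_mul]
  constructor
  · intro h
    apply dotProduct_eq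
    intro x
    rw [← key x, h x, zero_dotProduct]
  · intro h x
    rw [key x, h, zero_dotProduct]

theorem cram {n : ℕ} (B : Finset (Fin n → ℤ)) (l : (Fin n → ℤ) → ℕ) (D : ℕ)
    (hC : Cond B l D) (hs : Spans B) (d : ℕ) (hd : 0 < d)
    (S : Finset (Fin n → ℤ)) (hS : S ⊆ Nd B d) (b₀ : Fin n → ℤ) (hb₀ : b₀ ∈ S)
    (lam : (Fin n → ℤ) → ℝ) (hpos : ∀ b ∈ S, 0 < lam b)
    (hrel : ∀ x : Fin n → ℝ, ∑ b ∈ S, lam b * dot b x = 0)
    (hind : ∀ mu : (Fin n → ℤ) → ℝ, (∀ x : Fin n → ℝ, ∑ b ∈ S.erase b₀, mu b * dot b x = 0) →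
        ∀ b ∈ S.erase b₀, mu b = 0) :
    ∃ (κ : ℝ) (k : (Fin n → ℤ) → ℕ), 0 < κ ∧ (∀ b ∈ S, (k b : ℝ) = κ * lam b) ∧
      (∑ b ∈ S, k b * l ((d : ℤ) • b)) * d ^ rk (Nd B d) ≤ 2 * D := by
  classical
  -- independence of `S.erase b₀`
  have hli0 : LinearIndepOn ℝ (cramCast (n := n)) (S.erase b₀ : Set (Fin n → ℤ)) := by
    rw [linearIndepOn_finset_iff]
    intro f hf
    exact hind f ((cram_sum_eq_zero _ f).2 hf)
  have hsub0 : (S.erase b₀ : Set (Fin n → ℤ)) ⊆ (Nd B d : Set (Fin n → ℤ)) := by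
    intro b hb
    exact hS (Finset.mem_of_mem_erase (Finset.mem_coe.1 hb))
  obtain ⟨c1, hc1N, hc10, hc1span, hc1li⟩ := exists_linearIndepOn_extension hli0 hsub0
  obtain ⟨c2, hc2N, hc21, hc2span, hc2li⟩ := exists_linearIndepOn_extension (t := c1 ∪ (B : Set (Fin n → ℤ)))
    hc1li Set.subset_union_left
  have hc1fin : c1.Finite := (Nd B d).finite_toSet.subset hc1N
  have hc2fin : c2.Finite := (hc1fin.union B.finite_toSet).subset hc2N
  obtain ⟨b1, rfl⟩ := hc1fin.exists_finset_coe
  obtain ⟨b2, rfl⟩ := hc2fin.exists_finset_coe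
  -- cardinalities
  have hcard1 : b1.card = rk (Nd B d) := by
    have h1 : LinearIndependent ℝ (fun x : b1 => cramCast (x : Fin n → ℤ)) := hc1li
    have h2 := finrank_span_eq_card h1
    rw [Fintype.card_coe] at h2
    have h3 : Set.range (fun x : b1 => cramCast (x : Fin n → ℤ)) = cramCast '' (b1 : Set (Fin n → ℤ)) := by
      ext y
      simp
    have h4 : Submodule.span ℝ (cramCast '' (b1 : Set (Fin n → ℤ)))
        = Submodule.span ℝ ((fun b : Fin n → ℤ => (fun i => (b i : ℝ))) '' (Nd B d : Set (Fin n → ℤ))) := by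
      apply le_antisymm
      · exact Submodule.span_mono (Set.image_mono hc1N)
      · exact Submodule.span_le.2 hc1span
    rw [h3, h4] at h2
    exact h2.symm
  have hspan2 : Submodule.span ℝ (cramCast '' (b2 : Set (Fin n → ℤ))) = ⊤ := by
    obtain ⟨v, hv, hdet⟩ := hs
    have h1 : LinearIndependent ℝ (fun i => cramCast (v i)) := by
      have h2 : (Matrix.of (fun i => cramCast (v i))).det ≠ 0 := by
        rw [← cram_det_cast]
        exact_mod_cast hdet
      exact Matrix.linearIndependent_rows_of_det_ne_zero h2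
    have h3 : Submodule.span ℝ (Set.range (fun i => cramCast (v i))) = ⊤ :=
      h1.span_eq_top_of_card_eq_finrank' (by simp)
    rw [eq_top_iff, ← h3, Submodule.span_le]
    rintro _ ⟨i, rfl⟩
    exact hc2span ⟨v i, Or.inr (hv i), rfl⟩
  have hcard2 : b2.card = n := by
    have h1 : LinearIndependent ℝ (fun x : b2 => cramCast (x : Fin n → ℤ)) := hc2li
    have h2 := finrank_span_eq_card h1
    rw [Fintype.card_coe] at h2
    rw [← h2]
    have h3 : Set.range (fun x : b2 => cramCast (x : Fin n → ℤ)) = cramCast '' (b2 : Set (Fin n → ℤ)) := by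
      ext y
      simp
    rw [h3, hspan2]
    simp
  -- enumeration
  let φ : Fin n ≃ b2 := (Fintype.equivFinOfCardEq (by rw [Fintype.card_coe]; exact hcard2)).symm
  let v3 : Fin n → (Fin n → ℤ) := fun i => (φ i : Fin n → ℤ)
  have hv3inj : Function.Injective v3 := fun i j h => φ.injective (Subtype.ext h)
  have hv3mem : ∀ i, v3 i ∈ b2 := fun i => (φ i).2
  have hv3surj : ∀ b ∈ b2, ∃ i, v3 i = b := fun b hb => ⟨φ.symm ⟨b, hb⟩, by simp [v3]⟩
  have hli3 : LinearIndependent ℝ (fun i => cramCast (v3 i)) := by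
    have h1 : LinearIndependent ℝ (fun x : b2 => cramCast (x : Fin n → ℤ)) := hc2li
    exact h1.comp φ φ.injective
  have hdet3 : (Matrix.of (fun i => cramCast (v3 i))).det ≠ 0 := by
    have h1 : LinearIndependent ℝ (Matrix.of (fun i => cramCast (v3 i))).row := hli3
    rw [Matrix.linearIndependent_rows_iff_isUnit] at h1
    exact ((Matrix.isUnit_iff_isUnit_det _).1 h1).ne_zero
  have hdet3Z : (Matrix.of v3).det ≠ 0 := by
    intro h
    apply hdet3
    rw [← cram_det_cast, h]
    simp
  have hlam0 : 0 < lam b₀ := hpos b₀ hb₀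
  -- the relation
  let coef : Fin n → ℝ := fun i => if v3 i ∈ S.erase b₀ then -(lam (v3 i) / lam b₀) else 0
  have hb0sum : cramCast b₀ = ∑ i, coef i • cramCast (v3 i) := by
    have h1 := (cram_sum_eq_zero S lam).1 hrel
    rw [← Finset.add_sum_erase S _ hb₀] at h1
    have h2 : cramCast b₀ = - (1 / lam b₀) • ∑ b ∈ S.erase b₀, lam b • cramCast b := by
      have h3 : lam b₀ • cramCast b₀ = - ∑ b ∈ S.erase b₀, lam b • cramCast b :=
        eq_neg_of_add_eq_zero_left h1
      have h4 : cramCast b₀ = (1 / lam b₀) • (lam b₀ • cramCast b₀) := by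
        rw [smul_smul, one_div, inv_mul_cancel₀ hlam0.ne', one_smul]
      rw [h4, h3, smul_neg, neg_smul]
    rw [h2, Finset.smul_sum]
    have h5 : ∑ i, coef i • cramCast (v3 i)
        = ∑ i ∈ Finset.univ.filter (fun i => v3 i ∈ S.erase b₀), (-(lam (v3 i) / lam b₀)) • cramCast (v3 i) := by
      rw [Finset.sum_filter]
      apply Finset.sum_congr rfl
      intro i _
      by_cases hi : v3 i ∈ S.erase b₀
      · simp only [coef, if_pos hi]
      · simp only [coef, if_neg hi, zero_smul]
    rw [h5]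
    symm
    apply Finset.sum_bij (fun i _ => v3 i)
    · intro i hi
      exact (Finset.mem_filter.1 hi).2
    · intro i _ j _ h
      exact hv3inj h
    · intro b hb
      obtain ⟨i, hi⟩ := hv3surj b (hc21 (hc10 hb))
      exact ⟨i, Finset.mem_filter.2 ⟨Finset.mem_univ _, hi ▸ hb⟩, hi⟩
    · intro i _
      rw [smul_smul]
      congr 1
      ring
  have hcramer : ∀ i, (((Matrix.of (Function.update v3 i b₀)).det : ℤ) : ℝ)
      = coef i * (((Matrix.of v3).det : ℤ) : ℝ) := by
    intro i
    rw [cram_det_cast, cram_det_cast]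
    have h1 : Matrix.of (fun j => cramCast (Function.update v3 i b₀ j))
        = (Matrix.of (fun j => cramCast (v3 j))).updateRow i
            (∑ k, coef k • (Matrix.of (fun j => cramCast (v3 j))) k) := by
      ext a c
      by_cases hai : a = i
      · subst hai
        rw [Matrix.updateRow_self]
        simp only [Matrix.of_apply, Function.update_self]
        rw [hb0sum]
        rfl
      · rw [Matrix.updateRow_ne hai]
        simp only [Matrix.of_apply, Function.update_of_ne hai]
    rw [h1, Matrix.det_updateRow_sum, smul_eq_mul]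
  -- scaled matrix
  let s : Fin n → ℤ := fun i => if v3 i ∈ b1 then (d : ℤ) else 1
  let T2 : Fin n → (Fin n → ℤ) := fun i => s i • v3 i
  have hT2B : ∀ i, T2 i ∈ B := by
    intro i
    by_cases hi : v3 i ∈ b1
    · have h1 : T2 i = (d : ℤ) • v3 i := by simp only [T2, s, if_pos hi]
      rw [h1]
      exact ((mem_Nd hd).1 (hc1N hi)).2
    · have h1 : T2 i = v3 i := by simp only [T2, s, if_neg hi, one_smul]
      rw [h1]
      rcases hc2N (hv3mem i) with h | h
      · exact absurd h hi
      · exact h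
  have hprod : ∏ i, s i = (d : ℤ) ^ rk (Nd B d) := by
    have h1 : ∏ i, s i = (d : ℤ) ^ (Finset.univ.filter (fun i => v3 i ∈ b1)).card := by
      simp only [s]
      rw [Finset.prod_ite, Finset.prod_const, Finset.prod_const, one_pow, mul_one]
    rw [h1, ← hcard1]
    congr 1
    apply Finset.card_bij (fun i _ => v3 i)
    · intro i hi
      exact (Finset.mem_filter.1 hi).2
    · intro i _ j _ h
      exact hv3inj h
    · intro b hb
      obtain ⟨i, hi⟩ := hv3surj b (hc21 hb)
      exact ⟨i, Finset.mem_filter.2 ⟨Finset.mem_univ _, hi ▸ hb⟩, hi⟩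
  have hdetscale : ∀ u : Fin n → (Fin n → ℤ), (Matrix.of (fun i => s i • u i)).det
      = (d : ℤ) ^ rk (Nd B d) * (Matrix.of u).det := by
    intro u
    rw [← hprod, ← Matrix.det_mul_column s (Matrix.of u)]
    rfl
  have hdetT2 : (Matrix.of T2).det = (d : ℤ) ^ rk (Nd B d) * (Matrix.of v3).det := hdetscale v3
  have hdetup : ∀ i, v3 i ∈ b1 → (Matrix.of (Function.update T2 i ((d : ℤ) • b₀))).det
      = (d : ℤ) ^ rk (Nd B d) * (Matrix.of (Function.update v3 i b₀)).det := by
    intro i hi
    rw [← hdetscale]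
    congr 2
    funext j
    by_cases hji : j = i
    · subst hji
      simp only [Function.update_self, s, if_pos hi]
    · simp only [Function.update_of_ne hji, T2]
  -- the coefficients
  let k : (Fin n → ℤ) → ℕ := fun b => if b = b₀ then (Matrix.of v3).det.natAbs else
    ∑ i ∈ Finset.univ.filter (fun i => v3 i = b), (Matrix.of (Function.update v3 i b₀)).det.natAbs
  have hk0 : k b₀ = (Matrix.of v3).det.natAbs := by simp only [k, if_true]
  have hki : ∀ i, v3 i ∈ S.erase b₀ → k (v3 i) = (Matrix.of (Function.update v3 i b₀)).det.natAbs := by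
    intro i hi
    have h1 : v3 i ≠ b₀ := Finset.ne_of_mem_erase hi
    simp only [k, if_neg h1]
    have h2 : Finset.univ.filter (fun j => v3 j = v3 i) = {i} := by
      ext j
      simp only [Finset.mem_filter, Finset.mem_univ, true_and, Finset.mem_singleton]
      exact ⟨fun h => hv3inj h, fun h => by rw [h]⟩
    rw [h2, Finset.sum_singleton]
  have hdpos : (0 : ℤ) < (d : ℤ) ^ rk (Nd B d) := by positivity
  refine ⟨|(((Matrix.of v3).det : ℤ) : ℝ)| / lam b₀, k, ?_, ?_, ?_⟩
  · apply div_pos _ hlam0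
    rw [abs_pos]
    exact_mod_cast hdet3Z
  · intro b hb
    by_cases hbb : b = b₀
    · rw [hbb, hk0, Nat.cast_natAbs, Int.cast_abs]
      field_simp
    · have hbe : b ∈ S.erase b₀ := Finset.mem_erase.2 ⟨hbb, hb⟩
      obtain ⟨i, hi⟩ := hv3surj b (hc21 (hc10 hbe))
      subst hi
      rw [hki i hbe, Nat.cast_natAbs, Int.cast_abs, hcramer i, abs_mul]
      simp only [coef, if_pos hbe, abs_neg]
      rw [abs_of_pos (div_pos (hpos _ hb) hlam0)]
      ring
  · have hcond := hC T2 hT2B ((d : ℤ) • b₀) ((mem_Nd hd).1 (hS hb₀)).2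
    have hsum : (∑ b ∈ S, k b * l ((d : ℤ) • b))
        = (Matrix.of v3).det.natAbs * l ((d : ℤ) • b₀)
          + ∑ i ∈ Finset.univ.filter (fun i => v3 i ∈ S.erase b₀),
            (Matrix.of (Function.update v3 i b₀)).det.natAbs * l ((d : ℤ) • v3 i) := by
      rw [← Finset.add_sum_erase S _ hb₀, hk0]
      congr 1
      symm
      apply Finset.sum_bij (fun i _ => v3 i)
      · intro i hi
        exact (Finset.mem_filter.1 hi).2
      · intro i _ j _ h
        exact hv3inj h
      · intro b hb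
        obtain ⟨i, hi⟩ := hv3surj b (hc21 (hc10 hb))
        exact ⟨i, Finset.mem_filter.2 ⟨Finset.mem_univ _, hi ▸ hb⟩, hi⟩
      · intro i hi
        rw [hki i (Finset.mem_filter.1 hi).2]
    have hle : (((∑ b ∈ S, k b * l ((d : ℤ) • b)) * d ^ rk (Nd B d) : ℕ) : ℤ) ≤
        |(Matrix.of T2).det| * (l ((d : ℤ) • b₀) : ℤ)
        + ∑ i, |(Matrix.of (Function.update T2 i ((d : ℤ) • b₀))).det| * (l (T2 i) : ℤ) := by
      rw [hsum]
      push_cast
      rw [add_mul]
      apply add_le_add
      · rw [hdetT2, abs_mul, abs_of_pos hdpos]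
        apply le_of_eq
        ring
      · rw [Finset.sum_mul]
        refine le_trans (le_of_eq ?_) (Finset.sum_le_sum_of_subset_of_nonneg
          (Finset.subset_univ (Finset.univ.filter (fun i => v3 i ∈ S.erase b₀))) ?_)
        · apply Finset.sum_congr rfl
          intro i hi
          have hi' := (Finset.mem_filter.1 hi).2
          have hi1 : v3 i ∈ b1 := hc10 hi'
          rw [hdetup i hi1, abs_mul, abs_of_pos hdpos]
          have h1 : T2 i = (d : ℤ) • v3 i := by simp only [T2, s, if_pos hi1]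
          rw [h1]
          ring
        · intro i _ _
          positivity
    exact_mod_cast hle.trans hcond

end Pool.Agent.Work.MP_f22417_co
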