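import Pool.Agent.Work.MP_f22417_co.Defs

namespace Pool.Agent.Work.MP_f22417_co

open scoped BigOperators
open MeasureTheory

namespace FarkAux

lemma dneg {n : ℕ} (b : Fin n → ℤ) (x : Fin n → ℝ) : dot (-b) x = - dot b x := by
  simp [dot, Finset.sum_neg_distrib]

lemma dadd {n : ℕ} (b : Fin n → ℤ) (x y : Fin n → ℝ) : dot b (x + y) = dot b x + dot b y := by
  simp [dot, Finset.sum_add_distrib, mul_add]

lemma dsmul {n : ℕ} (b : Fin n → ℤ) (s : ℝ) (x : Fin n → ℝ) : dot b (s • x) = s * dot b x := by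
  simp only [dot, Finset.mul_sum, Pi.smul_apply, smul_eq_mul]
  exact Finset.sum_congr rfl fun i _ => by ring

/-- the evaluation map -/
def ev {n : ℕ} (N : Finset (Fin n → ℤ)) : (Fin n → ℝ) →ₗ[ℝ] (N → ℝ) where
  toFun y := fun b => dot b.1 y
  map_add' y z := by funext b; exact dadd _ _ _
  map_smul' s y := by funext b; exact dsmul _ _ _

lemma sq_max_le (u v : ℝ) : (max (u + v) 0) ^ 2 ≤ (max u 0 + v) ^ 2 := by
  rcases le_or_gt (u + v) 0 with h | h
  · rw [max_eq_right h]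
    simpa using sq_nonneg (max u 0 + v)
  · rw [max_eq_left h.le]
    have : u ≤ max u 0 := le_max_left _ _
    nlinarith

end FarkAux

open FarkAux in
theorem fark {n : ℕ} (N : Finset (Fin n → ℤ)) (hneg : ∀ b ∈ N, -b ∈ N)
    (c : (Fin n → ℤ) → ℝ)
    (h : ∀ lam : (Fin n → ℤ) → ℝ, (∀ b ∈ N, 0 ≤ lam b) →
      (∀ x : Fin n → ℝ, ∑ b ∈ N, lam b * dot b x = 0) → 0 ≤ ∑ b ∈ N, lam b * c b) :
    ∃ y : Fin n → ℝ, ∀ b ∈ N, dot b y ≤ c b := by
  classical
  let W := LinearMap.range (ev N)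
  let g : W → ℝ := fun u => ∑ b : N, (max (u.1 b - c b.1) 0) ^ 2
  have hg : Continuous g := by
    apply continuous_finsetSum
    intro b _
    have : Continuous fun u : W => u.1 b := (continuous_apply b).comp continuous_subtype_val
    exact ((this.sub continuous_const).max continuous_const).pow 2
  set C : ℝ := ∑ b ∈ N, |c b| with hC
  have hC' : ∀ b ∈ N, |c b| ≤ C := fun b hb =>
    Finset.single_le_sum (f := fun b => |c b|) (fun _ _ => abs_nonneg _) hb
  have hC0 : 0 ≤ C := Finset.sum_nonneg fun _ _ => abs_nonneg _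
  have hg0 : ∀ u, 0 ≤ g u := fun u => Finset.sum_nonneg fun _ _ => sq_nonneg _
  have hmin : ∃ u : W, ∀ v : W, g u ≤ g v := by
    refine hg.exists_forall_le' (0 : W) ?_
    have ht := (tendsto_norm_cocompact_atTop (E := W)).eventually
      (Filter.eventually_ge_atTop (C + g 0 + 1))
    filter_upwards [ht] with u hu
    -- some coordinate is large
    have hpos : 0 < ‖u‖ := by have := hg0 0; linarith
    have hex : ∃ b : N, ‖u‖ ≤ u.1 b := by
      have h1 : ∃ b : N, ‖u‖ ≤ |u.1 b| := by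
        by_contra hcon
        push Not at hcon
        have : ‖u.1‖ < ‖u‖ := by
          rw [pi_norm_lt_iff hpos]
          intro b
          rw [Real.norm_eq_abs]
          exact hcon b
        exact absurd this (lt_irrefl _)
      obtain ⟨b, hb⟩ := h1
      rcases abs_cases (u.1 b) with h2 | h2
      · exact ⟨b, by rw [h2.1] at hb; exact hb⟩
      · refine ⟨⟨-b.1, hneg _ b.2⟩, ?_⟩
        obtain ⟨y, hy⟩ := u.2
        have h3 : u.1 ⟨-b.1, hneg _ b.2⟩ = - u.1 b := by
          rw [← hy]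
          exact dneg _ _
        rw [h3, ← h2.1]
        exact hb
    obtain ⟨b, hb⟩ := hex
    have h4 : (max (u.1 b - c b.1) 0) ^ 2 ≤ g u :=
      Finset.single_le_sum (f := fun b : N => (max (u.1 b - c b.1) 0) ^ 2)
        (fun _ _ => sq_nonneg _) (Finset.mem_univ b)
    have h5 : g 0 + 1 ≤ u.1 b - c b.1 := by
      have := hC' b.1 b.2
      have := le_abs_self (c b.1)
      linarith
    have h6 : g 0 + 1 ≤ max (u.1 b - c b.1) 0 := h5.trans (le_max_left _ _)
    have h7 := hg0 0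
    nlinarith
  obtain ⟨u, hu⟩ := hmin
  obtain ⟨y, hy⟩ := u.2
  set lam : (Fin n → ℤ) → ℝ := fun b => max (dot b y - c b) 0 with hlam
  have hgu : g u = ∑ b ∈ N, lam b ^ 2 := by
    rw [← Finset.sum_coe_sort]
    show ∑ b : N, (max (u.1 b - c b.1) 0) ^ 2 = _
    rw [← hy]
    rfl
  have hstep : ∀ x : Fin n → ℝ, ∀ s : ℝ,
      0 ≤ 2 * s * ∑ b ∈ N, lam b * dot b x + s ^ 2 * ∑ b ∈ N, dot b x ^ 2 := by
    intro x s
    have h1 := hu ⟨ev N (y + s • x), ⟨_, rfl⟩⟩
    have h2 : g ⟨ev N (y + s • x), ⟨_, rfl⟩⟩ ≤ ∑ b ∈ N, (lam b + s * dot b x) ^ 2 := by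
      rw [← Finset.sum_coe_sort]
      refine Finset.sum_le_sum fun b _ => ?_
      show (max (dot b.1 (y + s • x) - c b.1) 0) ^ 2 ≤ _
      have : dot b.1 (y + s • x) - c b.1 = (dot b.1 y - c b.1) + s * dot b.1 x := by
        rw [dadd, dsmul]; ring
      rw [this]
      exact sq_max_le _ _
    have h3 : ∑ b ∈ N, (lam b + s * dot b x) ^ 2 = ∑ b ∈ N, lam b ^ 2 +
        (2 * s * ∑ b ∈ N, lam b * dot b x + s ^ 2 * ∑ b ∈ N, dot b x ^ 2) := by
      rw [Finset.mul_sum, Finset.mul_sum, ← Finset.sum_add_distrib, ← Finset.sum_add_distrib]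
      exact Finset.sum_congr rfl fun b _ => by ring
    rw [hgu] at h1
    linarith
  have hrel : ∀ x : Fin n → ℝ, ∑ b ∈ N, lam b * dot b x = 0 := by
    intro x
    by_contra hne
    set a := ∑ b ∈ N, lam b * dot b x
    set B := ∑ b ∈ N, dot b x ^ 2
    have hB : 0 ≤ B := Finset.sum_nonneg fun _ _ => sq_nonneg _
    have h1 := hstep x (-a / (B + 1))
    have hB1 : 0 < B + 1 := by linarith
    have h2 : 2 * (-a / (B + 1)) * a + (-a / (B + 1)) ^ 2 * B =
        a ^ 2 / (B + 1) ^ 2 * (-(B + 2)) := by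
      field_simp
      ring
    rw [h2] at h1
    have h3 : 0 < a ^ 2 / (B + 1) ^ 2 := by positivity
    nlinarith
  have hc := h lam (fun b _ => le_max_right _ _) hrel
  have hsum : ∑ b ∈ N, lam b ^ 2 ≤ 0 := by
    have h1 : ∑ b ∈ N, lam b ^ 2 = ∑ b ∈ N, lam b * dot b y - ∑ b ∈ N, lam b * c b := by
      rw [← Finset.sum_sub_distrib]
      refine Finset.sum_congr rfl fun b _ => ?_
      simp only [hlam]
      rcases le_total (dot b y - c b) 0 with h2 | h2
      · rw [max_eq_right h2]; ring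
      · rw [max_eq_left h2]; ring
    rw [h1, hrel y]
    linarith
  refine ⟨y, fun b hb => ?_⟩
  have h1 : lam b ^ 2 ≤ 0 :=
    (Finset.single_le_sum (f := fun b => lam b ^ 2) (fun _ _ => sq_nonneg _) hb).trans hsum
  have h2 : lam b = 0 := by nlinarith [sq_nonneg (lam b)]
  have h3 : dot b y - c b ≤ lam b := le_max_left _ _
  linarith

end Pool.Agent.Work.MP_f22417_co
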