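import Pool.Agent.Work.MP_f22417_co.Defs
import Pool.Agent.Work.MP_f22417_co.FARK
import Pool.Agent.Work.MP_f22417_co.CIRC
import Pool.Agent.Work.MP_f22417_co.CRAM

/-! # Module FEAS: feasibility of the systems for `Nd B d` -/

namespace Pool.Agent.Work.MP_f22417_co

open scoped BigOperators

theorem feas {n : ℕ} (B : Finset (Fin n → ℤ)) (l : (Fin n → ℤ) → ℕ) (D : ℕ) (hD : 0 < D)
    (hneg : ∀ b ∈ B, -b ∈ B) (hC : Cond B l D) (hs : Spans B) (d : ℕ) (hd : 0 < d) :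
    Feas (Nd B d) (fun b => (l ((d : ℤ) • b) : ℝ) * (d : ℝ) ^ rk (Nd B d) / (2 * D)) := by
  intro h x hx
  have hD' : (0 : ℝ) < 2 * D := by
    have : (0 : ℝ) < D := by exact_mod_cast hD
    linarith
  have hnegN : ∀ b ∈ Nd B d, -b ∈ Nd B d := by
    intro b hb
    rw [mem_Nd hd] at hb ⊢
    refine ⟨neg_ne_zero.2 hb.1, ?_⟩
    rw [smul_neg]
    exact hneg _ hb.2
  have key := fark (Nd B d) hnegN
    (fun b => (h b : ℝ) - (l ((d : ℤ) • b) : ℝ) * (d : ℝ) ^ rk (Nd B d) / (2 * D)) ?_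
  · obtain ⟨y, hy⟩ := key
    refine ⟨y, fun b hb => ?_⟩
    have := hy b hb
    simp only at this ⊢
    linarith
  · apply circ
    intro S hS b₀ hb₀ lam hpos hrel hind
    obtain ⟨κ, k, hκ, hk, hsum⟩ := cram B l D hC hs d hd S hS b₀ hb₀ lam hpos hrel hind
    have hkpos : ∀ b ∈ S, (0 : ℝ) < k b := by
      intro b hb
      rw [hk b hb]
      exact mul_pos hκ (hpos b hb)
    -- the integer
    have hZ1 : (0 : ℝ) < ∑ b ∈ S, (k b : ℝ) * h b := by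
      have h1 : ∑ b ∈ S, (k b : ℝ) * dot b x = 0 := by
        have : ∑ b ∈ S, (k b : ℝ) * dot b x = κ * ∑ b ∈ S, lam b * dot b x := by
          rw [Finset.mul_sum]
          refine Finset.sum_congr rfl fun b hb => ?_
          rw [hk b hb]; ring
        rw [this, hrel x, mul_zero]
      rw [← h1]
      refine Finset.sum_lt_sum_of_nonempty ⟨b₀, hb₀⟩ fun b hb => ?_
      exact mul_lt_mul_of_pos_left (hx b (hS hb)) (hkpos b hb)
    have hZ2 : (1 : ℝ) ≤ ∑ b ∈ S, (k b : ℝ) * h b := by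
      have h2 : ((∑ b ∈ S, (k b : ℤ) * h b : ℤ) : ℝ) = ∑ b ∈ S, (k b : ℝ) * h b := by
        push_cast; rfl
      rw [← h2] at hZ1 ⊢
      have h3 : (0 : ℤ) < ∑ b ∈ S, (k b : ℤ) * h b := by exact_mod_cast hZ1
      exact_mod_cast h3
    have hW : ∑ b ∈ S, (k b : ℝ) * ((l ((d : ℤ) • b) : ℝ) * (d : ℝ) ^ rk (Nd B d) / (2 * D)) ≤ 1 := by
      have h4 : ∑ b ∈ S, (k b : ℝ) * ((l ((d : ℤ) • b) : ℝ) * (d : ℝ) ^ rk (Nd B d) / (2 * D))
          = (∑ b ∈ S, (k b : ℝ) * (l ((d : ℤ) • b) : ℝ)) * (d : ℝ) ^ rk (Nd B d) / (2 * D) := by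
        rw [Finset.sum_mul, Finset.sum_div]
        refine Finset.sum_congr rfl fun b _ => ?_
        ring
      rw [h4, div_le_one hD']
      exact_mod_cast hsum
    have h5 : κ * ∑ b ∈ S, lam b * ((h b : ℝ) -
        (l ((d : ℤ) • b) : ℝ) * (d : ℝ) ^ rk (Nd B d) / (2 * D))
        = ∑ b ∈ S, (k b : ℝ) * h b
          - ∑ b ∈ S, (k b : ℝ) * ((l ((d : ℤ) • b) : ℝ) * (d : ℝ) ^ rk (Nd B d) / (2 * D)) := by
      rw [Finset.mul_sum, ← Finset.sum_sub_distrib]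
      refine Finset.sum_congr rfl fun b hb => ?_
      rw [hk b hb]; ring
    have h6 : 0 ≤ κ * ∑ b ∈ S, lam b * ((h b : ℝ) -
        (l ((d : ℤ) • b) : ℝ) * (d : ℝ) ^ rk (Nd B d) / (2 * D)) := by
      rw [h5]; linarith
    exact nonneg_of_mul_nonneg_right h6 hκ

end Pool.Agent.Work.MP_f22417_co
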