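import Pool.Agent.Work.MP_f22417_co.I1
import Pool.Agent.Work.MP_f22417_co.BAS
import Pool.Agent.Work.MP_f22417_co.FEAS

/-!
# MP_f22417_co, module SUMD: summing the key inequality over `d`
-/

namespace Pool.Agent.Work.MP_f22417_co

open scoped BigOperators

theorem sumd_cont_pos {n : ℕ} {b : Fin n → ℤ} (hb : b ≠ 0) : 0 < cont b := by
  rw [Nat.pos_iff_ne_zero]
  intro h
  apply hb
  unfold cont at h
  rw [Finset.gcd_eq_zero_iff] at h
  funext i
  exact Int.natAbs_eq_zero.1 (h i (Finset.mem_univ i))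

theorem sumd_dvd_cont {n : ℕ} (d : ℕ) (b : Fin n → ℤ) :
    d ∣ cont b ↔ ∀ i, (d : ℤ) ∣ b i := by
  unfold cont
  rw [Finset.dvd_gcd_iff]
  constructor
  · intro h i
    exact Int.natCast_dvd.2 (h i (Finset.mem_univ i))
  · intro h i _
    exact Int.natCast_dvd.1 (h i)

theorem sumd_cont_smul {n : ℕ} (d : ℕ) (b : Fin n → ℤ) :
    cont ((d : ℤ) • b) = d * cont b := by
  unfold cont
  have h : (fun i => (((d : ℤ) • b) i).natAbs) = fun i => d * (b i).natAbs := by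
    funext i
    simp [Int.natAbs_mul]
  rw [h, Finset.gcd_mul_left]
  simp

theorem sumd_step {n : ℕ} (B : Finset (Fin n → ℤ)) (l : (Fin n → ℤ) → ℕ) (D : ℕ) (hD : 0 < D)
    (hneg : ∀ b ∈ B, -b ∈ B) (hC : Cond B l D) (hs : Spans B) (d : ℕ) (hd : 0 < d) :
    (∑ b ∈ Nd B d, (Nat.totient (cont b) : ℝ) / (cont b : ℝ) * (l ((d : ℤ) • b) : ℝ))
      * (d : ℝ) ^ rk (Nd B d) ≤ rk (Nd B d) * (2 * D) := by
  obtain ⟨T, U, hT, hTU, hsp⟩ := bas (Nd B d)
  have hD' : (0 : ℝ) < 2 * D := by positivity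
  have hneg' : ∀ b ∈ Nd B d, -b ∈ Nd B d := by
    intro b hb
    rw [mem_Nd hd] at hb ⊢
    refine ⟨neg_ne_zero.2 hb.1, ?_⟩
    rw [smul_neg]
    exact hneg _ hb.2
  have h0 : (0 : Fin n → ℤ) ∉ Nd B d := fun h => ((mem_Nd hd).1 h).1 rfl
  have hk := key (Nd B d) hneg' h0 T U hT hTU hsp
    (fun b => (l ((d : ℤ) • b) : ℝ) * (d : ℝ) ^ rk (Nd B d) / (2 * D))
    (fun b _ => by positivity) (feas B l D hD hneg hC hs d hd)
  have h1 : ∑ b ∈ Nd B d, (Nat.totient (cont b) : ℝ) / (cont b : ℝ)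
        * ((l ((d : ℤ) • b) : ℝ) * (d : ℝ) ^ rk (Nd B d) / (2 * D))
      = (∑ b ∈ Nd B d, (Nat.totient (cont b) : ℝ) / (cont b : ℝ) * (l ((d : ℤ) • b) : ℝ))
      * (d : ℝ) ^ rk (Nd B d) / (2 * D) := by
    rw [Finset.sum_mul, Finset.sum_div]
    apply Finset.sum_congr rfl
    intro b _
    ring
  rw [h1, div_le_iff₀ hD'] at hk
  exact hk

theorem sumd_biject {n : ℕ} (B : Finset (Fin n → ℤ)) (l : (Fin n → ℤ) → ℕ) (d : ℕ)
    (hd : 0 < d) :
    ∑ b ∈ Nd B d, (Nat.totient (cont b) : ℝ) / (cont b : ℝ) * (l ((d : ℤ) • b) : ℝ)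
      = ∑ b ∈ (B.erase 0).filter (fun b => d ∣ cont b),
        (Nat.totient (cont b / d) : ℝ) / ((cont b / d : ℕ) : ℝ) * (l b : ℝ) := by
  have hd' : (d : ℤ) ≠ 0 := by exact_mod_cast hd.ne'
  apply Finset.sum_bij (fun b _ => (d : ℤ) • b)
  · intro b hb
    obtain ⟨hb0, hbB⟩ := (mem_Nd hd).1 hb
    refine Finset.mem_filter.2 ⟨Finset.mem_erase.2 ⟨?_, hbB⟩, ?_⟩
    · exact smul_ne_zero hd' hb0
    · rw [sumd_cont_smul]
      exact dvd_mul_right _ _
  · intro b _ c _ h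
    exact smul_right_injective _ hd' h
  · intro c hc
    obtain ⟨hc1, hc2⟩ := Finset.mem_filter.1 hc
    obtain ⟨hc0, hcB⟩ := Finset.mem_erase.1 hc1
    have hdvd := (sumd_dvd_cont d c).1 hc2
    have hb' : (d : ℤ) • (fun i => c i / (d : ℤ)) = c := by
      funext i
      simp only [Pi.smul_apply, smul_eq_mul]
      exact Int.mul_ediv_cancel' (hdvd i)
    refine ⟨fun i => c i / (d : ℤ), (mem_Nd hd).2 ⟨?_, by rw [hb']; exact hcB⟩, hb'⟩
    intro h0
    apply hc0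
    rw [← hb', h0, smul_zero]
  · intro b _
    rw [sumd_cont_smul, Nat.mul_div_cancel_left _ hd]

/-- The sum over the divisors. -/
theorem sumd_totient (g G : ℕ) (hg : 0 < g) (hG : g ≤ G) :
    ∑ d ∈ (Finset.Icc 1 G).filter (fun d => d ∣ g),
      (Nat.totient (g / d) : ℝ) / ((g / d : ℕ) : ℝ) / (d : ℝ) = 1 := by
  have hg' : (g : ℝ) ≠ 0 := by exact_mod_cast hg.ne'
  have h1 : (Finset.Icc 1 G).filter (fun d => d ∣ g) = g.divisors := by
    ext d
    simp only [Finset.mem_filter, Finset.mem_Icc, Nat.mem_divisors]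
    constructor
    · rintro ⟨_, h⟩
      exact ⟨h, hg.ne'⟩
    · rintro ⟨h, _⟩
      exact ⟨⟨Nat.pos_of_dvd_of_pos h hg, (Nat.le_of_dvd hg h).trans hG⟩, h⟩
  rw [h1]
  have h2 : ∀ d ∈ g.divisors, (Nat.totient (g / d) : ℝ) / ((g / d : ℕ) : ℝ) / (d : ℝ)
      = (Nat.totient (g / d) : ℝ) / g := by
    intro d hd
    have hdg := Nat.dvd_of_mem_divisors hd
    rw [div_div]
    congr 1
    rw [← Nat.cast_mul, Nat.div_mul_cancel hdg]
  rw [Finset.sum_congr rfl h2, ← Finset.sum_div]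
  have h3 : ∑ d ∈ g.divisors, (Nat.totient (g / d) : ℝ) = (g : ℝ) := by
    rw [← Nat.cast_sum]
    congr 1
    rw [Nat.sum_div_divisors g (fun d => Nat.totient d)]
    exact Nat.sum_totient g
  rw [h3, div_self hg']

theorem sumd {n : ℕ} (B : Finset (Fin n → ℤ)) (l : (Fin n → ℤ) → ℕ) (D : ℕ) (hD : 0 < D)
    (hneg : ∀ b ∈ B, -b ∈ B) (hC : Cond B l D) (hs : Spans B) (G : ℕ)
    (hG : ∀ b ∈ B, cont b ≤ G) :
    (∑ b ∈ B.erase 0, (l b : ℝ)) ≤ 2 * n * D + 2 * D * ∑ d ∈ Finset.Icc 2 G, 1 / (d : ℝ) ^ 2 := by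
  classical
  set S : ℕ → ℝ := fun d => ∑ b ∈ (B.erase 0).filter (fun b => d ∣ cont b),
        (Nat.totient (cont b / d) : ℝ) / ((cont b / d : ℕ) : ℝ) * (l b : ℝ) with hSdef
  have hS0 : ∀ d, 0 ≤ S d := by
    intro d
    apply Finset.sum_nonneg
    intro b _
    positivity
  have hSle : ∀ d, 0 < d → S d * (d : ℝ) ^ rk (Nd B d) ≤ rk (Nd B d) * (2 * D) := by
    intro d hd
    have h1 := sumd_step B l D hD hneg hC hs d hd
    rw [sumd_biject B l d hd] at h1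
    exact h1
  have hS1 : S 1 / (1 : ℕ) ≤ 2 * n * D := by
    have h1 := hSle 1 one_pos
    have h2 : ((rk (Nd B 1) : ℕ) : ℝ) ≤ n := by exact_mod_cast rk_le (Nd B 1)
    rw [Nat.cast_one, one_pow, mul_one] at h1
    rw [Nat.cast_one, div_one]
    have h3 : (rk (Nd B 1) : ℝ) * (2 * D) ≤ n * (2 * D) := by
      apply mul_le_mul_of_nonneg_right h2
      positivity
    calc S 1 ≤ (rk (Nd B 1) : ℝ) * (2 * D) := h1
      _ ≤ n * (2 * D) := h3
      _ = 2 * n * D := by ring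
  have hS2 : ∀ d, 2 ≤ d → S d / d ≤ 2 * D * (1 / (d : ℝ) ^ 2) := by
    intro d hd
    have hd0 : (0 : ℝ) < d := by exact_mod_cast (by omega : 0 < d)
    have h1 := hSle d (by omega)
    set r := rk (Nd B d) with hr
    have h2 : (r : ℝ) * d ≤ (d : ℝ) ^ r := by
      have h3 : r * d ≤ d ^ r := by
        rcases r with _ | k
        · simp
        · rw [pow_succ]
          apply Nat.mul_le_mul_right
          exact Nat.lt_pow_self (by omega)
      exact_mod_cast h3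
    have hpow : (0 : ℝ) < (d : ℝ) ^ r := by positivity
    have h4 : S d * d * (d : ℝ) ^ r ≤ 2 * D * (d : ℝ) ^ r := by
      calc S d * d * (d : ℝ) ^ r = (S d * (d : ℝ) ^ r) * d := by ring
        _ ≤ (r * (2 * D)) * d := by
            apply mul_le_mul_of_nonneg_right h1 hd0.le
        _ = 2 * D * (r * d) := by ring
        _ ≤ 2 * D * (d : ℝ) ^ r := by
            apply mul_le_mul_of_nonneg_left h2
            positivity
    have h5 : S d * d ≤ 2 * D := le_of_mul_le_mul_right h4 hpow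
    rw [mul_one_div, div_le_div_iff₀ hd0 (by positivity)]
    calc S d * (d : ℝ) ^ 2 = (S d * d) * d := by ring
      _ ≤ 2 * D * d := mul_le_mul_of_nonneg_right h5 hd0.le
  have hid : (∑ b ∈ B.erase 0, (l b : ℝ)) = ∑ d ∈ Finset.Icc 1 G, S d / d := by
    have h1 : ∀ b ∈ B.erase 0, (l b : ℝ) = ∑ d ∈ (Finset.Icc 1 G).filter (fun d => d ∣ cont b),
      (Nat.totient (cont b / d) : ℝ) / ((cont b / d : ℕ) : ℝ) / (d : ℝ) * (l b : ℝ) := by
      intro b hb
      obtain ⟨hb0, hbB⟩ := Finset.mem_erase.1 hb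
      rw [← Finset.sum_mul, sumd_totient (cont b) G (sumd_cont_pos hb0) (hG b hbB), one_mul]
    rw [Finset.sum_congr rfl h1]
    simp only [hSdef, Finset.sum_div]
    simp only [Finset.sum_filter]
    rw [Finset.sum_comm]
    apply Finset.sum_congr rfl
    intro d _
    apply Finset.sum_congr rfl
    intro b _
    split_ifs with h
    · ring
    · rfl
  rw [hid]
  have hsub : Finset.Icc 1 G ⊆ insert 1 (Finset.Icc 2 G) := by
    intro d hd
    rw [Finset.mem_Icc] at hd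
    rw [Finset.mem_insert, Finset.mem_Icc]
    omega
  calc ∑ d ∈ Finset.Icc 1 G, S d / d ≤ ∑ d ∈ insert 1 (Finset.Icc 2 G), S d / d := by
        apply Finset.sum_le_sum_of_subset_of_nonneg hsub
        intro d _ _
        exact div_nonneg (hS0 d) (Nat.cast_nonneg d)
    _ = S 1 / (1 : ℕ) + ∑ d ∈ Finset.Icc 2 G, S d / d := by
        rw [Finset.sum_insert (by simp)]
    _ ≤ 2 * n * D + ∑ d ∈ Finset.Icc 2 G, 2 * D * (1 / (d : ℝ) ^ 2) := by
        apply add_le_add hS1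
        apply Finset.sum_le_sum
        intro d hd
        exact hS2 d (Finset.mem_Icc.1 hd).1
    _ = 2 * n * D + 2 * D * ∑ d ∈ Finset.Icc 2 G, 1 / (d : ℝ) ^ 2 := by
        rw [← Finset.mul_sum]

end Pool.Agent.Work.MP_f22417_co
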