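import Pool.Agent.Work.MP_f22417_co.Defs
import Pool.Agent.Work.MP_f22417_co.SUMD

/-! # Module PROF: bounds for profiles -/

namespace Pool.Agent.Work.MP_f22417_co

open scoped BigOperators

theorem prof_cont_dvd {n : ℕ} (b : Fin n → ℤ) (i : Fin n) : (cont b : ℤ) ∣ b i := by
  have h : cont b ∣ (b i).natAbs := Finset.gcd_dvd (Finset.mem_univ i)
  exact Int.natCast_dvd.2 h

/-- If `det T ≠ 0` and `b ≠ 0` then some `det (update T i b) ≠ 0`. -/
theorem prof_exists_update_det_ne {n : ℕ} (T : Fin n → (Fin n → ℤ)) (hT : (Matrix.of T).det ≠ 0)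
    (b : Fin n → ℤ) (hb : b ≠ 0) :
    ∃ i, (Matrix.of (Function.update T i b)).det ≠ 0 := by
  by_contra hcon
  push Not at hcon
  apply hb
  -- Cramer for the transpose
  have h1 : Matrix.cramer (Matrix.of T).transpose b = 0 := by
    funext i
    rw [Matrix.cramer_transpose_apply]
    have : (Matrix.of T).updateRow i b = Matrix.of (Function.update T i b) := rfl
    rw [this, hcon i]; rfl
  have h2 := Matrix.mulVec_cramer (Matrix.of T).transpose b
  rw [h1, Matrix.mulVec_zero, Matrix.det_transpose] at h2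
  rcases smul_eq_zero.1 h2.symm with h | h
  · exact absurd h hT
  · exact h

theorem prof_cont_le_of_bd {n : ℕ} (B : Finset (Fin n → ℤ)) (δ : ℕ) (hδ : Bd B δ)
    (T : Fin n → (Fin n → ℤ)) (hT : ∀ i, T i ∈ B) (hdet : (Matrix.of T).det ≠ 0)
    (b : Fin n → ℤ) (hb : b ∈ B) : cont b ≤ δ := by
  by_cases hb0 : b = 0
  · subst hb0
    have : cont (0 : Fin n → ℤ) = 0 := by
      unfold cont
      rw [Finset.gcd_eq_zero_iff]
      intro i _; simp
    omega
  obtain ⟨i, hi⟩ := prof_exists_update_det_ne T hdet b hb0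
  have hmem : ∀ j, Function.update T i b j ∈ B := by
    intro j
    by_cases hj : j = i
    · subst hj; simpa using hb
    · rw [Function.update_of_ne hj]; exact hT j
  have h1 := hδ _ hmem
  -- b = cont b • u
  obtain ⟨u, hu⟩ : ∃ u : Fin n → ℤ, b = (cont b : ℤ) • u := by
    choose u hu using fun i => prof_cont_dvd b i
    exact ⟨u, funext fun i => by simpa using hu i⟩
  have h2 : (Matrix.of (Function.update T i b)).det
      = (cont b : ℤ) * (Matrix.of (Function.update T i u)).det := by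
    have e1 : Matrix.of (Function.update T i b) = (Matrix.of T).updateRow i ((cont b : ℤ) • u) := by
      rw [← hu]; rfl
    have e2 : Matrix.of (Function.update T i u) = (Matrix.of T).updateRow i u := rfl
    rw [e1, e2, Matrix.det_updateRow_smul]
  have h3 : (cont b : ℤ) ∣ (Matrix.of (Function.update T i b)).det := ⟨_, h2⟩
  have h4 : (cont b : ℤ) ≤ |(Matrix.of (Function.update T i b)).det| :=
    Int.le_of_dvd (abs_pos.2 hi) ((dvd_abs _ _).2 h3)
  have h5 := le_trans h4 h1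
  exact_mod_cast h5

theorem prof_sum_inv_sq (δ : ℕ) (hδ : 2 ≤ δ) :
    ∑ d ∈ Finset.Icc 2 δ, 1 / (d : ℝ) ^ 2 ≤ 3 / 4 - 1 / (δ : ℝ) := by
  induction δ, hδ using Nat.le_induction with
  | base => norm_num
  | succ k hk ih =>
    rw [Finset.sum_Icc_succ_top (by omega)]
    have hk' : (0 : ℝ) < k := by
      have : 0 < k := by omega
      exact_mod_cast this
    have h1 : (1 : ℝ) / ((k + 1 : ℕ) : ℝ) ^ 2 ≤ 1 / k - 1 / ((k + 1 : ℕ) : ℝ) := by
      push_cast
      rw [div_sub_div _ _ hk'.ne' (by positivity), div_le_div_iff₀ (by positivity) (by positivity)]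
      nlinarith
    linarith

theorem prof {n : ℕ} (B : Finset (Fin n → ℤ)) (l : (Fin n → ℤ) → ℕ) (D : ℕ) (hD : 0 < D)
    (h0 : 0 ∈ B) (hneg : ∀ b ∈ B, -b ∈ B) (hC : Cond B l D) (hs : Spans B)
    (δ : ℕ) (hδ : Bd B δ) (hδ' : ∃ T : Fin n → (Fin n → ℤ), (∀ i, T i ∈ B) ∧
      |(Matrix.of T).det| = (δ : ℤ)) :
    (δ = 1 → ∑ b ∈ B, l b ≤ 2 * (n + 1) * D) ∧
    (2 ≤ δ → 2 * ∑ b ∈ B, l b + D ≤ 4 * (n + 1) * D) := by
  obtain ⟨T, hT, hTδ⟩ := hδ'
  have hDR : (0 : ℝ) < D := by exact_mod_cast hD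
  -- the zero fibre
  have hz : (δ : ℤ) * (l 0 : ℤ) ≤ 2 * D := by
    have h1 := hC T hT 0 h0
    rw [hTδ] at h1
    have h2 : 0 ≤ ∑ i, |(Matrix.of (Function.update T i 0)).det| * (l (T i) : ℤ) :=
      Finset.sum_nonneg fun i _ => mul_nonneg (abs_nonneg _) (by positivity)
    linarith
  have hzR : (δ : ℝ) * (l 0 : ℝ) ≤ 2 * D := by exact_mod_cast hz
  have hsplit : ∑ b ∈ B, l b = l 0 + ∑ b ∈ B.erase 0, l b := by
    rw [Finset.add_sum_erase B l h0]
  -- contents
  have hcont : 1 ≤ δ → ∀ b ∈ B, cont b ≤ δ := by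
    intro hδ1 b hb
    refine prof_cont_le_of_bd B δ hδ T hT ?_ b hb
    intro hdet
    rw [hdet, abs_zero] at hTδ
    have : δ = 0 := by exact_mod_cast hTδ.symm
    omega
  constructor
  · intro h1
    have hmain := sumd B l D hD hneg hC hs δ (hcont (by omega))
    subst h1
    have he : Finset.Icc 2 1 = (∅ : Finset ℕ) := by decide
    rw [he, Finset.sum_empty, mul_zero, add_zero] at hmain
    have h2 : ((∑ b ∈ B, l b : ℕ) : ℝ) ≤ ((2 * (n + 1) * D : ℕ) : ℝ) := by
      rw [hsplit]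
      push_cast
      push_cast at hzR
      nlinarith
    exact_mod_cast h2
  · intro h2
    have hmain := sumd B l D hD hneg hC hs δ (hcont (by omega))
    have hsq := prof_sum_inv_sq δ h2
    have hδR : (0 : ℝ) < δ := by
      have : 0 < δ := by omega
      exact_mod_cast this
    have hz2 : (l 0 : ℝ) ≤ 2 * D * (1 / δ) := by
      rw [mul_one_div, le_div_iff₀ hδR]
      linarith
    have hm2 : (∑ b ∈ B.erase 0, (l b : ℝ)) ≤ 2 * n * D + 2 * D * (3 / 4 - 1 / δ) := by
      refine le_trans hmain ?_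
      have := mul_le_mul_of_nonneg_left hsq (by linarith : (0 : ℝ) ≤ 2 * D)
      linarith
    have h3 : ((2 * ∑ b ∈ B, l b + D : ℕ) : ℝ) ≤ ((4 * (n + 1) * D : ℕ) : ℝ) := by
      rw [hsplit]
      push_cast
      nlinarith
    exact_mod_cast h3

end Pool.Agent.Work.MP_f22417_co
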