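import Pool.Agent.Work.MP_f22417_co.Defs

/-!
# Module UNIM: a primitive integer vector is the first vector of a basis
-/

namespace Pool.Agent.Work.MP_f22417_co

open scoped BigOperators

theorem exists_bezout_of_prim {n : ℕ} (v : Fin (n + 1) → ℤ)
    (hprim : ∀ (k : ℕ) (u : Fin (n + 1) → ℤ), v = (k : ℤ) • u → k = 1) :
    ∃ c : Fin (n + 1) → ℤ, ∑ i, c i * v i = 1 := by
  classical
  obtain ⟨g, hg⟩ := (IsPrincipalIdealRing.principal (Ideal.span (Set.range v))).principal
  have hg' : Ideal.span (Set.range v) = Ideal.span {g} := hg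
  have hdiv : ∀ i, g ∣ v i := by
    intro i
    have : v i ∈ Ideal.span (Set.range v) := Ideal.subset_span ⟨i, rfl⟩
    rw [hg'] at this
    exact Ideal.mem_span_singleton.1 this
  choose u hu using hdiv
  have h1 : g.natAbs = 1 := by
    apply hprim g.natAbs (fun i => g.sign * u i)
    funext i
    simp only [Pi.smul_apply, smul_eq_mul]
    rw [← mul_assoc, Int.natCast_natAbs, mul_comm (|g|) g.sign, Int.sign_mul_abs]
    exact hu i
  have hu1 : IsUnit g := Int.isUnit_iff_natAbs_eq.2 h1
  have htop : Ideal.span (Set.range v) = ⊤ := by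
    rw [hg']
    exact Ideal.span_singleton_eq_top.2 hu1
  have hone : (1 : ℤ) ∈ Ideal.span (Set.range v) := by rw [htop]; trivial
  obtain ⟨c, hc⟩ := Ideal.mem_span_range_iff_exists_fun.1 hone
  exact ⟨c, hc⟩

theorem unim {n : ℕ} (v : Fin (n + 1) → ℤ) (_hv : v ≠ 0)
    (hprim : ∀ (k : ℕ) (u : Fin (n + 1) → ℤ), v = (k : ℤ) • u → k = 1) :
    ∃ e : (Fin (n + 1) → ℤ) ≃ₗ[ℤ] (Fin (n + 1) → ℤ), e v = Pi.single 0 1 := by
  classical
  obtain ⟨c, hc⟩ := exists_bezout_of_prim v hprim
  let f : (Fin (n + 1) → ℤ) →ₗ[ℤ] ℤ := Fintype.linearCombination ℤ c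
  have hf : f v = 1 := by
    simp only [f, Fintype.linearCombination_apply, smul_eq_mul]
    rw [← hc]
    exact Finset.sum_congr rfl (fun i _ => mul_comm _ _)
  let E : (Fin (n + 1) → ℤ) ≃ₗ[ℤ] ℤ × LinearMap.ker f :=
    { toFun := fun x => (f x, ⟨x - f x • v, by
        rw [LinearMap.mem_ker, map_sub, map_smul, hf]; simp⟩)
      invFun := fun p => p.1 • v + (p.2 : Fin (n + 1) → ℤ)
      map_add' := by
        intro x y
        refine Prod.ext (map_add f x y) (Subtype.ext ?_)
        simp only [map_add, Prod.snd_add, Submodule.coe_add]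
        rw [add_smul]
        abel
      map_smul' := by
        intro a x
        refine Prod.ext (map_smul f a x) (Subtype.ext ?_)
        simp only [map_smul, RingHom.id_apply, Prod.smul_snd, Submodule.coe_smul]
        rw [smul_sub, smul_assoc]
      left_inv := by
        intro x
        simp
      right_inv := by
        rintro ⟨a, k⟩
        have hk : f (k : Fin (n + 1) → ℤ) = 0 := LinearMap.mem_ker.1 k.2
        have h2 : f (a • v + (k : Fin (n + 1) → ℤ)) = a := by
          rw [map_add, map_smul, hf, hk]; simp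
        refine Prod.ext h2 (Subtype.ext ?_)
        simp only
        rw [h2]
        simp }
  have hfr : Module.finrank ℤ (LinearMap.ker f) = n := by
    have h := E.finrank_eq
    rw [Module.finrank_prod, Module.finrank_self, Module.finrank_fin_fun] at h
    omega
  let b : Module.Basis (Fin n) ℤ (LinearMap.ker f) := Module.finBasisOfFinrankEq ℤ _ hfr
  let F : (ℤ × (Fin n → ℤ)) ≃ₗ[ℤ] (Fin (n + 1) → ℤ) := Fin.consLinearEquiv ℤ (fun _ => ℤ)
  refine ⟨E.trans (((LinearEquiv.refl ℤ ℤ).prodCongr b.equivFun).trans F), ?_⟩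
  have hEv : E v = (1, 0) := by
    refine Prod.ext hf (Subtype.ext ?_)
    change v - f v • v = 0
    rw [hf]; simp
  rw [LinearEquiv.trans_apply, LinearEquiv.trans_apply, hEv]
  funext i
  refine Fin.cases ?_ (fun j => ?_) i
  · simp [F]
  · simp [F]

theorem det_equiv {m : ℕ} (e : (Fin m → ℤ) ≃ₗ[ℤ] (Fin m → ℤ)) (v : Fin m → (Fin m → ℤ)) :
    |(Matrix.of (fun i => e (v i))).det| = |(Matrix.of v).det| := by
  classical
  have h : Matrix.of (fun i => e (v i))
      = Matrix.of v * (LinearMap.toMatrix' (e : (Fin m → ℤ) →ₗ[ℤ] (Fin m → ℤ))).transpose := by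
    ext i j
    have h1 : e (v i) = (LinearMap.toMatrix' (e : (Fin m → ℤ) →ₗ[ℤ] (Fin m → ℤ))).mulVec (v i) := by
      rw [LinearMap.toMatrix'_mulVec]
      rfl
    simp only [Matrix.of_apply, Matrix.mul_apply, Matrix.transpose_apply]
    rw [h1]
    simp only [Matrix.mulVec, dotProduct]
    exact Finset.sum_congr rfl (fun k _ => mul_comm _ _)
  rw [h, Matrix.det_mul, Matrix.det_transpose, abs_mul, LinearMap.det_toMatrix']
  have hu : IsUnit (LinearMap.det (e : (Fin m → ℤ) →ₗ[ℤ] (Fin m → ℤ))) := e.isUnit_det'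
  rw [Int.isUnit_iff_abs_eq.1 hu, mul_one]

end Pool.Agent.Work.MP_f22417_co
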