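import Pool.Agent.Work.MP_f22417_co.Defs
import Pool.Agent.Work.MP_f22417_co.UNIM

/-! # MP_f22417_co: standard position (helper58) -/

namespace Pool.Agent.Work.MP_f22417_co

theorem bd_image {m : ℕ} {A : Finset (Fin m → ℤ)} {D : ℕ} (hA : Bd A D)
    (e : (Fin m → ℤ) ≃ₗ[ℤ] (Fin m → ℤ)) : Bd (A.image e) D := by
  intro w hw
  have h1 : ∀ i, ∃ a ∈ A, e a = w i := fun i => Finset.mem_image.1 (hw i)
  choose v hv hvw using h1
  have h2 : w = fun i => e (v i) := by
    funext i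
    rw [hvw]
  rw [h2, det_equiv]
  exact hA v hv

theorem spans_image {m : ℕ} {A : Finset (Fin m → ℤ)} (hA : Spans A)
    (e : (Fin m → ℤ) ≃ₗ[ℤ] (Fin m → ℤ)) : Spans (A.image e) := by
  obtain ⟨v, hv, hd⟩ := hA
  refine ⟨fun i => e (v i), fun i => Finset.mem_image_of_mem e (hv i), ?_⟩
  intro h
  apply hd
  rw [← abs_eq_zero, ← det_equiv e v, abs_eq_zero]
  exact h

theorem latConv_image {m : ℕ} {A : Finset (Fin m → ℤ)} (hA : LatConv A)
    (e : (Fin m → ℤ) ≃ₗ[ℤ] (Fin m → ℤ)) : LatConv (A.image e) where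
  zero := Finset.mem_image.2 ⟨0, hA.zero, map_zero e⟩
  neg := by
    intro x hx
    obtain ⟨a, ha, rfl⟩ := Finset.mem_image.1 hx
    exact Finset.mem_image.2 ⟨-a, hA.neg a ha, map_neg e a⟩
  seg := by
    intro x hx y hy z p q hpq h
    obtain ⟨a, ha, rfl⟩ := Finset.mem_image.1 hx
    obtain ⟨b, hb, rfl⟩ := Finset.mem_image.1 hy
    refine Finset.mem_image.2 ⟨e.symm z, hA.seg a ha b hb (e.symm z) p q hpq ?_,
      e.apply_symm_apply z⟩
    apply e.injective
    rw [map_smul, e.apply_symm_apply, h, map_add, map_smul, map_smul]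

theorem std {n : ℕ} (A : Finset (Fin (n + 1) → ℤ)) (D : ℕ) (hA : Bd A D) (hc : LatConv A)
    (hs : Spans A) :
    ∃ (A' : Finset (Fin (n + 1) → ℤ)) (t : ℕ), A'.card = A.card ∧ Bd A' D ∧ LatConv A' ∧
      Spans A' ∧ 1 ≤ t ∧ Fin.cons (t : ℤ) 0 ∈ A' ∧
      ∀ w : Fin (n + 1) → ℤ, w ≠ 0 → ((t : ℤ) + 1) • w ∉ A' := by
  classical
  -- a nonzero vector
  obtain ⟨v₀, hv₀A, hv₀⟩ : ∃ v : Fin (n + 1) → ℤ, v ∈ A ∧ v ≠ 0 := by
    obtain ⟨v, hv, hd⟩ := hs
    refine ⟨v 0, hv 0, fun h0 => hd ?_⟩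
    exact Matrix.det_eq_zero_of_row_eq_zero 0 (fun j => by
      rw [Matrix.of_apply, h0]; rfl)
  let P : ℕ → Prop := fun t => ∃ v : Fin (n + 1) → ℤ, v ≠ 0 ∧ (t : ℤ) • v ∈ A
  let M : ℕ := A.sup (fun x => Finset.univ.sup (fun i => (x i).natAbs))
  have hM : ∀ k, P k → k ≤ M := by
    rintro k ⟨v, hv, hkv⟩
    obtain ⟨i, hi⟩ : ∃ i, v i ≠ 0 := by
      by_contra h
      push Not at h
      exact hv (funext h)
    have h1 : ((k : ℤ) • v) i = k * v i := rfl
    have h2 : (((k : ℤ) • v) i).natAbs ≤ M :=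
      le_trans (Finset.le_sup (f := fun i => (((k : ℤ) • v) i).natAbs) (Finset.mem_univ i))
        (Finset.le_sup (f := fun x : Fin (n + 1) → ℤ =>
          Finset.univ.sup (fun i => (x i).natAbs)) hkv)
    rw [h1, Int.natAbs_mul, Int.natAbs_natCast] at h2
    have h3 : 1 ≤ (v i).natAbs := Int.natAbs_pos.2 hi
    nlinarith
  let t := Nat.findGreatest P M
  have hP1 : P 1 := ⟨v₀, hv₀, by simpa using hv₀A⟩
  have hPt : P t := Nat.findGreatest_spec (hM 1 hP1) hP1
  have hmax : ∀ k, P k → k ≤ t := fun k hk => Nat.le_findGreatest (hM k hk) hk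
  have ht1 : 1 ≤ t := hmax 1 hP1
  obtain ⟨v, hv, htv⟩ := hPt
  have hprim : ∀ (k : ℕ) (u : Fin (n + 1) → ℤ), v = (k : ℤ) • u → k = 1 := by
    intro k u hku
    have hu : u ≠ 0 := by
      rintro rfl
      exact hv (by rw [hku, smul_zero])
    have hk0 : k ≠ 0 := by
      rintro rfl
      apply hv
      rw [hku]
      simp
    have h1 : P (t * k) := by
      refine ⟨u, hu, ?_⟩
      rw [hku, smul_smul] at htv
      push_cast
      exact htv
    have h2 := hmax _ h1
    have h3 : k ≤ 1 := by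
      by_contra h
      push Not at h
      nlinarith
    omega
  obtain ⟨e, he⟩ := unim v hv hprim
  refine ⟨A.image e, t, Finset.card_image_of_injective A e.injective, bd_image hA e,
    latConv_image hc e, spans_image hs e, ht1, ?_, ?_⟩
  · refine Finset.mem_image.2 ⟨(t : ℤ) • v, htv, ?_⟩
    rw [map_smul, he]
    funext i
    refine Fin.cases ?_ (fun j => ?_) i
    · simp
    · simp
  · intro w hw hwA
    obtain ⟨a, ha, hae⟩ := Finset.mem_image.1 hwA
    have h1 : P (t + 1) := by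
      refine ⟨e.symm w, ?_, ?_⟩
      · intro h0
        apply hw
        rw [← e.apply_symm_apply w, h0, map_zero]
      · have : ((t + 1 : ℕ) : ℤ) • e.symm w = a := by
          apply e.injective
          rw [map_smul, e.apply_symm_apply, hae]
          push_cast
          rfl
        rw [this]
        exact ha
    have := hmax _ h1
    omega

end Pool.Agent.Work.MP_f22417_co
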