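import Pool.Agent.Work.MP_f22417_co.Defs
import Pool.Agent.Work.MP_f22417_co.HULL
import Pool.Agent.Work.MP_f22417_co.STD
import Pool.Agent.Work.MP_f22417_co.MODT
import Pool.Agent.Work.MP_f22417_co.FIB
import Pool.Agent.Work.MP_f22417_co.PROF
import Pool.Agent.Work.MP_f22417_co.LB

/-! # Module ASM: assembly of the upper bounds -/

namespace Pool.Agent.Work.MP_f22417_co

open scoped BigOperators

theorem exists_maxminor {n : ℕ} (B : Finset (Fin n → ℤ)) (hs : Spans B) :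
    ∃ δ : ℕ, 1 ≤ δ ∧ Bd B δ ∧ ∃ T : Fin n → (Fin n → ℤ), (∀ i, T i ∈ B) ∧
      |(Matrix.of T).det| = (δ : ℤ) := by
  obtain ⟨v, hv, hdet⟩ := hs
  have hne : (Fintype.piFinset (fun _ : Fin n => B)).Nonempty :=
    ⟨v, Fintype.mem_piFinset.2 hv⟩
  obtain ⟨T, hT, hmax⟩ := Finset.exists_max_image (Fintype.piFinset (fun _ : Fin n => B))
    (fun T => |(Matrix.of T).det|) hne
  refine ⟨(Matrix.of T).det.natAbs, ?_, ?_, T, Fintype.mem_piFinset.1 hT, ?_⟩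
  · have h1 := hmax v (Fintype.mem_piFinset.2 hv)
    have h2 : 0 < |(Matrix.of v).det| := abs_pos.2 hdet
    have h3 : 0 < |(Matrix.of T).det| := lt_of_lt_of_le h2 h1
    have h4 : (Matrix.of T).det ≠ 0 := abs_pos.1 h3
    exact Int.natAbs_pos.2 h4
  · intro u hu
    have h1 := hmax u (Fintype.mem_piFinset.2 hu)
    simp only [Int.natCast_natAbs]
    exact h1
  · simp

theorem spans_mono {m : ℕ} {S A : Finset (Fin m → ℤ)} (h : S ⊆ A) (hs : Spans S) : Spans A := by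
  obtain ⟨v, hv, hdet⟩ := hs
  exact ⟨v, fun i => h (hv i), hdet⟩

/-- Everything needed about one projection step. -/
theorem step {n : ℕ} (A : Finset (Fin (n + 1) → ℤ)) (D : ℕ) (hA : Bd A D) (hs : Spans A) :
    ∃ (B : Finset (Fin n → ℤ)) (δ t s N : ℕ), A.card ≤ N ∧ 1 ≤ δ ∧ 1 ≤ t ∧ Bd B δ ∧ Spans B ∧
      t * δ ≤ D ∧ N = B.card + s ∧ N ≤ (2 * (t + 1)) ^ (n + 1) ∧
      (δ = 1 → s ≤ 2 * (n + 1) * D) ∧ (2 ≤ δ → 2 * s + D ≤ 4 * (n + 1) * D) := by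
  obtain ⟨A₁, hsub, hA₁, hc₁⟩ := hull A D hA
  obtain ⟨A₂, t, hcard, hA₂, hc₂, hs₂, ht1, htA, htmax⟩ := std A₁ D hA₁ hc₁ (spans_mono hsub hs)
  obtain ⟨B, l, hC, h0, hneg, hlneg, hsB, hcardB, htdet⟩ := fib A₂ D hA₂ hc₂ hs₂
  obtain ⟨δ, hδ1, hδ, hδ'⟩ := exists_maxminor B hsB
  have htδ : t * δ ≤ D := by
    obtain ⟨T, hT, hTδ⟩ := hδ'
    have := htdet t htA T hT
    rw [hTδ] at this
    exact_mod_cast this
  have hD : 0 < D := lt_of_lt_of_le (Nat.mul_pos ht1 hδ1) htδ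
  have hprof := prof B l D hD h0 hneg hC hsB δ hδ hδ'
  refine ⟨B, δ, t, ∑ b ∈ B, l b, A₂.card, ?_, hδ1, ht1, hδ, hsB, htδ, hcardB,
    modt A₂ hc₂ t htmax, hprof.1, hprof.2⟩
  rw [hcard]
  exact Finset.card_le_card hsub

theorem pos_of_spans {m : ℕ} {A : Finset (Fin m → ℤ)} {D : ℕ} (hA : Bd A D) (hs : Spans A) :
    1 ≤ D := by
  obtain ⟨v, hv, hdet⟩ := hs
  have h1 := hA v hv
  have h2 : 0 < |(Matrix.of v).det| := abs_pos.2 hdet
  have h3 : (0 : ℤ) < D := lt_of_lt_of_le h2 h1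
  exact_mod_cast h3

theorem bound_all (m : ℕ) : ∀ (A : Finset (Fin m → ℤ)) (D : ℕ), Bd A D → Spans A →
    A.card ≤ (m ^ 2 + m + 1) * D := by
  induction m with
  | zero =>
    intro A D hA hs
    have h1 : A.card ≤ 1 := Finset.card_le_one_of_subsingleton A
    have h2 := pos_of_spans hA hs
    nlinarith
  | succ n ih =>
    intro A D hA hs
    obtain ⟨B, δ, t, s, N, hN, hδ1, ht1, hBδ, hsB, htδ, hNs, -, hp1, hp2⟩ := step A D hA hs
    have hB := ih B δ hBδ hsB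
    have hδD : δ ≤ D := le_trans (Nat.le_mul_of_pos_left δ ht1) htδ
    have hs' : s ≤ 2 * (n + 1) * D := by
      rcases Nat.lt_or_ge δ 2 with h | h
      · exact hp1 (by omega)
      · have := hp2 h
        nlinarith
    have hB' : B.card ≤ (n ^ 2 + n + 1) * D := le_trans hB (Nat.mul_le_mul_left _ hδD)
    calc A.card ≤ N := hN
      _ = B.card + s := hNs
      _ ≤ (n ^ 2 + n + 1) * D + 2 * (n + 1) * D := Nat.add_le_add hB' hs'
      _ = ((n + 1) ^ 2 + (n + 1) + 1) * D := by ring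

theorem bound_large (m : ℕ) (hm : 0 < m) (A : Finset (Fin m → ℤ)) (D : ℕ) (hA : Bd A D)
    (hs : Spans A) (hD : (4 * (m ^ 2 - m + 1)) ^ m ≤ D) :
    A.card ≤ m ^ 2 + m + 1 + 2 * m * (D - 1) := by
  obtain ⟨n, rfl⟩ : ∃ n, m = n + 1 := ⟨m - 1, by omega⟩
  have hm2 : (n + 1) ^ 2 - (n + 1) + 1 = n ^ 2 + n + 1 := by
    have : (n + 1) ^ 2 = (n ^ 2 + n) + (n + 1) := by ring
    rw [this]; omega
  rw [hm2] at hD
  have hD1 := pos_of_spans hA hs
  obtain ⟨D', rfl⟩ : ∃ D', D = D' + 1 := ⟨D - 1, by omega⟩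
  have hgoal : (n + 1) ^ 2 + (n + 1) + 1 + 2 * (n + 1) * (D' + 1 - 1)
      = (n ^ 2 + n + 1) + 2 * (n + 1) * (D' + 1) := by
    rw [Nat.add_sub_cancel]; ring
  rw [hgoal]
  obtain ⟨B, δ, t, s, N, hN, hδ1, ht1, hBδ, hsB, htδ, hNs, hNt, hp1, hp2⟩ :=
    step A (D' + 1) hA hs
  have hB := bound_all n B δ hBδ hsB
  refine le_trans hN ?_
  rcases Nat.lt_or_ge δ 2 with h | h
  · have h1 : δ = 1 := by omega
    have h2 := hp1 h1
    rw [h1, mul_one] at hB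
    rw [hNs]
    exact Nat.add_le_add hB h2
  · have h2 := hp2 h
    rcases Nat.lt_or_ge t (2 * (n ^ 2 + n + 1)) with ht | ht
    · have h3 : 2 * (t + 1) ≤ 4 * (n ^ 2 + n + 1) := by omega
      have h4 : N ≤ D' + 1 := le_trans hNt (le_trans (Nat.pow_le_pow_left h3 _) hD)
      have h5 : D' + 1 ≤ 2 * (n + 1) * (D' + 1) := Nat.le_mul_of_pos_left _ (by omega)
      omega
    · have h3 : 2 * (n ^ 2 + n + 1) * δ ≤ D' + 1 := le_trans (Nat.mul_le_mul_right _ ht) htδ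
      have h4 : 2 * B.card ≤ D' + 1 := by nlinarith
      have h5 : 2 * N ≤ 4 * (n + 1) * (D' + 1) := by omega
      have h6 : N ≤ 2 * (n + 1) * (D' + 1) := by nlinarith
      omega

end Pool.Agent.Work.MP_f22417_co
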