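import Mathlib

/-!
# Definitions for MP_f22417_co (generalized Heller constant)

`A` finite set of integer vectors; `Bd A D`: all maximal minors are at most `D` in absolute value.
-/

namespace Pool.Agent.Work.MP_f22417_co

open scoped BigOperators
open MeasureTheory

/-- All `m × m` determinants with rows in `S` are at most `D` in absolute value. -/
def Bd {m : ℕ} (S : Finset (Fin m → ℤ)) (D : ℕ) : Prop :=
  ∀ v : Fin m → (Fin m → ℤ), (∀ i, v i ∈ S) → |(Matrix.of v).det| ≤ (D : ℤ)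

/-- Some `m × m` determinant with rows in `S` is nonzero. -/
def Spans {m : ℕ} (S : Finset (Fin m → ℤ)) : Prop :=
  ∃ v : Fin m → (Fin m → ℤ), (∀ i, v i ∈ S) ∧ (Matrix.of v).det ≠ 0

/-- `S` contains `0`, is symmetric, and contains every integer point which is a rational
convex combination of two of its points. -/
structure LatConv {m : ℕ} (S : Finset (Fin m → ℤ)) : Prop where
  zero : (0 : Fin m → ℤ) ∈ S
  neg : ∀ x ∈ S, -x ∈ S
  seg : ∀ x ∈ S, ∀ y ∈ S, ∀ z : Fin m → ℤ, ∀ p q : ℕ, 0 < p + q →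
    ((p : ℤ) + q) • z = (p : ℤ) • x + (q : ℤ) • y → z ∈ S

/-- The pairing of an integer vector with a real vector. -/
def dot {n : ℕ} (b : Fin n → ℤ) (x : Fin n → ℝ) : ℝ := ∑ i, (b i : ℝ) * x i

/-- The content (gcd of the entries) of an integer vector. -/
def cont {n : ℕ} (b : Fin n → ℤ) : ℕ := Finset.univ.gcd (fun i => (b i).natAbs)

/-- The fibre inequality: for all `n + 1` points `c, T 0, …, T (n-1)` of `B`,
`∑ |minor omitting b| * l b ≤ 2 D`. -/
def Cond {n : ℕ} (B : Finset (Fin n → ℤ)) (l : (Fin n → ℤ) → ℕ) (D : ℕ) : Prop :=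
  ∀ T : Fin n → (Fin n → ℤ), (∀ i, T i ∈ B) → ∀ c ∈ B,
    |(Matrix.of T).det| * (l c : ℤ)
      + ∑ i, |(Matrix.of (Function.update T i c)).det| * (l (T i) : ℤ) ≤ 2 * (D : ℤ)

/-- Whenever the strict system `⟨b, x⟩ < h b` is solvable with integer right-hand sides, so is
`⟨b, y⟩ ≤ h b - w b`. -/
def Feas {n : ℕ} (N : Finset (Fin n → ℤ)) (w : (Fin n → ℤ) → ℝ) : Prop :=
  ∀ (h : (Fin n → ℤ) → ℤ) (x : Fin n → ℝ), (∀ b ∈ N, dot b x < h b) →
    ∃ y : Fin n → ℝ, ∀ b ∈ N, dot b y + w b ≤ h b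

/-- The real span of a set of integer vectors. -/
def rspan {n : ℕ} (N : Finset (Fin n → ℤ)) : Submodule ℝ (Fin n → ℝ) :=
  Submodule.span ℝ ((fun b : Fin n → ℤ => (fun i => (b i : ℝ))) '' (N : Set (Fin n → ℤ)))

/-- The rank of a set of integer vectors. -/
noncomputable def rk {n : ℕ} (N : Finset (Fin n → ℤ)) : ℕ := Module.finrank ℝ (rspan N)

/-- The nonzero vectors `β` with `d • β ∈ B`. -/
def Nd {n : ℕ} (B : Finset (Fin n → ℤ)) (d : ℕ) : Finset (Fin n → ℤ) :=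
  (B.filter (fun b => b ≠ 0 ∧ ∀ i, (d : ℤ) ∣ b i)).image (fun b i => b i / (d : ℤ))

/-- The integers coprime to `g`, preceded by half-open arcs of length `c`. -/
def arcs (g : ℕ) (c : ℝ) : Set ℝ := {t | ∃ j : ℤ, Int.gcd j g = 1 ∧ t < j ∧ (j : ℝ) < t + c}

/-- The points avoiding all slabs. -/
def good {n : ℕ} (N : Finset (Fin n → ℤ)) (w : (Fin n → ℤ) → ℝ) (ε : ℝ) : Set (Fin n → ℝ) :=
  {z | ∀ b ∈ N, dot b z ∉ arcs (cont b) (ε * w b)}

/-- The box `(a, b]^n`. -/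
def box (n : ℕ) (a b : ℝ) : Set (Fin n → ℝ) := Set.pi Set.univ (fun _ => Set.Ioc a b)

theorem mem_Nd {n : ℕ} {B : Finset (Fin n → ℤ)} {d : ℕ} (hd : 0 < d) {β : Fin n → ℤ} :
    β ∈ Nd B d ↔ β ≠ 0 ∧ (d : ℤ) • β ∈ B := by
  have hd' : (d : ℤ) ≠ 0 := by exact_mod_cast hd.ne'
  constructor
  · intro h
    obtain ⟨b, hb, rfl⟩ := Finset.mem_image.1 h
    obtain ⟨hbB, hb0, hdvd⟩ := Finset.mem_filter.1 hb
    have hb' : (d : ℤ) • (fun i => b i / (d : ℤ)) = b := by
      funext i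
      simp only [Pi.smul_apply, smul_eq_mul]
      exact Int.mul_ediv_cancel' (hdvd i)
    refine ⟨?_, by rw [hb']; exact hbB⟩
    intro h0
    apply hb0
    rw [← hb', h0, smul_zero]
  · rintro ⟨h0, hB⟩
    refine Finset.mem_image.2 ⟨(d : ℤ) • β, Finset.mem_filter.2 ⟨hB, ?_, ?_⟩, ?_⟩
    · intro h
      rcases smul_eq_zero.1 h with h | h
      · exact hd' h
      · exact h0 h
    · intro i
      exact ⟨β i, by simp⟩
    · funext i
      simp only [Pi.smul_apply, smul_eq_mul]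
      exact Int.mul_ediv_cancel_left _ hd'

end Pool.Agent.Work.MP_f22417_co
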