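import Mathlib

open MeasureTheory Set

namespace Pool.Agent.Work.MP_f22417_co.Volume

/-- inner product of an integer vector and a real vector -/
def ip {r : ℕ} (b : Fin r → ℤ) (x : Fin r → ℝ) : ℝ := ∑ i, (b i : ℝ) * x i

/-- content of an integer vector -/
def ct {r : ℕ} (b : Fin r → ℤ) : ℕ := Finset.univ.gcd fun i => (b i).natAbs

abbrev Circ := UnitAddCircle

/-- one dimensional slab pattern -/
def P (g : ℕ) (w : ℝ) : Set ℝ :=
  {t | ∃ j : ℤ, Int.gcd j g = 1 ∧ ((j : ℝ) - w) / g < t ∧ t < (j : ℝ) / g}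

/-- its image in the circle -/
def A (g : ℕ) (w : ℝ) : Set Circ := {θ | ∃ t ∈ P g w, (t : Circ) = θ}

lemma P_period {g : ℕ} (hg : 0 < g) {w t : ℝ} (m : ℤ) (ht : t ∈ P g w) : t + m ∈ P g w := by
  obtain ⟨j, hj, h1, h2⟩ := ht
  have hg' : (0 : ℝ) < g := by exact_mod_cast hg
  refine ⟨j + m * g, ?_, ?_, ?_⟩
  · rw [Int.gcd_add_mul_right_left]; exact hj
  · have : (((j + m * g : ℤ) : ℝ) - w) / g = ((j : ℝ) - w) / g + m := by
      push_cast; field_simp; ring
    rw [this]; linarith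
  · have : (((j + m * g : ℤ) : ℝ)) / g = (j : ℝ) / g + m := by
      push_cast; field_simp
    rw [this]; linarith

lemma mem_A_iff {g : ℕ} (hg : 0 < g) {w t : ℝ} : ((t : Circ) ∈ A g w) ↔ t ∈ P g w := by
  constructor
  · rintro ⟨u, hu, hut⟩
    have h : ((t - u : ℝ) : Circ) = 0 := by
      rw [AddCircle.coe_sub, hut, sub_self]
    rw [AddCircle.coe_eq_zero_iff] at h
    obtain ⟨n, hn⟩ := h
    have : t = u + n := by
      simp at hn; linarith
    rw [this]
    exact P_period hg n hu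
  · intro h; exact ⟨t, h, rfl⟩

lemma isOpen_P (g : ℕ) (w : ℝ) : IsOpen (P g w) := by
  have : P g w = ⋃ j ∈ {j : ℤ | Int.gcd j g = 1}, Ioo (((j : ℝ) - w) / g) ((j : ℝ) / g) := by
    ext t; simp only [P, mem_ofPred_eq, mem_iUnion, mem_Ioo, exists_prop]
  rw [this]
  exact isOpen_biUnion fun j _ => isOpen_Ioo

lemma isOpen_A (g : ℕ) (w : ℝ) : IsOpen (A g w) := by
  have : A g w = ((↑) : ℝ → Circ) '' P g w := by ext θ; simp [A]
  rw [this]
  exact QuotientAddGroup.isOpenMap_coe _ (isOpen_P g w)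

lemma volume_A_eq {g : ℕ} (hg : 0 < g) (w : ℝ) :
    volume (A g w) = volume (P g w ∩ Ioc 0 1) := by
  have h := AddCircle.add_projection_respects_measure (1 : ℝ) 0 (isOpen_A g w).measurableSet
  rw [h, zero_add]
  congr 1
  ext t
  simp only [mem_inter_iff, mem_preimage]
  rw [show ((QuotientAddGroup.mk t : ℝ ⧸ AddSubgroup.zmultiples (1:ℝ)) ∈ A g w) ↔ t ∈ P g w from
    mem_A_iff hg]

lemma volume_A_le {g : ℕ} (hg : 0 < g) {w : ℝ} (hw1 : w ≤ 1) :
    volume (A g w) ≤ ENNReal.ofReal w := by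
  have hg' : (0 : ℝ) < g := by exact_mod_cast hg
  rw [volume_A_eq hg]
  have hsub : P g w ∩ Ioc 0 1 ⊆
      ⋃ j ∈ Finset.Icc (1 : ℤ) g, Ioo (((j : ℝ) - w) / g) ((j : ℝ) / g) := by
    rintro t ⟨⟨j, hj, h1, h2⟩, h3, h4⟩
    simp only [mem_iUnion, exists_prop, Finset.mem_Icc]
    refine ⟨j, ⟨?_, ?_⟩, h1, h2⟩
    · have : (0 : ℝ) < j / g := lt_trans h3 h2
      have : (0 : ℝ) < j := by
        rcases (div_pos_iff.1 this) with h | h
        · exact h.1
        · exact absurd h.2 (not_lt.2 hg'.le)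
      have : 0 < j := by exact_mod_cast this
      omega
    · have h5 : ((j : ℝ) - w) / g < 1 := lt_of_lt_of_le h1 h4
      rw [div_lt_one hg'] at h5
      have : (j : ℝ) < g + 1 := by linarith
      have : j < g + 1 := by exact_mod_cast this
      omega
  refine (measure_mono hsub).trans ((measure_biUnion_finset_le _ _).trans ?_)
  have : ∀ j ∈ Finset.Icc (1 : ℤ) g, volume (Ioo (((j : ℝ) - w) / g) ((j : ℝ) / g)) =
      ENNReal.ofReal (w / g) := by
    intro j _
    rw [Real.volume_Ioo]; congr 1; ring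
  rw [Finset.sum_congr rfl this, Finset.sum_const, Int.card_Icc]
  simp only [add_sub_cancel_right, Int.toNat_natCast, nsmul_eq_mul]
  rw [← ENNReal.ofReal_natCast, ← ENNReal.ofReal_mul (by positivity)]
  apply ENNReal.ofReal_le_ofReal
  field_simp; rfl

lemma le_volume_A {g : ℕ} (hg : 0 < g) {w : ℝ} (hw1 : w ≤ 1) :
    ENNReal.ofReal ((Nat.totient g : ℝ) / g * w) ≤ volume (A g w) := by
  have hg' : (0 : ℝ) < g := by exact_mod_cast hg
  rw [volume_A_eq hg]
  set S : Finset ℕ := (Finset.Ico 1 (1 + g)).filter fun j => Nat.Coprime g j with hS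
  have hcard : S.card = Nat.totient g := Nat.filter_coprime_Ico_eq_totient g 1
  have hsub : (⋃ j ∈ S, Ioo (((j : ℝ) - w) / g) ((j : ℝ) / g)) ⊆ P g w ∩ Ioc 0 1 := by
    intro t ht
    simp only [mem_iUnion, exists_prop, hS, Finset.mem_filter, Finset.mem_Ico] at ht
    obtain ⟨j, ⟨⟨hj0, hjg⟩, hj⟩, h1, h2⟩ := ht
    refine ⟨⟨j, ?_, by rw [Int.cast_natCast]; exact h1, by rw [Int.cast_natCast]; exact h2⟩, ?_, ?_⟩
    · rw [Int.gcd_natCast_natCast, Nat.gcd_comm]; exact hj
    · refine lt_of_le_of_lt ?_ h1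
      apply div_nonneg _ hg'.le
      have : (1 : ℝ) ≤ j := by exact_mod_cast hj0
      linarith
    · refine h2.le.trans ?_
      rw [div_le_one hg']
      have : j ≤ g := by omega
      exact_mod_cast this
  refine le_trans ?_ (measure_mono hsub)
  rw [measure_biUnion_finset]
  · have : ∀ j ∈ S, volume (Ioo (((j : ℝ) - w) / g) ((j : ℝ) / g)) =
        ENNReal.ofReal (w / g) := by
      intro j _
      rw [Real.volume_Ioo]; congr 1; ring
    rw [Finset.sum_congr rfl this, Finset.sum_const, hcard, nsmul_eq_mul,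
      ← ENNReal.ofReal_natCast, ← ENNReal.ofReal_mul (by positivity)]
    apply ENNReal.ofReal_le_ofReal
    apply le_of_eq; ring
  · intro i hi j hj hij
    simp only [Function.onFun]
    rw [Set.disjoint_left]
    rintro t ⟨h1, h2⟩ ⟨h3, h4⟩
    rw [div_lt_iff₀ hg'] at h1 h3
    rw [lt_div_iff₀ hg'] at h2 h4
    rcases lt_or_gt_of_ne hij with h | h
    · have : (i : ℝ) + 1 ≤ j := by exact_mod_cast h
      linarith
    · have : (j : ℝ) + 1 ≤ i := by exact_mod_cast h
      linarith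
  · intro j _; exact measurableSet_Ioo

/-! ### homomorphisms of the torus -/

/-- the torus homomorphism attached to an integer vector -/
noncomputable def phi {r : ℕ} (β : Fin r → ℤ) : (Fin r → Circ) →+ Circ where
  toFun θ := ∑ i, β i • θ i
  map_zero' := by simp
  map_add' x y := by simp [Finset.sum_add_distrib]

lemma phi_apply {r : ℕ} (β : Fin r → ℤ) (θ : Fin r → Circ) : phi β θ = ∑ i, β i • θ i := rfl

lemma continuous_phi {r : ℕ} (β : Fin r → ℤ) : Continuous (phi β) := by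
  show Continuous fun θ : Fin r → Circ => ∑ i, β i • θ i
  fun_prop

lemma exists_zsmul_eq (D : ℤ) (hD : D ≠ 0) (a : Circ) : ∃ a' : Circ, D • a' = a :=
  ⟨DivisibleBy.div a D, DivisibleBy.div_cancel a hD⟩

lemma phi_surjective {r : ℕ} {β : Fin r → ℤ} (hβ : β ≠ 0) : Function.Surjective (phi β) := by
  intro a
  obtain ⟨i, hi⟩ := Function.ne_iff.1 hβ
  obtain ⟨a', ha'⟩ := exists_zsmul_eq (β i) hi a
  refine ⟨Pi.single i a', ?_⟩
  rw [phi_apply, Finset.sum_eq_single i]
  · simp [ha']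
  · intro k _ hk; simp [Pi.single_eq_of_ne hk]
  · intro h; exact absurd (Finset.mem_univ i) h

lemma measurePreserving_phi {r : ℕ} {β : Fin r → ℤ} (hβ : β ≠ 0) :
    MeasurePreserving (phi β) volume volume := by
  refine (phi β).measurePreserving (continuous_phi β) (phi_surjective hβ) ?_
  rw [volume_pi, Measure.pi_univ]; simp

lemma pair_surjective {r : ℕ} {β γ : Fin r → ℤ} {i k : Fin r}
    (hik : β i * γ k - β k * γ i ≠ 0) :
    Function.Surjective ((phi β).prod (phi γ)) := by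
  rintro ⟨a, c⟩
  obtain ⟨a', ha'⟩ := exists_zsmul_eq _ hik a
  obtain ⟨c', hc'⟩ := exists_zsmul_eq _ hik c
  have hne : i ≠ k := by rintro rfl; apply hik; ring
  refine ⟨Pi.single i (γ k • a' - β k • c') + Pi.single k (-(γ i • a') + β i • c'), ?_⟩
  have key : ∀ δ : Fin r → ℤ, ∀ u v : Circ,
      phi δ (Pi.single i u + Pi.single k v) = δ i • u + δ k • v := by
    intro δ u v
    have h1 : ∀ (m : Fin r) (w : Circ), phi δ (Pi.single m w) = δ m • w := by
      intro m w
      rw [phi_apply, Finset.sum_eq_single m]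
      · simp
      · intro k _ hk; simp [Pi.single_eq_of_ne hk]
      · intro h; exact absurd (Finset.mem_univ m) h
    rw [map_add, h1, h1]
  rw [AddMonoidHom.prod_apply, key, key, ← ha', ← hc']
  refine Prod.ext ?_ ?_
  · show β i • (γ k • a' - β k • c') + β k • (-(γ i • a') + β i • c') =
      (β i * γ k - β k * γ i) • a'
    module
  · show γ i • (γ k • a' - β k • c') + γ k • (-(γ i • a') + β i • c') =
      (β i * γ k - β k * γ i) • c'
    module

lemma measurePreserving_pair {r : ℕ} {β γ : Fin r → ℤ} {i k : Fin r}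
    (hik : β i * γ k - β k * γ i ≠ 0) :
    MeasurePreserving ((phi β).prod (phi γ)) volume (volume.prod volume) := by
  refine ((phi β).prod (phi γ)).measurePreserving ?_ (pair_surjective hik) ?_
  · exact (continuous_phi β).prodMk (continuous_phi γ)
  · rw [← univ_prod_univ, Measure.prod_prod, volume_pi, Measure.pi_univ]
    simp

/-! ### slabs in the space -/

/-- the slab attached to an integer vector -/
def slab {r : ℕ} (b : Fin r → ℤ) (w : ℝ) : Set (Fin r → ℝ) :=
  {x | ∃ j : ℤ, Int.gcd j (ct b) = 1 ∧ (j : ℝ) - w < ip b x ∧ ip b x < j}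

/-- the unit box -/
def U (r : ℕ) : Set (Fin r → ℝ) := Set.pi univ fun _ => Ico (0 : ℝ) 1

/-- projection to the torus -/
def Q {r : ℕ} (x : Fin r → ℝ) : Fin r → Circ := fun i => (x i : Circ)

lemma measurePreserving_Q (r : ℕ) :
    MeasurePreserving (Q (r := r)) (volume.restrict (U r)) volume := by
  have h : volume.restrict (U r) =
      Measure.pi fun _ : Fin r => (volume : Measure ℝ).restrict (Ioc (0 : ℝ) (0 + 1)) := by
    rw [U, volume_pi, Measure.restrict_pi_pi]
    congr 1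
    funext _
    rw [zero_add, restrict_Ico_eq_restrict_Ioc]
  rw [h, volume_pi]
  exact measurePreserving_pi _ _ fun _ => AddCircle.measurePreserving_mk 1 0

lemma coe_ip {r : ℕ} (β : Fin r → ℤ) (x : Fin r → ℝ) : ((ip β x : ℝ) : Circ) = phi β (Q x) := by
  rw [phi_apply, ip]
  have h : ∀ s : Finset (Fin r), ((∑ i ∈ s, (β i : ℝ) * x i : ℝ) : Circ) = ∑ i ∈ s, β i • Q x i := by
    intro s
    induction s using Finset.induction_on with
    | empty => simp
    | insert a s ha ih =>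
      rw [Finset.sum_insert ha, Finset.sum_insert ha, AddCircle.coe_add, ih]
      congr 1
      rw [Q, ← AddCircle.coe_zsmul, zsmul_eq_mul]
  exact h _

lemma ct_pos {r : ℕ} {b : Fin r → ℤ} (hb : b ≠ 0) : 0 < ct b := by
  obtain ⟨i, hi⟩ := Function.ne_iff.1 hb
  rw [Nat.pos_iff_ne_zero]
  intro h
  rw [ct, Finset.gcd_eq_zero_iff] at h
  exact hi (by simpa using h i (Finset.mem_univ i))

lemma ct_dvd {r : ℕ} (b : Fin r → ℤ) (i : Fin r) : (ct b : ℤ) ∣ b i := by
  have : ct b ∣ (b i).natAbs := Finset.gcd_dvd (Finset.mem_univ i)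
  exact Int.natCast_dvd.2 this

lemma exists_prim {r : ℕ} {b : Fin r → ℤ} (hb : b ≠ 0) :
    ∃ β : Fin r → ℤ, β ≠ 0 ∧ ∀ i, b i = ct b * β i := by
  choose β hβ using fun i => ct_dvd b i
  refine ⟨β, ?_, hβ⟩
  rintro rfl
  apply hb
  funext i
  simpa using hβ i

lemma ip_scale {r : ℕ} {b β : Fin r → ℤ} {g : ℕ} (h : ∀ i, b i = g * β i) (x : Fin r → ℝ) :
    ip b x = g * ip β x := by
  rw [ip, ip, Finset.mul_sum]
  refine Finset.sum_congr rfl fun i _ => ?_
  rw [h i]; push_cast; ring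

lemma slab_eq {r : ℕ} {b β : Fin r → ℤ} (hb : b ≠ 0) (h : ∀ i, b i = ct b * β i) (w : ℝ) :
    slab b w = Q ⁻¹' (phi β ⁻¹' A (ct b) w) := by
  have hg := ct_pos hb
  have hg' : (0 : ℝ) < ct b := by exact_mod_cast hg
  ext x
  rw [mem_preimage, mem_preimage, ← coe_ip, mem_A_iff hg]
  simp only [slab, P, mem_ofPred_eq]
  refine exists_congr fun j => and_congr_right fun _ => ?_
  rw [div_lt_iff₀ hg', lt_div_iff₀ hg', ip_scale h, mul_comm]

lemma isOpen_slab {r : ℕ} {b : Fin r → ℤ} (w : ℝ) : IsOpen (slab b w) := by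
  have : slab b w = ⋃ j ∈ {j : ℤ | Int.gcd j (ct b) = 1}, (ip b) ⁻¹' Ioo ((j : ℝ) - w) j := by
    ext t; simp only [slab, mem_ofPred_eq, mem_iUnion, mem_preimage, mem_Ioo, exists_prop]
  rw [this]
  refine isOpen_biUnion fun j _ => isOpen_Ioo.preimage ?_
  unfold ip
  fun_prop

lemma le_volume_slab {r : ℕ} {b : Fin r → ℤ} (hb : b ≠ 0) {w : ℝ} (hw1 : w ≤ 1) :
    ENNReal.ofReal ((Nat.totient (ct b) : ℝ) / ct b * w) ≤ volume (slab b w ∩ U r) := by
  obtain ⟨β, hβ, h⟩ := exists_prim hb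
  have h1 : volume (slab b w ∩ U r) = volume.restrict (U r) (slab b w) := by
    rw [Measure.restrict_apply (isOpen_slab w).measurableSet]
  have hA : MeasurableSet (A (ct b) w) := (isOpen_A _ _).measurableSet
  rw [h1, slab_eq hb h, (measurePreserving_Q r).measure_preimage
    ((measurePreserving_phi hβ).measurable hA).nullMeasurableSet,
    (measurePreserving_phi hβ).measure_preimage hA.nullMeasurableSet]
  exact le_volume_A (ct_pos hb) hw1

lemma volume_slab_inter_le {r : ℕ} {b c : Fin r → ℤ} (hb : b ≠ 0) (hc : c ≠ 0) {i k : Fin r}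
    (hik : b i * c k - b k * c i ≠ 0) {w v : ℝ} (hw1 : w ≤ 1) (hv1 : v ≤ 1) :
    volume (slab b w ∩ slab c v ∩ U r) ≤ ENNReal.ofReal w * ENNReal.ofReal v := by
  obtain ⟨β, hβ, h⟩ := exists_prim hb
  obtain ⟨γ, hγ, h'⟩ := exists_prim hc
  have hik' : β i * γ k - β k * γ i ≠ 0 := by
    intro h0
    apply hik
    rw [h i, h k, h' i, h' k]
    linear_combination ((ct b : ℤ) * ct c) * h0
  have h1 : volume (slab b w ∩ slab c v ∩ U r) = volume.restrict (U r) (slab b w ∩ slab c v) := by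
    rw [Measure.restrict_apply ((isOpen_slab w).measurableSet.inter (isOpen_slab v).measurableSet)]
  have hA : MeasurableSet (A (ct b) w ×ˢ A (ct c) v) :=
    (isOpen_A _ _).measurableSet.prod (isOpen_A _ _).measurableSet
  have h2 : slab b w ∩ slab c v =
      Q ⁻¹' ((phi β).prod (phi γ) ⁻¹' (A (ct b) w ×ˢ A (ct c) v)) := by
    rw [slab_eq hb h, slab_eq hc h']
    ext x; simp
  rw [h1, h2, (measurePreserving_Q r).measure_preimage
    ((measurePreserving_pair hik').measurable hA).nullMeasurableSet,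
    (measurePreserving_pair hik').measure_preimage hA.nullMeasurableSet, Measure.prod_prod]
  exact mul_le_mul' (volume_A_le (ct_pos hb) hw1) (volume_A_le (ct_pos hc) hv1)

lemma ct_smul {r : ℕ} (m : ℤ) (b : Fin r → ℤ) : ct (fun i => m * b i) = m.natAbs * ct b := by
  unfold ct
  simp only [Int.natAbs_mul]
  rw [Finset.gcd_mul_left]
  simp

lemma slab_disjoint {r : ℕ} {b c : Fin r → ℤ} (hb : b ≠ 0) (hc : c ≠ 0) (hne : b ≠ c)
    (hpar : ∀ i k, b i * c k = b k * c i) {i : Fin r} (hi : b i ≠ 0) {w v : ℝ}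
    (hsm : |(b i : ℝ)| * v + |(c i : ℝ)| * w < 1) :
    Disjoint (slab b w) (slab c v) := by
  rw [Set.disjoint_left]
  rintro x ⟨j, hj, h1, h2⟩ ⟨m, hm, h3, h4⟩
  have hci : c i ≠ 0 := by
    intro h0
    apply hc
    funext k
    have := hpar i k
    rw [h0, mul_zero] at this
    simpa [hi] using this
  have hip : (c i : ℝ) * ip b x = (b i : ℝ) * ip c x := by
    rw [ip, ip, Finset.mul_sum, Finset.mul_sum]
    refine Finset.sum_congr rfl fun k _ => ?_
    have : ((b i * c k : ℤ) : ℝ) = ((b k * c i : ℤ) : ℝ) := by rw [hpar i k]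
    push_cast at this
    linear_combination (-(x k)) * this
  have hjm : c i * j = b i * m := by
    have hw : |(j : ℝ) - ip b x| ≤ w := by rw [abs_of_pos (by linarith)]; linarith
    have hv : |(m : ℝ) - ip c x| ≤ v := by rw [abs_of_pos (by linarith)]; linarith
    have : |(c i : ℝ) * j - b i * m| < 1 := by
      calc |(c i : ℝ) * j - b i * m|
          = |(c i : ℝ) * (j - ip b x) - b i * (m - ip c x)| := by
            congr 1; linear_combination hip
        _ ≤ |(c i : ℝ) * (j - ip b x)| + |b i * (m - ip c x)| := abs_sub _ _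
        _ = |(c i : ℝ)| * |(j - ip b x)| + |(b i : ℝ)| * |(m - ip c x)| := by rw [abs_mul, abs_mul]
        _ ≤ |(c i : ℝ)| * w + |(b i : ℝ)| * v := by gcongr
        _ < 1 := by linarith
    have h5 : |((c i * j - b i * m : ℤ) : ℝ)| < 1 := by push_cast; exact this
    rw [← Int.cast_abs] at h5
    have h6 : |c i * j - b i * m| < 1 := by exact_mod_cast h5
    have h7 := Int.abs_lt_one_iff.1 h6
    linarith
  have hg : (c i).natAbs * ct b = (b i).natAbs * ct c := by
    rw [← ct_smul, ← ct_smul]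
    congr 1
    funext k
    rw [hpar i k]; ring
  have hjm' : (c i).natAbs * j.natAbs = (b i).natAbs * m.natAbs := by
    rw [← Int.natAbs_mul, ← Int.natAbs_mul, hjm]
  have hgb := ct_pos hb
  have hgc := ct_pos hc
  have hbi : 0 < (b i).natAbs := Int.natAbs_pos.2 hi
  have hci' : 0 < (c i).natAbs := Int.natAbs_pos.2 hci
  have hcross : ct b * m.natAbs = ct c * j.natAbs := by
    apply Nat.eq_of_mul_eq_mul_left hbi
    calc (b i).natAbs * (ct b * m.natAbs) = ct b * ((b i).natAbs * m.natAbs) := by ring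
      _ = ct b * ((c i).natAbs * j.natAbs) := by rw [hjm']
      _ = ((c i).natAbs * ct b) * j.natAbs := by ring
      _ = (b i).natAbs * (ct c * j.natAbs) := by rw [hg]; ring
  have hj' : Nat.Coprime (ct b) j.natAbs := by
    rw [Nat.coprime_comm]
    rw [Int.gcd_def, Int.natAbs_natCast] at hj
    exact hj
  have hm' : Nat.Coprime (ct c) m.natAbs := by
    rw [Nat.coprime_comm]
    rw [Int.gcd_def, Int.natAbs_natCast] at hm
    exact hm
  have hbc : ct b = ct c := by
    apply Nat.dvd_antisymm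
    · exact hj'.dvd_of_dvd_mul_right (hcross ▸ Dvd.intro _ rfl)
    · exact hm'.dvd_of_dvd_mul_right (hcross.symm ▸ Dvd.intro _ rfl)
  rw [hbc] at hg
  have hbc' : (c i).natAbs = (b i).natAbs := Nat.eq_of_mul_eq_mul_right hgc hg
  rcases Int.natAbs_eq_natAbs_iff.1 hbc' with h | h
  · apply hne
    funext k
    have := hpar i k
    rw [h, mul_comm (b k)] at this
    exact (mul_left_cancel₀ hi this).symm
  · have hmj : m = -j := by
      rw [h] at hjm
      have : b i * (-j) = b i * m := by rw [← hjm]; ring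
      exact (mul_left_cancel₀ hi this).symm
    have hcx : ip c x = - ip b x := by
      rw [h] at hip
      push_cast at hip
      have hi' : (b i : ℝ) ≠ 0 := by exact_mod_cast hi
      have : (b i : ℝ) * ip c x = b i * (- ip b x) := by rw [← hip]; ring
      exact mul_left_cancel₀ hi' this
    rw [hcx, hmj] at h4
    push_cast at h4
    linarith

/-! ### next coprime integer -/

/-- the least integer above `y` which is coprime to `g` -/
noncomputable def nx (g : ℕ) (y : ℝ) : ℤ := sInf {j : ℤ | y < j ∧ Int.gcd j g = 1}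

lemma nx_bdd (g : ℕ) (y : ℝ) : BddBelow {j : ℤ | y < j ∧ Int.gcd j g = 1} :=
  ⟨⌊y⌋, fun j hj => by
    have : (⌊y⌋ : ℝ) < j := lt_of_le_of_lt (Int.floor_le y) hj.1
    have : ⌊y⌋ < j := by exact_mod_cast this
    exact this.le⟩

lemma nx_nonempty {g : ℕ} (hg : 0 < g) (y : ℝ) : {j : ℤ | y < j ∧ Int.gcd j g = 1}.Nonempty := by
  obtain ⟨n, hn⟩ := exists_nat_gt (|y|)
  refine ⟨1 + n * g, ?_, ?_⟩
  · have h1 : (1 : ℝ) ≤ g := by exact_mod_cast hg
    have h2 : y ≤ |y| := le_abs_self y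
    have h3 : (0 : ℝ) ≤ n := Nat.cast_nonneg n
    push_cast
    nlinarith
  · rw [Int.gcd_add_mul_right_left]; simp

lemma nx_spec {g : ℕ} (hg : 0 < g) (y : ℝ) : y < nx g y ∧ Int.gcd (nx g y) g = 1 :=
  Int.csInf_mem (nx_nonempty hg y) (nx_bdd g y)

lemma nx_le {g : ℕ} {y : ℝ} {j : ℤ} (h1 : y < j) (h2 : Int.gcd j g = 1) : nx g y ≤ j :=
  csInf_le (nx_bdd g y) ⟨h1, h2⟩

lemma nx_add {g : ℕ} (hg : 0 < g) (y : ℝ) {m : ℤ} (hm : (g : ℤ) ∣ m) :
    nx g (y + m) = nx g y + m := by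
  obtain ⟨q, rfl⟩ := hm
  apply le_antisymm
  · apply nx_le
    · have := (nx_spec hg y).1
      push_cast at this ⊢
      linarith
    · rw [Int.gcd_add_mul_left_left]; exact (nx_spec hg y).2
  · have h := nx_spec hg (y + ((g * q : ℤ) : ℝ))
    have : nx g y ≤ nx g (y + ((g * q : ℤ) : ℝ)) - g * q := by
      apply nx_le
      · have := h.1
        push_cast at this ⊢
        linarith
      · have h2 := h.2
        rw [sub_eq_add_neg, ← mul_neg, Int.gcd_add_mul_left_left]; exact h2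
    linarith

/-! ### cells -/

lemma ip_neg {r : ℕ} (b : Fin r → ℤ) (x : Fin r → ℝ) : ip (-b) x = - ip b x := by
  simp [ip, Finset.sum_neg_distrib]

lemma ct_neg {r : ℕ} (b : Fin r → ℤ) : ct (-b) = ct b := by
  simp [ct]

lemma ip_add {r : ℕ} (b : Fin r → ℤ) (x y : Fin r → ℝ) : ip b (x + y) = ip b x + ip b y := by
  simp [ip, Finset.sum_add_distrib, mul_add]

lemma ip_smul {r : ℕ} (b : Fin r → ℤ) (s : ℝ) (x : Fin r → ℝ) : ip b (s • x) = s * ip b x := by
  simp only [ip, Finset.mul_sum, Pi.smul_apply, smul_eq_mul]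
  exact Finset.sum_congr rfl fun i _ => by ring

lemma continuous_ip {r : ℕ} (b : Fin r → ℤ) : Continuous (ip b) := by
  unfold ip
  fun_prop

/-- the code of a point: the next walls -/
noncomputable def code {r : ℕ} (B : Finset (Fin r → ℤ)) (x : Fin r → ℝ) : B → ℤ :=
  fun b => nx (ct b.1) (ip b.1 x)

/-- the open cell with a given code -/
def cell {r : ℕ} (B : Finset (Fin r → ℤ)) (c : B → ℤ) : Set (Fin r → ℝ) :=
  {x | ∀ b : B, ip b.1 x < c b}

/-- points off all integral hyperplanes -/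
def Gen {r : ℕ} (B : Finset (Fin r → ℤ)) (x : Fin r → ℝ) : Prop :=
  ∀ b ∈ B, ∀ j : ℤ, ip b x ≠ j

section cells

variable {r : ℕ} {B : Finset (Fin r → ℤ)} (hneg : ∀ b ∈ B, -b ∈ B) (h0 : (0 : Fin r → ℤ) ∉ B)

include h0 in
lemma ne_zero_of_mem {b : Fin r → ℤ} (hb : b ∈ B) : b ≠ 0 := by
  rintro rfl; exact h0 hb

include h0 in
lemma mem_cell_code (x : Fin r → ℝ) : x ∈ cell B (code B x) := fun b =>
  (nx_spec (ct_pos (ne_zero_of_mem h0 b.2)) _).1

lemma isOpen_cell (c : B → ℤ) : IsOpen (cell B c) := by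
  have : cell B c = ⋂ b : B, {x | ip b.1 x < c b} := by ext x; simp [cell]
  rw [this]
  exact isOpen_iInter_of_finite fun b => isOpen_lt (continuous_ip _) continuous_const

include hneg in
/-- no wall crosses a cell -/
lemma gap {x z : Fin r → ℝ} (hx : Gen B x) (hz : z ∈ cell B (code B x)) (b : B) {j : ℤ}
    (hj : Int.gcd j (ct b.1) = 1) (hzj : ip b.1 z < j) : code B x b ≤ j := by
  rcases lt_trichotomy (ip b.1 x) j with h | h | h
  · exact nx_le h hj
  · exact absurd h (hx b.1 b.2 j)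
  · exfalso
    have h1 : code B x ⟨-b.1, hneg _ b.2⟩ ≤ -j := by
      apply nx_le
      · show ip (-b.1) x < _
        rw [ip_neg]; push_cast; linarith
      · show Int.gcd (-j) (ct (-b.1)) = 1
        rw [ct_neg, Int.neg_gcd]; exact hj
    have h2 := hz ⟨-b.1, hneg _ b.2⟩
    have h2' : ip (-b.1) z < code B x ⟨-b.1, hneg _ b.2⟩ := h2
    rw [ip_neg] at h2'
    have h3 : ((code B x ⟨-b.1, hneg _ b.2⟩ : ℤ) : ℝ) ≤ ((-j : ℤ) : ℝ) := by exact_mod_cast h1
    push_cast at h3
    linarith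

include hneg h0 in
lemma code_eq_of_mem {x y z : Fin r → ℝ} (hx : Gen B x) (hy : Gen B y)
    (hzx : z ∈ cell B (code B x)) (hzy : z ∈ cell B (code B y)) : code B x = code B y := by
  funext b
  apply le_antisymm
  · exact gap hneg hx hzx b (nx_spec (ct_pos (ne_zero_of_mem h0 b.2)) _).2 (hzy b)
  · exact gap hneg hy hzy b (nx_spec (ct_pos (ne_zero_of_mem h0 b.2)) _).2 (hzx b)

/-- the bad set -/
def Bad (B : Finset (Fin r → ℤ)) (l : (Fin r → ℤ) → ℝ) (ε : ℝ) : Set (Fin r → ℝ) :=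
  ⋃ b ∈ B, slab b (ε * l b)

include hneg in
lemma contraction {l : (Fin r → ℤ) → ℝ} (hl : ∀ b ∈ B, 0 ≤ l b) {x : Fin r → ℝ} (hx : Gen B x) {Y : Fin r → ℝ}
    (hY : ∀ b : B, ip b.1 Y + l b.1 ≤ code B x b) {ε : ℝ} (he0 : 0 < ε) (he1 : ε < 1)
    (hfin : volume (cell B (code B x)) ≠ ⊤) :
    volume (Bad B l ε ∩ cell B (code B x)) ≤
      ENNReal.ofReal (1 - (1 - ε) ^ r) * volume (cell B (code B x)) := by
  set C := cell B (code B x) with hC
  have hsub : AffineMap.homothety Y (1 - ε) '' C ⊆ C \ Bad B l ε := by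
    rintro z ⟨y, hy, rfl⟩
    have hip : ∀ b : Fin r → ℤ, ip b (AffineMap.homothety Y (1 - ε) y) =
        (1 - ε) * ip b y + ε * ip b Y := by
      intro b
      have : y - Y = y + (-1 : ℝ) • Y := by simp [sub_eq_add_neg]
      rw [AffineMap.homothety_apply, vsub_eq_sub, vadd_eq_add, ip_add, ip_smul, this,
        ip_add, ip_smul]
      ring
    have hlt : ∀ b : B, ip b.1 (AffineMap.homothety Y (1 - ε) y) < code B x b - ε * l b.1 := by
      intro b
      rw [hip]
      have h1 := hy b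
      have h2 := hY b
      nlinarith
    have hle : ∀ b : B, ip b.1 (AffineMap.homothety Y (1 - ε) y) < code B x b := by
      intro b
      have h1 := hlt b
      have h2 := mul_nonneg he0.le (hl b.1 b.2)
      linarith
    refine ⟨hle, ?_⟩
    simp only [Bad, mem_iUnion, not_exists]
    rintro b hb ⟨j, hj, h1, h2⟩
    have h3 := gap hneg hx hle ⟨b, hb⟩ hj h2
    have h4 : ((code B x ⟨b, hb⟩ : ℤ) : ℝ) ≤ j := by exact_mod_cast h3
    have h5 := hlt ⟨b, hb⟩
    simp only at h5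
    linarith
  have hBm : MeasurableSet (Bad B l ε) :=
    (isOpen_biUnion fun b _ => isOpen_slab _).measurableSet
  have h1 : volume (AffineMap.homothety Y (1 - ε) '' C) = ENNReal.ofReal ((1 - ε) ^ r) * volume C := by
    rw [Measure.addHaar_image_homothety, Module.finrank_fin_fun, abs_of_nonneg]
    exact pow_nonneg (by linarith) r
  have h2 := measure_mono (μ := volume) hsub
  rw [h1] at h2
  have h3 := measure_sdiff_add_inter (μ := volume) C hBm
  have hp0 : (0 : ℝ) ≤ (1 - ε) ^ r := pow_nonneg (by linarith) r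
  have hp1 : (1 - ε) ^ r ≤ 1 := pow_le_one₀ (by linarith) (by linarith)
  rw [inter_comm]
  have hf1 : volume (C \ Bad B l ε) ≠ ⊤ := ne_top_of_le_ne_top hfin (measure_mono sdiff_subset)
  have hf2 : volume (C ∩ Bad B l ε) ≠ ⊤ := ne_top_of_le_ne_top hfin (measure_mono inter_subset_left)
  rw [← ENNReal.ofReal_toReal hfin, ← ENNReal.ofReal_toReal hf2,
    ← ENNReal.ofReal_mul (by linarith)]
  rw [← ENNReal.ofReal_toReal hfin, ← ENNReal.ofReal_toReal hf1,
    ← ENNReal.ofReal_mul hp0] at h2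
  have h2' := (ENNReal.ofReal_le_ofReal_iff ENNReal.toReal_nonneg).1 h2
  have h3' := congrArg ENNReal.toReal h3
  rw [ENNReal.toReal_add hf1 hf2] at h3'
  apply ENNReal.ofReal_le_ofReal
  linarith

/-! ### the lattice of translations -/

/-- integer pairing -/
def ipZ (b k : Fin r → ℤ) : ℤ := ∑ i, b i * k i

/-- an integer vector as a real vector -/
def toR (k : Fin r → ℤ) : Fin r → ℝ := fun i => (k i : ℝ)

omit hneg h0 in
lemma ip_toR (b k : Fin r → ℤ) : ip b (toR k) = (ipZ b k : ℝ) := by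
  simp [ip, ipZ, toR]

lemma ct_dvd_ipZ (b k : Fin r → ℤ) : (ct b : ℤ) ∣ ipZ b k :=
  Finset.dvd_sum fun i _ => (ct_dvd b i).mul_right _

include h0 in
lemma code_add (x : Fin r → ℝ) (k : Fin r → ℤ) (b : B) :
    code B (x + toR k) b = code B x b + ipZ b.1 k := by
  unfold code
  rw [ip_add, ip_toR, nx_add (ct_pos (ne_zero_of_mem h0 b.2)) _ (ct_dvd_ipZ _ _)]

lemma gen_add {x : Fin r → ℝ} (hx : Gen B x) (k : Fin r → ℤ) : Gen B (x + toR k) := by
  intro b hb j h
  rw [ip_add, ip_toR] at h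
  apply hx b hb (j - ipZ b k)
  push_cast
  linarith

lemma slab_add {b : Fin r → ℤ} {w : ℝ} {x : Fin r → ℝ} (hx : x ∈ slab b w) (k : Fin r → ℤ) :
    x + toR k ∈ slab b w := by
  obtain ⟨j, hj, h1, h2⟩ := hx
  obtain ⟨q, hq⟩ := ct_dvd_ipZ b k
  refine ⟨j + ipZ b k, ?_, ?_, ?_⟩
  · rw [hq, Int.gcd_add_mul_left_left]; exact hj
  · rw [ip_add, ip_toR]; push_cast; linarith
  · rw [ip_add, ip_toR]; push_cast; linarith

/-- the lattice of integer vectors -/
def Lat (r : ℕ) : AddSubgroup (Fin r → ℝ) :=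
  (Submodule.span ℤ (Set.range (Pi.basisFun ℝ (Fin r)))).toAddSubgroup

lemma exists_toR (g : Lat r) : ∃ k : Fin r → ℤ, (g : Fin r → ℝ) = toR k := by
  have h : (g : Fin r → ℝ) ∈ Submodule.span ℤ (Set.range (Pi.basisFun ℝ (Fin r))) := g.2
  rw [Module.Basis.mem_span_iff_repr_mem] at h
  choose k hk using h
  refine ⟨k, ?_⟩
  funext i
  have := hk i
  simp at this
  rw [toR, this]

lemma toR_mem (k : Fin r → ℤ) : toR k ∈ Lat r := by
  rw [Lat, Submodule.mem_toAddSubgroup, Module.Basis.mem_span_iff_repr_mem]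
  intro i
  exact ⟨k i, by simp [toR]⟩

lemma fund_U : IsAddFundamentalDomain (Lat r) (U r) volume := by
  have h := ZSpan.isAddFundamentalDomain' (Pi.basisFun ℝ (Fin r)) volume
  rw [ZSpan.fundamentalDomain_pi_basisFun] at h
  exact h

lemma null_hyper {b : Fin r → ℤ} (hb : b ≠ 0) (a : ℝ) : volume {x : Fin r → ℝ | ip b x = a} = 0 := by
  let s : AffineSubspace ℝ (Fin r → ℝ) :=
    { carrier := {x | ip b x = a}
      smul_vsub_vadd_mem' := by
        intro c p1 p2 p3 h1 h2 h3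
        simp only [mem_ofPred_eq] at h1 h2 h3 ⊢
        have : p1 - p2 = p1 + (-1 : ℝ) • p2 := by simp [sub_eq_add_neg]
        rw [vsub_eq_sub, vadd_eq_add, ip_add, ip_smul, this, ip_add, ip_smul, h1, h2, h3]
        ring }
  have hs : s ≠ ⊤ := by
    intro htop
    obtain ⟨i, hi⟩ := Function.ne_iff.1 hb
    have h1 : (0 : Fin r → ℝ) ∈ s := by rw [htop]; trivial
    have h2 : (Pi.single i 1 : Fin r → ℝ) ∈ s := by rw [htop]; trivial
    have h1' : ip b (0 : Fin r → ℝ) = a := h1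
    have h2' : ip b (Pi.single i 1 : Fin r → ℝ) = a := h2
    rw [← h1'] at h2'
    simp [ip, Pi.single_apply] at h2'
    exact hi (by simpa using h2')
  exact Measure.addHaar_affineSubspace volume s hs

include h0 in
lemma ae_gen : ∀ᵐ x : Fin r → ℝ, Gen B x := by
  unfold Gen
  rw [Filter.eventually_all_finset]
  intro b hb
  rw [ae_all_iff]
  intro j
  exact measure_eq_zero_iff_ae_notMem.1 (null_hyper (ne_zero_of_mem h0 hb) (j : ℝ))

/-! ### representatives of the cells -/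

/-- translation equivalence of codes -/
def cs (B : Finset (Fin r → ℤ)) : Setoid (B → ℤ) where
  r c d := ∃ k : Fin r → ℤ, ∀ b : B, d b = c b + ipZ b.1 k
  iseqv := by
    refine ⟨fun c => ⟨0, fun b => by simp [ipZ]⟩, ?_, ?_⟩
    · rintro c d ⟨k, hk⟩
      refine ⟨-k, fun b => ?_⟩
      rw [hk b]; simp [ipZ]
    · rintro c d e ⟨k, hk⟩ ⟨m, hm⟩
      refine ⟨k + m, fun b => ?_⟩
      rw [hm b, hk b]; simp [ipZ, mul_add, Finset.sum_add_distrib, add_assoc]

/-- representatives of the codes of generic points -/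
def Reps (B : Finset (Fin r → ℤ)) : Set (B → ℤ) :=
  {c | (∃ x, Gen B x ∧ code B x = c) ∧ (Quotient.mk (cs B) c).out = c}

/-- the fundamental domain made of cells -/
def FD (B : Finset (Fin r → ℤ)) : Set (Fin r → ℝ) := ⋃ c ∈ Reps B, cell B c

include hneg h0 in
lemma fund_FD (hsp : ∀ x : Fin r → ℝ, (∀ b ∈ B, ip b x = 0) → x = 0) :
    IsAddFundamentalDomain (Lat r) (FD B) volume where
  nullMeasurableSet := (isOpen_biUnion fun c _ => isOpen_cell c).measurableSet.nullMeasurableSet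
  ae_covers := by
    filter_upwards [ae_gen h0] with x hx
    obtain ⟨k, hk⟩ : (cs B).r (code B x) (Quotient.mk (cs B) (code B x)).out :=
      (cs B).symm (Quotient.mk_out (s := cs B) (code B x))
    refine ⟨⟨toR k, toR_mem k⟩, ?_⟩
    have h1 : code B (x + toR k) = (Quotient.mk (cs B) (code B x)).out := by
      funext b; rw [code_add h0, hk b]
    have h2 : (⟨toR k, toR_mem k⟩ : Lat r) +ᵥ x = x + toR k := by
      rw [add_comm]; rfl
    rw [h2, FD, mem_iUnion₂]
    refine ⟨code B (x + toR k), ⟨⟨x + toR k, gen_add hx k, rfl⟩, ?_⟩, mem_cell_code h0 _⟩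
    rw [h1, Quotient.out_eq]
  aedisjoint := by
    intro g g' hne
    apply Disjoint.aedisjoint
    rw [Set.disjoint_left]
    rintro z hz hz'
    apply hne
    rw [Set.mem_vadd_set_iff_neg_vadd_mem, FD, mem_iUnion₂] at hz hz'
    obtain ⟨c, ⟨⟨x, hx, hxc⟩, hc⟩, hzc⟩ := hz
    obtain ⟨d, ⟨⟨y, hy, hyd⟩, hd⟩, hzd⟩ := hz'
    obtain ⟨k, hk⟩ := exists_toR g
    obtain ⟨m, hm⟩ := exists_toR g'
    have h1 : (-g) +ᵥ z = z - toR k := by
      show (-(g : Fin r → ℝ)) + z = z - toR k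
      rw [hk]; abel
    have h2 : (-g') +ᵥ z = z - toR m := by
      show (-(g' : Fin r → ℝ)) + z = z - toR m
      rw [hm]; abel
    rw [h1, ← hxc] at hzc
    rw [h2, ← hyd] at hzd
    have e1 : z ∈ cell B (code B (x + toR k)) := by
      intro b
      have := hzc b
      rw [code_add h0, sub_eq_add_neg, ip_add, show (-toR k) = (-1 : ℝ) • toR k by simp, ip_smul,
        ip_toR] at *
      push_cast
      linarith
    have e2 : z ∈ cell B (code B (y + toR m)) := by
      intro b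
      have := hzd b
      rw [code_add h0, sub_eq_add_neg, ip_add, show (-toR m) = (-1 : ℝ) • toR m by simp, ip_smul,
        ip_toR] at *
      push_cast
      linarith
    have e3 := code_eq_of_mem hneg h0 (gen_add hx k) (gen_add hy m) e1 e2
    have e4 : ∀ b : B, c b + ipZ b.1 k = d b + ipZ b.1 m := by
      intro b
      rw [← hxc, ← hyd, ← code_add h0, ← code_add h0, e3]
    have e5 : c = d := by
      rw [← hc, ← hd]
      congr 1
      apply Quotient.sound (s := cs B)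
      refine ⟨k - m, fun b => ?_⟩
      have : ipZ b.1 (k - m) = ipZ b.1 k - ipZ b.1 m := by
        simp [ipZ, mul_sub, Finset.sum_sub_distrib]
      rw [this]
      linarith [e4 b]
    have e6 : toR k - toR m = 0 := by
      apply hsp
      intro b hb
      have := e4 ⟨b, hb⟩
      rw [e5] at this
      have h7 : ipZ b k = ipZ b m := by simpa using this
      rw [sub_eq_add_neg, ip_add, show (-toR m) = (-1 : ℝ) • toR m by simp, ip_smul,
        ip_toR, ip_toR, h7]
      ring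
    apply Subtype.ext
    rw [hk, hm]
    exact sub_eq_zero.1 e6

instance countable_Lat : Countable (Lat r) := by
  choose f hf using fun g : Lat r => exists_toR g
  have : Function.Injective f := by
    intro g g' h
    apply Subtype.ext
    rw [hf g, hf g', h]
  exact this.countable

lemma measurableSet_Bad (l : (Fin r → ℤ) → ℝ) (ε : ℝ) : MeasurableSet (Bad B l ε) :=
  (isOpen_biUnion fun b _ => isOpen_slab _).measurableSet

lemma Bad_invariant (l : (Fin r → ℤ) → ℝ) (ε : ℝ) (g : Lat r) :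
    (fun x => g +ᵥ x) ⁻¹' Bad B l ε = Bad B l ε := by
  have key : ∀ (g : Lat r) (x : Fin r → ℝ), x ∈ Bad B l ε → g +ᵥ x ∈ Bad B l ε := by
    intro g x hx
    obtain ⟨k, hk⟩ := exists_toR g
    have h1 : g +ᵥ x = x + toR k := by
      show (g : Fin r → ℝ) + x = x + toR k
      rw [hk, add_comm]
    rw [h1]
    rw [Bad, mem_iUnion₂] at hx ⊢
    obtain ⟨b, hb, h⟩ := hx
    exact ⟨b, hb, slab_add h k⟩
  ext x
  rw [mem_preimage]
  constructor
  · intro h
    have := key (-g) _ h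
    rwa [neg_vadd_vadd] at this
  · exact key g x

lemma volume_U (r : ℕ) : volume (U r) = 1 := by
  rw [U, Real.volume_pi_Ico]; simp

include hneg h0 in
lemma volume_Bad_le (hsp : ∀ x : Fin r → ℝ, (∀ b ∈ B, ip b x = 0) → x = 0)
    {l : (Fin r → ℤ) → ℝ} (hl : ∀ b ∈ B, 0 ≤ l b)
    (hY : ∀ h : B → ℤ, (∃ x : Fin r → ℝ, ∀ b : B, ip b.1 x < h b) →
      ∃ y : Fin r → ℝ, ∀ b : B, ip b.1 y + l b.1 ≤ h b)
    {ε : ℝ} (he0 : 0 < ε) (he1 : ε < 1) :
    volume (Bad B l ε ∩ U r) ≤ ENNReal.ofReal (1 - (1 - ε) ^ r) := by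
  have hF := fund_FD hneg h0 hsp
  rw [fund_U.measure_set_eq hF (measurableSet_Bad l ε) (Bad_invariant l ε)]
  have hvF : volume (FD B) = 1 := by
    rw [← fund_U.measure_eq hF, volume_U]
  have hdisj : (Reps B).PairwiseDisjoint (fun c => cell B c) := by
    rintro c ⟨⟨x, hx, rfl⟩, _⟩ d ⟨⟨y, hy, rfl⟩, _⟩ hne
    simp only [Function.onFun]
    rw [Set.disjoint_left]
    intro z hz hz'
    exact hne (code_eq_of_mem hneg h0 hx hy hz hz')
  have hsum : ∑' c : Reps B, volume (cell B c.1) = 1 := by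
    rw [← hvF, FD, measure_biUnion (Set.to_countable _) hdisj fun c _ => (isOpen_cell c).measurableSet]
  have h1 : Bad B l ε ∩ FD B = ⋃ c ∈ Reps B, Bad B l ε ∩ cell B c := by
    rw [FD, inter_iUnion₂]
  rw [h1]
  refine (measure_biUnion_le _ (Set.to_countable _) _).trans ?_
  calc ∑' c : Reps B, volume (Bad B l ε ∩ cell B c.1)
      ≤ ∑' c : Reps B, ENNReal.ofReal (1 - (1 - ε) ^ r) * volume (cell B c.1) := by
        refine ENNReal.tsum_le_tsum ?_
        rintro ⟨c, ⟨⟨x, hx, rfl⟩, hc⟩⟩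
        obtain ⟨Y, hYY⟩ := hY (code B x) ⟨x, mem_cell_code h0 x⟩
        refine contraction hneg hl hx hYY he0 he1 ?_
        refine ne_top_of_le_ne_top (b := volume (FD B)) (by rw [hvF]; exact ENNReal.one_ne_top) ?_
        apply measure_mono
        rw [FD]
        exact subset_biUnion_of_mem (u := fun c => cell B c) ⟨⟨x, hx, rfl⟩, hc⟩
    _ = ENNReal.ofReal (1 - (1 - ε) ^ r) := by rw [ENNReal.tsum_mul_left, hsum, mul_one]

end cells

/-- Bonferroni -/
lemma bonferroni {α ι : Type*} [MeasurableSpace α] [DecidableEq ι] (μ : Measure α) (S : ι → Set α)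
    (hS : ∀ i, MeasurableSet (S i)) (s : Finset ι) :
    ∑ i ∈ s, μ (S i) ≤ μ (⋃ i ∈ s, S i) + ∑ p ∈ s.offDiag, μ (S p.1 ∩ S p.2) := by
  induction s using Finset.induction_on with
  | empty => simp
  | insert a s ha ih =>
    rw [Finset.sum_insert ha]
    have h1 : (⋃ i ∈ insert a s, S i) = S a ∪ ⋃ i ∈ s, S i := by
      rw [Finset.set_biUnion_insert]
    have h2 : μ (S a ∪ ⋃ i ∈ s, S i) + μ (S a ∩ ⋃ i ∈ s, S i) = μ (S a) + μ (⋃ i ∈ s, S i) :=
      measure_union_add_inter _ (Finset.measurableSet_biUnion _ fun i _ => hS i)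
    have h3 : μ (S a ∩ ⋃ i ∈ s, S i) ≤ ∑ i ∈ s, μ (S a ∩ S i) := by
      rw [inter_iUnion₂]
      exact measure_biUnion_finset_le _ _
    have h4 : ∑ p ∈ s.offDiag, μ (S p.1 ∩ S p.2) + ∑ i ∈ s, μ (S a ∩ S i) ≤
        ∑ p ∈ (insert a s).offDiag, μ (S p.1 ∩ S p.2) := by
      have h5 : ∑ i ∈ s, μ (S a ∩ S i) = ∑ p ∈ ({a} : Finset ι) ×ˢ s, μ (S p.1 ∩ S p.2) := by
        rw [Finset.sum_product]; simp
      rw [h5, ← Finset.sum_union]
      · apply Finset.sum_le_sum_of_subset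
        rw [Finset.offDiag_insert ha]
        intro p hp
        simp only [Finset.mem_union] at hp ⊢
        tauto
      · rw [Finset.disjoint_left]
        rintro ⟨p, q⟩ h6 h7
        simp only [Finset.mem_offDiag, Finset.mem_product, Finset.mem_singleton] at h6 h7
        exact ha (h7.1 ▸ h6.1)
    rw [h1]
    calc μ (S a) + ∑ i ∈ s, μ (S i)
        ≤ μ (S a) + (μ (⋃ i ∈ s, S i) + ∑ p ∈ s.offDiag, μ (S p.1 ∩ S p.2)) := by gcongr
      _ = (μ (S a) + μ (⋃ i ∈ s, S i)) + ∑ p ∈ s.offDiag, μ (S p.1 ∩ S p.2) := by ring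
      _ = (μ (S a ∪ ⋃ i ∈ s, S i) + μ (S a ∩ ⋃ i ∈ s, S i)) +
            ∑ p ∈ s.offDiag, μ (S p.1 ∩ S p.2) := by rw [h2]
      _ ≤ (μ (S a ∪ ⋃ i ∈ s, S i) + ∑ i ∈ s, μ (S a ∩ S i)) +
            ∑ p ∈ s.offDiag, μ (S p.1 ∩ S p.2) := by gcongr
      _ = μ (S a ∪ ⋃ i ∈ s, S i) +
            (∑ p ∈ s.offDiag, μ (S p.1 ∩ S p.2) + ∑ i ∈ s, μ (S a ∩ S i)) := by ring
      _ ≤ _ := by gcongr

/-- for small `ε` two different slabs have a small intersection -/
lemma pair_bound {r : ℕ} {b c : Fin r → ℤ} (hb : b ≠ 0) (hc : c ≠ 0) (hne : b ≠ c)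
    {u v : ℝ} (hu : 0 ≤ u) (hv : 0 ≤ v) :
    ∃ e0 > 0, ∀ ε : ℝ, 0 < ε → ε < e0 →
      volume (slab b (ε * u) ∩ slab c (ε * v) ∩ U r) ≤ ENNReal.ofReal (ε * u * (ε * v)) := by
  by_cases hpar : ∀ i k, b i * c k = b k * c i
  · obtain ⟨i, hi⟩ := Function.ne_iff.1 hb
    set K : ℝ := |(b i : ℝ)| * v + |(c i : ℝ)| * u with hK
    have hK0 : 0 ≤ K := by positivity
    refine ⟨1 / (K + 1), by positivity, fun ε he0 he1 => ?_⟩
    have hd : Disjoint (slab b (ε * u)) (slab c (ε * v)) := by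
      refine slab_disjoint hb hc hne hpar (i := i) hi ?_
      have : |(b i : ℝ)| * (ε * v) + |(c i : ℝ)| * (ε * u) = ε * K := by rw [hK]; ring
      rw [this]
      rw [lt_div_iff₀ (by positivity)] at he1
      nlinarith
    rw [Set.disjoint_iff_inter_eq_empty.1 hd]
    simp
  · push Not at hpar
    obtain ⟨i, k, hik⟩ := hpar
    refine ⟨1 / (u + v + 1), by positivity, fun ε he0 he1 => ?_⟩
    rw [lt_div_iff₀ (by positivity)] at he1
    have h1 : ε * u ≤ 1 := by nlinarith
    have h2 : ε * v ≤ 1 := by nlinarith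
    refine (volume_slab_inter_le hb hc (i := i) (k := k) (sub_ne_zero.2 hik) h1 h2).trans ?_
    rw [← ENNReal.ofReal_mul (by positivity)]

/-- **Volume contraction inequality.** -/
theorem volume_contraction {r : ℕ} (B : Finset (Fin r → ℤ)) (hneg : ∀ b ∈ B, -b ∈ B)
    (h0 : (0 : Fin r → ℤ) ∉ B)
    (hsp : ∀ x : Fin r → ℝ, (∀ b ∈ B, ∑ i, (b i : ℝ) * x i = 0) → x = 0)
    (l : (Fin r → ℤ) → ℝ) (hl : ∀ b ∈ B, 0 ≤ l b)
    (hY : ∀ h : (Fin r → ℤ) → ℤ, (∃ x : Fin r → ℝ, ∀ b ∈ B, ∑ i, (b i : ℝ) * x i < h b) →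
      ∃ y : Fin r → ℝ, ∀ b ∈ B, ∑ i, (b i : ℝ) * y i + l b ≤ h b) :
    ∑ b ∈ B, ((Nat.totient (ct b) : ℝ) / ct b) * l b ≤ r := by
  classical
  have hY' : ∀ h : B → ℤ, (∃ x : Fin r → ℝ, ∀ b : B, ip b.1 x < h b) →
      ∃ y : Fin r → ℝ, ∀ b : B, ip b.1 y + l b.1 ≤ h b := by
    rintro h ⟨x, hx⟩
    obtain ⟨y, hy⟩ := hY (fun b => if hb : b ∈ B then h ⟨b, hb⟩ else 0) ⟨x, fun b hb => by
      rw [dif_pos hb]; exact hx ⟨b, hb⟩⟩
    refine ⟨y, fun b => ?_⟩
    have := hy b.1 b.2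
    rw [dif_pos b.2] at this
    exact this
  -- choose a common threshold
  have hpb : ∀ p : (Fin r → ℤ) × (Fin r → ℤ), ∃ e0 > 0, p ∈ B.offDiag → ∀ ε : ℝ, 0 < ε → ε < e0 →
      volume (slab p.1 (ε * l p.1) ∩ slab p.2 (ε * l p.2) ∩ U r) ≤
        ENNReal.ofReal (ε * l p.1 * (ε * l p.2)) := by
    intro p
    by_cases hp : p ∈ B.offDiag
    · have hp' := Finset.mem_offDiag.1 hp
      obtain ⟨e0, he0, h⟩ := pair_bound (ne_zero_of_mem h0 hp'.1) (ne_zero_of_mem h0 hp'.2.1)
        hp'.2.2 (hl _ hp'.1) (hl _ hp'.2.1)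
      exact ⟨e0, he0, fun _ => h⟩
    · exact ⟨1, one_pos, fun h => absurd h hp⟩
  choose e0 he0 hpb using hpb
  set S : ℝ := ∑ b ∈ B, ((Nat.totient (ct b) : ℝ) / ct b) * l b with hS
  set K : ℝ := ∑ p ∈ B.offDiag, l p.1 * l p.2 with hK
  have main : ∀ᶠ ε in nhdsWithin (0 : ℝ) (Ioi 0), S ≤ r + ε * K := by
    have ev1 : ∀ᶠ ε in nhdsWithin (0 : ℝ) (Ioi 0), 0 < ε := self_mem_nhdsWithin
    have ev2 : ∀ᶠ ε in nhdsWithin (0 : ℝ) (Ioi 0), ε < 1 :=
      nhdsWithin_le_nhds (Iio_mem_nhds one_pos)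
    have ev3 : ∀ᶠ ε in nhdsWithin (0 : ℝ) (Ioi 0), ∀ p ∈ B.offDiag, ε < e0 p := by
      rw [Filter.eventually_all_finset]
      intro p _
      exact nhdsWithin_le_nhds (Iio_mem_nhds (he0 p))
    have ev4 : ∀ᶠ ε in nhdsWithin (0 : ℝ) (Ioi 0), ∀ b ∈ B, ε * l b ≤ 1 := by
      rw [Filter.eventually_all_finset]
      intro b hb
      have hb0 := hl b hb
      have : ∀ᶠ ε in nhdsWithin (0 : ℝ) (Ioi 0), ε < 1 / (l b + 1) :=
        nhdsWithin_le_nhds (Iio_mem_nhds (by positivity))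
      filter_upwards [this, ev1] with ε h1 h2
      rw [lt_div_iff₀ (by positivity)] at h1
      nlinarith
    filter_upwards [ev1, ev2, ev3, ev4] with ε h1 h2 h3 h4
    have hb := volume_Bad_le hneg h0 hsp hl hY' h1 h2
    have hbon := bonferroni (volume.restrict (U r)) (fun b => slab b (ε * l b))
      (fun _ => (isOpen_slab _).measurableSet) B
    have hm : ∀ s : Set (Fin r → ℝ), MeasurableSet s → volume.restrict (U r) s = volume (s ∩ U r) :=
      fun s hs => Measure.restrict_apply hs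
    have e1 : ENNReal.ofReal (ε * S) ≤ ∑ b ∈ B, volume.restrict (U r) (slab b (ε * l b)) := by
      rw [hS, Finset.mul_sum, ENNReal.ofReal_sum_of_nonneg]
      · refine Finset.sum_le_sum fun b hb => ?_
        rw [hm _ (isOpen_slab _).measurableSet]
        refine le_trans (le_of_eq ?_) (le_volume_slab (ne_zero_of_mem h0 hb) (h4 b hb))
        congr 1; ring
      · intro b hb
        have := hl b hb
        positivity
    have e2 : ∑ p ∈ B.offDiag, volume.restrict (U r) (slab p.1 (ε * l p.1) ∩ slab p.2 (ε * l p.2))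
        ≤ ENNReal.ofReal (ε * (ε * K)) := by
      rw [hK, Finset.mul_sum, Finset.mul_sum, ENNReal.ofReal_sum_of_nonneg]
      · refine Finset.sum_le_sum fun p hp => ?_
        rw [hm _ ((isOpen_slab _).measurableSet.inter (isOpen_slab _).measurableSet)]
        refine (hpb p hp ε h1 (h3 p hp)).trans (le_of_eq ?_)
        congr 1; ring
      · intro p hp
        have hp' := Finset.mem_offDiag.1 hp
        have := hl _ hp'.1
        have := hl _ hp'.2.1
        positivity
    have e3 : volume.restrict (U r) (⋃ b ∈ B, slab b (ε * l b)) ≤ ENNReal.ofReal (ε * r) := by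
      have e0 : volume.restrict (U r) (⋃ b ∈ B, slab b (ε * l b)) = volume (Bad B l ε ∩ U r) :=
        hm _ (measurableSet_Bad l ε)
      rw [e0]
      refine hb.trans (ENNReal.ofReal_le_ofReal ?_)
      have := one_add_mul_le_pow (a := -ε) (by linarith) r
      have h5 : (1 + -ε) ^ r = (1 - ε) ^ r := by rw [← sub_eq_add_neg]
      rw [h5] at this
      linarith
    have e4 : ENNReal.ofReal (ε * S) ≤ ENNReal.ofReal (ε * r + ε * (ε * K)) := by
      have hK0 : 0 ≤ K := by
        rw [hK]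
        refine Finset.sum_nonneg fun p hp => ?_
        have hp' := Finset.mem_offDiag.1 hp
        exact mul_nonneg (hl _ hp'.1) (hl _ hp'.2.1)
      rw [ENNReal.ofReal_add (by positivity) (by positivity)]
      exact e1.trans (hbon.trans (add_le_add e3 e2))
    have hK0 : 0 ≤ K := by
      rw [hK]
      refine Finset.sum_nonneg fun p hp => ?_
      have hp' := Finset.mem_offDiag.1 hp
      exact mul_nonneg (hl _ hp'.1) (hl _ hp'.2.1)
    have e5 : ε * S ≤ ε * r + ε * (ε * K) :=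
      (ENNReal.ofReal_le_ofReal_iff (by positivity)).1 e4
    have e6 : ε * S ≤ ε * (r + ε * K) := by rw [mul_add]; exact e5
    exact le_of_mul_le_mul_left e6 h1
  have lim : Filter.Tendsto (fun ε : ℝ => (r : ℝ) + ε * K) (nhdsWithin 0 (Ioi 0)) (nhds r) := by
    have : Filter.Tendsto (fun ε : ℝ => (r : ℝ) + ε * K) (nhds 0) (nhds ((r : ℝ) + 0 * K)) := by
      apply Continuous.tendsto
      fun_prop
    rw [zero_mul, add_zero] at this
    exact this.mono_left nhdsWithin_le_nhds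
  exact ge_of_tendsto lim main

end Pool.Agent.Work.MP_f22417_co.Volume
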