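import Pool.Agent.Work.MP_f22417_co.Defs
import Pool.Agent.Work.MP_f22417_co.Volume

namespace Pool.Agent.Work.MP_f22417_co

open scoped BigOperators
open MeasureTheory

/-- the real vector of an integer vector -/
def rv {n : ℕ} (b : Fin n → ℤ) : Fin n → ℝ := fun i => (b i : ℝ)

/-- a completion of an independent family by standard basis vectors -/
lemma completion {n r : ℕ} (T : Fin r → (Fin n → ℤ)) (V : Fin r → (Fin n → ℝ))
    (hTU : ∀ i j, dot (T i) (V j) = if i = j then 1 else 0) :
    ∃ K : Finset (Fin n), K.card + r = n ∧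
      ∀ (a : Fin r → ℝ) (c : Fin n → ℝ), ∃! x : Fin n → ℝ, (∀ i, dot (T i) x = a i) ∧
        ∀ k ∈ K, x k = c k := by
  classical
  let v : Fin r ⊕ Fin n → (Fin n → ℝ) := Sum.elim (fun i => rv (T i)) (fun k => Pi.single k 1)
  have hli : LinearIndepOn ℝ v (Set.range Sum.inl) := by
    have h1 : LinearIndependent ℝ (fun i : Fin r => rv (T i)) := by
      rw [Fintype.linearIndependent_iff]
      intro g hg j
      have h2 := congrArg (fun y : Fin n → ℝ => ∑ k, y k * V j k) hg
      simp only [Pi.zero_apply, zero_mul, Finset.sum_const_zero, Finset.sum_apply, Pi.smul_apply,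
        smul_eq_mul] at h2
      have h3 : ∑ k, (∑ i, g i * rv (T i) k) * V j k = ∑ i, g i * dot (T i) (V j) := by
        simp only [Finset.sum_mul, dot, Finset.mul_sum, rv]
        rw [Finset.sum_comm]
        refine Finset.sum_congr rfl fun i _ => Finset.sum_congr rfl fun k _ => by ring
      rw [h3] at h2
      simpa [hTU] using h2
    rw [linearIndepOn_range_iff Sum.inl_injective]
    exact h1
  have hext := hli.linearIndepOn_extend (Set.subset_univ _)
  have hsub := hli.subset_extend (Set.subset_univ _)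
  have hspan : Submodule.span ℝ (v '' hli.extend (Set.subset_univ _)) = ⊤ := by
    rw [hli.span_image_extend_eq_span_image, eq_top_iff, ← (Pi.basisFun ℝ (Fin n)).span_eq]
    apply Submodule.span_mono
    rintro _ ⟨k, rfl⟩
    exact ⟨Sum.inr k, Set.mem_univ _, by simp [v]⟩
  generalize hli.extend (Set.subset_univ _) = E at hext hsub hspan
  let b : Module.Basis E ℝ (Fin n → ℝ) := Module.Basis.mk (v := fun e : E => v e) hext (by
    rw [← hspan, Set.image_eq_range])
  have hb : ∀ e : E, b e = v e := fun e => Module.Basis.mk_apply hext _ e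
  have hcard : Nat.card E = n := by
    rw [← Module.finrank_eq_nat_card_basis b]; simp
  set K : Finset (Fin n) := Finset.univ.filter fun k => Sum.inr k ∈ E with hK
  have hEK : E = Set.range Sum.inl ∪ Sum.inr '' (K : Set (Fin n)) := by
    ext e
    rcases e with i | k
    · simp only [Set.mem_union, Set.mem_range, Sum.inl.injEq, exists_eq, true_or, iff_true]
      exact hsub ⟨i, rfl⟩
    · simp [hK]
  refine ⟨K, ?_, ?_⟩
  · have h1 : Nat.card E = Nat.card (Fin r) + K.card := by
      rw [Nat.card_coe_set_eq, hEK, Set.ncard_union_eq]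
      · rw [Set.ncard_image_of_injective _ Sum.inr_injective, Set.ncard_coe_finset,
          ← Set.image_univ, Set.ncard_image_of_injective _ Sum.inl_injective, Set.ncard_univ]
      · rw [Set.disjoint_left]
        rintro _ ⟨i, rfl⟩ ⟨k, _, hk⟩
        exact absurd hk (by simp)
    rw [hcard, Nat.card_fin] at h1
    omega
  · intro a c
    -- the functional with prescribed values
    let val : Fin r ⊕ Fin n → ℝ := Sum.elim a c
    have key : ∀ x : Fin n → ℝ, ((∀ i, dot (T i) x = a i) ∧ ∀ k ∈ K, x k = c k) ↔
        ∀ e : E, ∑ i, v e i * x i = val e := by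
      intro x
      constructor
      · rintro ⟨h1, h2⟩ ⟨e, he⟩
        rcases e with i | k
        · exact h1 i
        · have hk : k ∈ K := by simp [hK, he]
          have := h2 k hk
          simp [v, val, Pi.single_apply, this]
      · intro h
        refine ⟨fun i => ?_, fun k hk => ?_⟩
        · exact h ⟨Sum.inl i, hsub ⟨i, rfl⟩⟩
        · have hk' : Sum.inr k ∈ E := by simpa [hK] using hk
          have := h ⟨Sum.inr k, hk'⟩
          simpa [v, val, Pi.single_apply] using this
    let f : (Fin n → ℝ) →ₗ[ℝ] ℝ := b.constr ℝ (fun e : E => val e)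
    have hf : ∀ y : Fin n → ℝ, f y = ∑ i, y i * f (Pi.single i 1) := by
      intro y
      rw [LinearMap.pi_apply_eq_sum_univ f y]
      refine Finset.sum_congr rfl fun i _ => ?_
      rw [smul_eq_mul]
      congr 2
      funext j
      simp [Pi.single_apply, eq_comm]
    refine ⟨fun i => f (Pi.single i 1), ?_, ?_⟩
    · show ((∀ i, dot (T i) _ = a i) ∧ _)
      rw [key]
      intro e
      rw [← hf, ← hb, Module.Basis.constr_basis]
    · intro x hx
      rw [key] at hx
      let g : (Fin n → ℝ) →ₗ[ℝ] ℝ :=
        { toFun := fun y => ∑ i, y i * x i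
          map_add' := fun y z => by simp [add_mul, Finset.sum_add_distrib]
          map_smul' := fun t y => by simp [Finset.mul_sum, mul_assoc] }
      have hg : g = f := by
        apply b.ext
        intro e
        rw [Module.Basis.constr_basis, hb]
        exact hx e
      funext i
      rw [← hg]
      show x i = ∑ k, (Pi.single i (1 : ℝ) : Fin n → ℝ) k * x k
      simp [Pi.single_apply]

lemma dot_neg {n : ℕ} (b : Fin n → ℤ) (x : Fin n → ℝ) : dot (-b) x = - dot b x := by
  simp [dot, Finset.sum_neg_distrib]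

lemma dot_single {n : ℕ} (k : Fin n) (x : Fin n → ℝ) : dot (Pi.single k 1) x = x k := by
  simp [dot, Pi.single_apply]

lemma dot_add {n : ℕ} (b : Fin n → ℤ) (x y : Fin n → ℝ) : dot b (x + y) = dot b x + dot b y := by
  simp [dot, Finset.sum_add_distrib, mul_add]

lemma cont_single {n : ℕ} (k : Fin n) : cont (Pi.single k (1 : ℤ)) = 1 := by
  apply Nat.dvd_one.1
  have : cont (Pi.single k (1 : ℤ)) ∣ ((Pi.single k (1 : ℤ) : Fin n → ℤ) k).natAbs :=
    Finset.gcd_dvd (Finset.mem_univ k)
  simpa using this

lemma cont_neg {n : ℕ} (b : Fin n → ℤ) : cont (-b) = cont b := by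
  simp [cont]

theorem key {n r : ℕ} (N : Finset (Fin n → ℤ)) (hneg : ∀ b ∈ N, -b ∈ N) (h0 : 0 ∉ N)
    (T : Fin r → (Fin n → ℤ)) (U : Fin r → (Fin n → ℝ)) (hT : ∀ i, T i ∈ N)
    (hTU : ∀ i j, dot (T i) (U j) = if i = j then 1 else 0)
    (hsp : ∀ b ∈ N, ∀ x : Fin n → ℝ, (∀ i, dot (T i) x = 0) → dot b x = 0)
    (w : (Fin n → ℤ) → ℝ) (hw : ∀ b ∈ N, 0 ≤ w b) (hF : Feas N w) :
    ∑ b ∈ N, (Nat.totient (cont b) : ℝ) / (cont b : ℝ) * w b ≤ r := by
  classical
  obtain ⟨K, hK, hex⟩ := completion T U hTU
  have hnot : ∀ k ∈ K, (Pi.single k (1 : ℤ) : Fin n → ℤ) ∉ N := by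
    intro k hk hmem
    obtain ⟨x, ⟨hx1, hx2⟩, _⟩ := hex 0 (fun _ => 1)
    have := hsp _ hmem x hx1
    rw [dot_single, hx2 k hk] at this
    exact one_ne_zero this
  have hnot' : ∀ k ∈ K, -(Pi.single k (1 : ℤ) : Fin n → ℤ) ∉ N := by
    intro k hk hmem
    apply hnot k hk
    simpa using hneg _ hmem
  set P1 : Finset (Fin n → ℤ) := K.image fun k => Pi.single k (1 : ℤ) with hP1
  set P2 : Finset (Fin n → ℤ) := K.image fun k => -(Pi.single k (1 : ℤ) : Fin n → ℤ) with hP2
  have hinj : Function.Injective fun k : Fin n => (Pi.single k (1 : ℤ) : Fin n → ℤ) := by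
    intro k l h
    by_contra hne
    have := congrFun h k
    simp [hne] at this
  have hinj' : Function.Injective fun k : Fin n => -(Pi.single k (1 : ℤ) : Fin n → ℤ) := by
    intro k l h
    exact hinj (neg_injective h)
  have hd12 : Disjoint P1 P2 := by
    rw [Finset.disjoint_left]
    intro b hb hb'
    obtain ⟨k, _, rfl⟩ := Finset.mem_image.1 hb
    obtain ⟨l, _, hl⟩ := Finset.mem_image.1 hb'
    have := congrFun hl k
    simp only [Pi.neg_apply, Pi.single_eq_same] at this
    by_cases hkl : k = l
    · subst hkl; simp at this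
    · simp [hkl] at this
  have hdN : Disjoint N (P1 ∪ P2) := by
    rw [Finset.disjoint_left]
    intro b hb hb'
    rcases Finset.mem_union.1 hb' with h | h
    · obtain ⟨k, hk, rfl⟩ := Finset.mem_image.1 h
      exact hnot k hk hb
    · obtain ⟨k, hk, rfl⟩ := Finset.mem_image.1 h
      exact hnot' k hk hb
  have hmain := Volume.volume_contraction (N ∪ (P1 ∪ P2)) (by
      intro b hb
      simp only [Finset.mem_union] at hb ⊢
      rcases hb with hb | hb | hb
      · exact Or.inl (hneg b hb)
      · obtain ⟨k, hk, rfl⟩ := Finset.mem_image.1 hb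
        exact Or.inr (Or.inr (Finset.mem_image_of_mem _ hk))
      · obtain ⟨k, hk, rfl⟩ := Finset.mem_image.1 hb
        rw [neg_neg]
        exact Or.inr (Or.inl (Finset.mem_image_of_mem _ hk))) (by
      intro hb
      simp only [Finset.mem_union] at hb
      rcases hb with hb | hb | hb
      · exact h0 hb
      · obtain ⟨k, hk, h⟩ := Finset.mem_image.1 hb
        have := congrFun h k
        simp at this
      · obtain ⟨k, hk, h⟩ := Finset.mem_image.1 hb
        have := congrFun h k
        simp at this) (by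
      intro x hx
      obtain ⟨y, hy, huniq⟩ := hex 0 0
      have h1 : x = y := by
        apply huniq
        refine ⟨fun i => ?_, fun k hk => ?_⟩
        · exact hx (T i) (Finset.mem_union_left _ (hT i))
        · have := hx (Pi.single k 1) (Finset.mem_union_right _
            (Finset.mem_union_left _ (Finset.mem_image_of_mem _ hk)))
          have h2 : dot (Pi.single k 1) x = 0 := this
          rw [dot_single] at h2
          exact h2
      have h2 : (0 : Fin n → ℝ) = y := by
        apply huniq
        refine ⟨fun i => by simp [dot], fun k hk => rfl⟩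
      rw [h1, h2])
    (fun b => if b ∈ N then w b else 1 / 2) (by
      intro b hb
      show 0 ≤ if b ∈ N then w b else 1 / 2
      split_ifs with h
      · exact hw b h
      · norm_num) (by
      rintro h ⟨x, hx⟩
      obtain ⟨y0, hy0⟩ := hF h x fun b hb => hx b (Finset.mem_union_left _ hb)
      obtain ⟨v, ⟨hv1, hv2⟩, _⟩ := hex 0 (fun k => (h (Pi.single k 1) : ℝ) - 1 / 2 - y0 k)
      refine ⟨y0 + v, fun b hb => ?_⟩
      show dot b (y0 + v) + (if b ∈ N then w b else 1 / 2) ≤ h b
      have hmem : ∀ k ∈ K, (Pi.single k (1:ℤ) : Fin n → ℤ) ∈ N ∪ (P1 ∪ P2) := fun k hk =>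
        Finset.mem_union_right _ (Finset.mem_union_left _ (Finset.mem_image_of_mem _ hk))
      have hmem' : ∀ k ∈ K, -(Pi.single k (1:ℤ) : Fin n → ℤ) ∈ N ∪ (P1 ∪ P2) := fun k hk =>
        Finset.mem_union_right _ (Finset.mem_union_right _ (Finset.mem_image_of_mem _ hk))
      rcases Finset.mem_union.1 hb with hbN | hb'
      · rw [if_pos hbN, dot_add, hsp b hbN v hv1, add_zero]
        exact hy0 b hbN
      · have hbN : b ∉ N := fun hbN => (Finset.disjoint_left.1 hdN hbN) hb'
        rw [if_neg hbN]
        rcases Finset.mem_union.1 hb' with hb1 | hb2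
        · obtain ⟨k, hk, rfl⟩ := Finset.mem_image.1 hb1
          rw [dot_single, Pi.add_apply, hv2 k hk]
          linarith
        · obtain ⟨k, hk, rfl⟩ := Finset.mem_image.1 hb2
          rw [dot_neg, dot_single, Pi.add_apply, hv2 k hk]
          have e1 : dot (Pi.single k 1) x < h (Pi.single k 1) := hx _ (hmem k hk)
          have e2 : dot (-(Pi.single k 1)) x < h (-(Pi.single k 1)) := hx _ (hmem' k hk)
          rw [dot_neg, dot_single] at e2
          rw [dot_single] at e1
          have e3 : (0 : ℝ) < ((h (Pi.single k 1) + h (-(Pi.single k 1)) : ℤ) : ℝ) := by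
            push_cast; linarith
          have e4 : 0 < h (Pi.single k 1) + h (-(Pi.single k 1)) := by exact_mod_cast e3
          have e5 : (1 : ℝ) ≤ ((h (Pi.single k 1) + h (-(Pi.single k 1)) : ℤ) : ℝ) := by
            exact_mod_cast e4
          push_cast at e5
          linarith)
  rw [Finset.sum_union hdN, Finset.sum_union hd12] at hmain
  have s0 : ∑ b ∈ N, ((Nat.totient (Volume.ct b) : ℝ) / Volume.ct b) *
      (if b ∈ N then w b else 1 / 2) = ∑ b ∈ N, (Nat.totient (cont b) : ℝ) / (cont b : ℝ) * w b := by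
    refine Finset.sum_congr rfl fun b hb => ?_
    rw [if_pos hb]; rfl
  have s1 : ∑ b ∈ P1, ((Nat.totient (Volume.ct b) : ℝ) / Volume.ct b) *
      (if b ∈ N then w b else 1 / 2) = K.card * (1 / 2) := by
    rw [hP1, Finset.sum_image (fun k _ l _ h => hinj h)]
    rw [Finset.sum_congr rfl (g := fun _ => (1 / 2 : ℝ))]
    · simp
    · intro k hk
      have h1 : Volume.ct (Pi.single k (1 : ℤ)) = 1 := cont_single k
      rw [if_neg (hnot k hk), h1]; simp
  have s2 : ∑ b ∈ P2, ((Nat.totient (Volume.ct b) : ℝ) / Volume.ct b) *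
      (if b ∈ N then w b else 1 / 2) = K.card * (1 / 2) := by
    rw [hP2, Finset.sum_image (fun k _ l _ h => hinj' h)]
    rw [Finset.sum_congr rfl (g := fun _ => (1 / 2 : ℝ))]
    · simp
    · intro k hk
      have h1 : Volume.ct (-(Pi.single k (1 : ℤ)) : Fin n → ℤ) = 1 := by
        rw [Volume.ct_neg]; exact cont_single k
      rw [if_neg (hnot' k hk), h1]; simp
  rw [s0, s1, s2] at hmain
  have hKr : (K.card : ℝ) + r = n := by exact_mod_cast hK
  linarith

end Pool.Agent.Work.MP_f22417_co
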